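import Pool.Agent.Q117.AP.Stm2

/-!
Project AP (helper117), job CLS: the classes modulo `d`.
-/

set_option autoImplicit false

namespace Pool.Agent.Q117.AP.CLSa

open Finset Filter
open Pool.Agent.Q117.LF (Ro oF)
open Pool.Agent.Q117.GP (Rk)

/-- the large prime factors of `d` are few -/
theorem card_large {d t : ℕ} (hd : 2 ≤ d) (ht : 1 ≤ t) :
    ((d.primeFactors.filter (fun p : ℕ => (d : ℝ) ^ (1 / (t : ℝ)) < p)).card) ≤ t := by
  classical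
  set P := d.primeFactors.filter (fun p : ℕ => (d : ℝ) ^ (1 / (t : ℝ)) < p) with hP
  by_contra hcon
  have hcard : t + 1 ≤ P.card := by omega
  have hd0 : (0 : ℝ) < d := by positivity
  have hd1 : (1 : ℝ) < d := by exact_mod_cast hd
  have hprod : (∏ p ∈ P, (p : ℝ)) ≤ d := by
    have h1 : (∏ p ∈ P, p) ∣ d :=
      (Finset.prod_dvd_prod_of_subset _ _ _ (filter_subset _ _)).trans (Nat.prod_primeFactors_dvd d)
    have h2 := Nat.le_of_dvd (by omega) h1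
    have h3 : ((∏ p ∈ P, p : ℕ) : ℝ) ≤ d := by exact_mod_cast h2
    rw [Nat.cast_prod] at h3
    exact h3
  have hz : (0 : ℝ) ≤ (d : ℝ) ^ (1 / (t : ℝ)) := by positivity
  have hlow : ((d : ℝ) ^ (1 / (t : ℝ))) ^ P.card ≤ ∏ p ∈ P, (p : ℝ) := by
    rw [← Finset.prod_const]
    exact Finset.prod_le_prod (fun _ _ => hz) fun p hp => (mem_filter.1 hp).2.le
  have hz1 : (1 : ℝ) < (d : ℝ) ^ (1 / (t : ℝ)) := Real.one_lt_rpow hd1 (by positivity)
  have hpow : ((d : ℝ) ^ (1 / (t : ℝ))) ^ t = d := by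
    rw [← Real.rpow_natCast, ← Real.rpow_mul hd0.le, one_div_mul_cancel (by positivity), Real.rpow_one]
  have h3 : ((d : ℝ) ^ (1 / (t : ℝ))) ^ (t + 1) ≤ ((d : ℝ) ^ (1 / (t : ℝ))) ^ P.card :=
    pow_le_pow_right₀ hz1.le hcard
  rw [pow_succ, hpow] at h3
  nlinarith

open Classical in
/-- the numbers up to `d` which have a large common prime factor with `d` -/
theorem card_bad {d t : ℕ} (hd : 2 ≤ d) (ht : 1 ≤ t) :
    (((Icc 1 d).filter (fun b : ℕ => ∃ p : ℕ, p.Prime ∧ p ∣ d ∧ p ∣ b ∧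
      (d : ℝ) ^ (1 / (t : ℝ)) < p)).card : ℝ) ≤ t * (d : ℝ) ^ (1 - 1 / (t : ℝ)) := by
  have hd0 : (0 : ℝ) < d := by positivity
  set P := d.primeFactors.filter (fun p : ℕ => (d : ℝ) ^ (1 / (t : ℝ)) < p) with hP
  have hsub : (Icc 1 d).filter (fun b : ℕ => ∃ p : ℕ, p.Prime ∧ p ∣ d ∧ p ∣ b ∧
      (d : ℝ) ^ (1 / (t : ℝ)) < p) ⊆ P.biUnion (fun p => (Ioc 0 d).filter (fun b => p ∣ b)) := by
    intro b hb
    obtain ⟨hb1, p, hp, hpd, hpb, hlt⟩ := mem_filter.1 hb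
    rw [mem_biUnion]
    refine ⟨p, mem_filter.2 ⟨Nat.mem_primeFactors.2 ⟨hp, hpd, by omega⟩, hlt⟩, mem_filter.2 ⟨?_, hpb⟩⟩
    rw [mem_Icc] at hb1
    rw [mem_Ioc]
    omega
  have h1 : (((Icc 1 d).filter (fun b : ℕ => ∃ p : ℕ, p.Prime ∧ p ∣ d ∧ p ∣ b ∧
      (d : ℝ) ^ (1 / (t : ℝ)) < p)).card : ℝ) ≤
      ∑ p ∈ P, (((Ioc 0 d).filter (fun b => p ∣ b)).card : ℝ) := by
    have h2 := (card_le_card hsub).trans card_biUnion_le
    exact_mod_cast h2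
  have h3 : ∀ p ∈ P, (((Ioc 0 d).filter (fun b => p ∣ b)).card : ℝ) ≤ (d : ℝ) ^ (1 - 1 / (t : ℝ)) := by
    intro p hp
    have hlt := (mem_filter.1 hp).2
    have hz0 : (0 : ℝ) < (d : ℝ) ^ (1 / (t : ℝ)) := by positivity
    rw [Nat.Ioc_filter_dvd_card_eq_div]
    refine (Nat.cast_div_le).trans ?_
    rw [Real.rpow_sub hd0, Real.rpow_one]
    exact div_le_div_of_nonneg_left hd0.le hz0 hlt.le
  refine h1.trans ((sum_le_sum h3).trans ?_)
  rw [sum_const, nsmul_eq_mul]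
  refine mul_le_mul_of_nonneg_right ?_ (by positivity)
  exact_mod_cast card_large hd ht

theorem ev_size (c θ : ℝ) (hc : 0 < c) (hθ : 0 < θ) :
    ∀ᶠ x : ℝ in atTop, x + x * (c * (Real.log x) ^ 2) ≤ x ^ (1 + θ) := by
  have h1 := isLittleO_log_rpow_rpow_atTop (s := θ) 2 hθ
  have h2 := (Asymptotics.isLittleO_iff.1 h1) (show (0 : ℝ) < 1 / (2 * c) by positivity)
  have h3 : ∀ᶠ x : ℝ in atTop, 2 ≤ x ^ θ := (tendsto_rpow_atTop hθ).eventually_ge_atTop 2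
  filter_upwards [h2, h3, eventually_ge_atTop 1] with x hx2 hx3 hx1
  have hx0 : (0 : ℝ) < x := by linarith
  rw [Real.norm_of_nonneg (by
    have := Real.log_nonneg hx1
    positivity), Real.norm_of_nonneg (by positivity)] at hx2
  have e1 : Real.log x ^ (2 : ℝ) = (Real.log x) ^ 2 := by
    rw [show (2 : ℝ) = ((2 : ℕ) : ℝ) by norm_num, Real.rpow_natCast]
  rw [e1] at hx2
  have h4 : c * (Real.log x) ^ 2 ≤ x ^ θ / 2 := by
    have h5 : c * (Real.log x) ^ 2 ≤ c * (1 / (2 * c) * x ^ θ) := mul_le_mul_of_nonneg_left hx2 hc.le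
    have h6 : c * (1 / (2 * c) * x ^ θ) = x ^ θ / 2 := by
      field_simp
    linarith
  rw [Real.rpow_add hx0, Real.rpow_one]
  nlinarith

theorem ev_main (t : ℕ) (ε ε' : ℝ) (h1 : ε' < ε) (h2 : ε' < 1 / (t : ℝ)) :
    ∀ᶠ x : ℝ in atTop, x ^ (1 - ε) + t * x ^ (1 - 1 / (t : ℝ)) ≤ x * x ^ (-ε') := by
  have h3 : ∀ᶠ x : ℝ in atTop, 2 ≤ x ^ (ε - ε') := (tendsto_rpow_atTop (by linarith)).eventually_ge_atTop 2
  have h4 : ∀ᶠ x : ℝ in atTop, 2 * (t : ℝ) ≤ x ^ (1 / (t : ℝ) - ε') :=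
    (tendsto_rpow_atTop (by linarith)).eventually_ge_atTop _
  filter_upwards [h3, h4, eventually_ge_atTop 1] with x hx3 hx4 hx1
  have hx0 : (0 : ℝ) < x := by linarith
  have e1 : x * x ^ (-ε') = x ^ (1 - ε') := by
    rw [sub_eq_add_neg, Real.rpow_add hx0, Real.rpow_one]
  have e2 : x ^ (1 - ε') = x ^ (1 - ε) * x ^ (ε - ε') := by
    rw [← Real.rpow_add hx0]
    congr 1
    ring
  have e3 : x ^ (1 - ε') = x ^ (1 - 1 / (t : ℝ)) * x ^ (1 / (t : ℝ) - ε') := by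
    rw [← Real.rpow_add hx0]
    congr 1
    ring
  have h5 : 2 * x ^ (1 - ε) ≤ x ^ (1 - ε') := by
    rw [e2]
    have := Real.rpow_pos_of_pos hx0 (1 - ε)
    nlinarith
  have h6 : 2 * (t * x ^ (1 - 1 / (t : ℝ))) ≤ x ^ (1 - ε') := by
    rw [e3]
    have := Real.rpow_pos_of_pos hx0 (1 - 1 / (t : ℝ))
    nlinarith
  rw [e1]
  linarith

end Pool.Agent.Q117.AP.CLSa

namespace Pool.Agent.Q117.AP

open Finset Filter CLSa
open Pool.Agent.Q117.LF (Ro oF)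
open Pool.Agent.Q117.GP (Rk)

theorem cls : St_CLS := by
  classical
  intro hRGG hRKS k hk
  obtain ⟨t, ht, θ, hθ, hmain⟩ := hRGG k 2 1 hk (by norm_num) le_rfl (by norm_num)
  refine ⟨t, ht, fun ε hε => ?_⟩
  have ht0 : (0 : ℝ) < t := by exact_mod_cast ht
  set ε' : ℝ := min (ε / 2) (min (1 / (2 * t)) (1 / 2)) with hε'
  have hε'0 : 0 < ε' := by
    refine lt_min (by linarith) (lt_min (by positivity) (by norm_num))
  have hε'1 : ε' < ε := lt_of_le_of_lt (min_le_left _ _) (by linarith)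
  have hε'2 : ε' < 1 / (t : ℝ) := by
    refine lt_of_le_of_lt ((min_le_right _ _).trans (min_le_left _ _)) ?_
    exact one_div_lt_one_div_of_lt ht0 (by linarith)
  have hε'3 : ε' ≤ 1 / 2 := (min_le_right _ _).trans (min_le_right _ _)
  obtain ⟨c, hc, X0, hX⟩ := hmain ε' hε'0
  obtain ⟨X1, hX1⟩ := hRKS 1 one_pos le_rfl
  have hev := (((ev_size c θ hc hθ).and (ev_main t ε ε' hε'1 hε'2)).and
    ((eventually_ge_atTop X0).and (eventually_ge_atTop X1)))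
  obtain ⟨d0, hd0⟩ := eventually_atTop.1 (tendsto_natCast_atTop_atTop.eventually hev)
  refine ⟨c, hc, max d0 2, fun d hd hω E hE hEb hAd e₀ he₀ => ?_⟩
  obtain ⟨⟨hsize, hfin⟩, hdX0, hdX1⟩ := hd0 d ((le_max_left _ _).trans hd)
  have hd2 : 2 ≤ d := (le_max_right _ _).trans hd
  have hdR : (2 : ℝ) ≤ d := by exact_mod_cast hd2
  have hdpos : (0 : ℝ) < d := by linarith
  obtain ⟨hR0, hR1, -⟩ := hX1 d hdX1
  have hφ : ((Nat.totient d : ℝ) / d) ≤ 1 := by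
    rw [div_le_one hdpos]
    exact_mod_cast Nat.totient_le d
  have hφ0 : 0 ≤ ((Nat.totient d : ℝ) / d) := by positivity
  have hkey := hX d hdX0 1 d le_rfl (by omega) (by
      rw [Nat.cast_one]
      exact Real.one_le_rpow (by linarith) (by linarith)) 0 (by
      intro p hp h1
      exact absurd (Nat.dvd_one.1 h1) hp.one_lt.ne') hω E hE hEb hAd e₀ he₀ 0 d
      (by rw [Real.rpow_one]) le_rfl (by
      intro n hn
      rw [mem_Ioc, zero_add] at hn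
      have h1 : ((gv 1 d 0 e₀ n : ℤ) : ℝ) = (n : ℝ) + d * (e₀ : ℝ) := by
        unfold gv
        push_cast
        ring
      rw [h1]
      refine le_trans ?_ hsize
      have h2 : |(n : ℝ) + d * (e₀ : ℝ)| ≤ |(n : ℝ)| + |(d : ℝ) * (e₀ : ℝ)| := abs_add_le _ _
      have h3 : |(n : ℝ)| ≤ d := by
        rw [abs_of_nonneg (Nat.cast_nonneg n)]
        exact_mod_cast hn.2
      have h4 : |(d : ℝ) * (e₀ : ℝ)| ≤ d * (c * (Real.log d) ^ 2) := by
        rw [abs_mul, abs_of_pos hdpos]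
        refine mul_le_mul_of_nonneg_left ((hEb e₀ he₀).trans ?_) hdpos.le
        refine mul_le_mul_of_nonneg_left ?_ hc.le
        calc (Nat.totient d : ℝ) / d * Rk d ≤ 1 * Rk d := mul_le_mul_of_nonneg_right hφ hR0.le
          _ ≤ (Real.log d) ^ 2 := by rw [one_mul]; exact hR1
      linarith)
  set D : ℝ := c * ((Nat.totient d : ℝ) / d * Rk d) with hDdef
  have hsub : PtsS 1 d 0 E e₀ 2 ((d : ℝ) ^ ((1 : ℝ) / 6)) ((d : ℝ) ^ (1 / (t : ℝ))) D (Real.log d) 0 d ⊆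
      Cls d E e₀ ((d : ℝ) ^ (1 / 6 : ℝ)) ((d : ℝ) ^ (1 / (t : ℝ))) D (Real.log d) ∪
      (Icc 1 d).filter (fun b : ℕ => ∃ p : ℕ, p.Prime ∧ p ∣ d ∧ p ∣ b ∧
        (d : ℝ) ^ (1 / (t : ℝ)) < p) := by
    intro b hb
    obtain ⟨hb1, hb2, hb3, hb4, hb5⟩ := mem_filter.1 hb
    have hg : ∀ e : ℤ, gv 1 d 0 e b = (b : ℤ) + d * e := by
      intro e
      unfold gv
      push_cast
      ring
    simp only [hg] at hb2 hb3 hb4 hb5
    have hb1' : b ∈ Icc 1 d := by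
      rw [mem_Ioc, zero_add] at hb1
      rw [mem_Icc]
      omega
    rw [mem_union]
    by_cases hcop : b.Coprime d
    · left
      exact mem_filter.2 ⟨hb1', hcop, hb2, hb3, hb4, hb5⟩
    · right
      obtain ⟨p, hp, hpb, hpd⟩ := Nat.Prime.not_coprime_iff_dvd.1 hcop
      refine mem_filter.2 ⟨hb1', p, hp, hpd, hpb, ?_⟩
      refine hb4 e₀ he₀ p hp ?_
      exact dvd_add (Int.natCast_dvd_natCast.2 hpb) (Dvd.dvd.mul_right (Int.natCast_dvd_natCast.2 hpd) _)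
  have hcard : ((PtsS 1 d 0 E e₀ 2 ((d : ℝ) ^ ((1 : ℝ) / 6)) ((d : ℝ) ^ (1 / (t : ℝ))) D (Real.log d) 0 d).card : ℝ) ≤
      ((Cls d E e₀ ((d : ℝ) ^ (1 / 6 : ℝ)) ((d : ℝ) ^ (1 / (t : ℝ))) D (Real.log d)).card : ℝ) +
      t * (d : ℝ) ^ (1 - 1 / (t : ℝ)) := by
    have h1 := (card_le_card hsub).trans (card_union_le _ _)
    have h2 : ((PtsS 1 d 0 E e₀ 2 ((d : ℝ) ^ ((1 : ℝ) / 6)) ((d : ℝ) ^ (1 / (t : ℝ))) D (Real.log d) 0 d).card : ℝ) ≤
        ((Cls d E e₀ ((d : ℝ) ^ (1 / 6 : ℝ)) ((d : ℝ) ^ (1 / (t : ℝ))) D (Real.log d)).card : ℝ) +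
        (((Icc 1 d).filter (fun b : ℕ => ∃ p : ℕ, p.Prime ∧ p ∣ d ∧ p ∣ b ∧
          (d : ℝ) ^ (1 / (t : ℝ)) < p)).card : ℝ) := by exact_mod_cast h1
    have h3 := card_bad hd2 ht
    linarith
  have h9 := hkey.trans hcard
  linarith

end Pool.Agent.Q117.AP
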