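import Pool.Agent.Q117.AP.Stm
import Pool.Agent.Q117.LF.Cova

/-!
# Covering `[0, c (φ(d) / d) R(X)]` except for a prescribed set, without the primes that divide `d`

Project AP (helper117), job COVD (helper14). The file follows `Pool/Agent/Q117/LF/Cova.lean`.
-/

set_option autoImplicit false
set_option maxHeartbeats 4000000

namespace Pool.Agent.Q117.AP

open Finset Filter
open Pool.Agent.H378R2 (GoodS GoodP WW PW yy z2)
open Pool.Agent.Q117.CW (shiftZ shiftZ_card shift_not)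
open Pool.Agent.Q253.Thin (SysZ VZ_low int_lower IS)
open Pool.Agent.Y843.HS (Pr VV Pr_mem Pr_prime)
open Pool.Agent.Q117.GP (Rk ev_all classes primes_many)
open Pool.Agent.Q117.LF (AdmA shA shA_sys)

namespace COVDa

/-- a translate without small prime factors outside `A0` -/
theorem shift_ex (k : ℕ) (hk : 1 ≤ k) : ∃ t : ℕ, 1 ≤ t ∧ ∃ L₀ : ℕ, ∀ A0 : ℕ, ∀ L : ℕ, L₀ ≤ L → ∀ H : Finset ℕ, H.card = k →
    AdmA A0 H → ∃ t₀ : ℕ, 1 ≤ t₀ ∧ t₀ ≤ L ∧
      ∀ h ∈ H, ∀ p : ℕ, p.Prime → ¬ p ∣ A0 → (p : ℝ) ≤ (L : ℝ) ^ (1 / (t : ℝ)) → ¬ p ∣ t₀ + h := by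
  classical
  obtain ⟨t, ht, c, hc, G⟩ := int_lower k hk
  obtain ⟨X₀, H1⟩ := G 1 one_pos
  obtain ⟨cV, hcV, hV⟩ := VZ_low k hk
  refine ⟨t, ht, max X₀ 2, ?_⟩
  intro A0 L hL H hcard hadm
  have hL2 : 2 ≤ L := (le_max_right _ _).trans hL
  have sys := shA_sys hcard hadm
  have h1 := H1 L ((le_max_left _ _).trans hL) (shA A0 H) sys 0 L (by simp)
  have h2 := hV L hL2 (shA A0 H) sys
  have hlL : 0 < Real.log L := Real.log_pos (by exact_mod_cast (by omega : 1 < L))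
  have hL0 : (0 : ℝ) < L := by exact_mod_cast (by omega : 0 < L)
  have h3 : 0 < VV (shA A0 H) 0 L := lt_of_lt_of_le (by positivity) h2
  have h4 : (0 : ℝ) < ((IS t L 0 L (shA A0 H)).card : ℝ) := by
    refine lt_of_lt_of_le ?_ h1
    push_cast
    rw [sub_zero]
    positivity
  obtain ⟨n, hn⟩ := card_pos.1 (by exact_mod_cast h4 : 0 < (IS t L 0 L (shA A0 H)).card)
  unfold IS at hn
  rw [mem_filter, mem_Ioc] at hn
  refine ⟨n, hn.1.1, hn.1.2, ?_⟩
  intro h hh p hp hpA hpL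
  have h5 := hn.2 p hp hpL
  unfold shA at h5
  rw [if_neg hpA] at h5
  exact (shift_not H p n hp.pos).1 h5 h hh

/-- the product over a set of integers `≥ 2` -/
theorem prod_ge (s : Finset ℕ) : (∀ p ∈ s, 2 ≤ p) → 1 / ((s.card : ℝ) + 1) ≤ ∏ p ∈ s, (1 - 1 / (p : ℝ)) := by
  classical
  induction s using Finset.induction_on_max with
  | empty =>
    intro _
    simp
  | insert a s hs ih =>
    intro h2
    have ha : a ∉ s := fun h => lt_irrefl _ (hs a h)
    have hsub : s ⊆ Finset.Ico 2 a := by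
      intro x hx
      rw [mem_Ico]
      exact ⟨h2 x (mem_insert_of_mem hx), hs x hx⟩
    have hc := card_le_card hsub
    rw [Nat.card_Ico] at hc
    have ha2 := h2 a (mem_insert_self a s)
    have hca : s.card + 2 ≤ a := by omega
    rw [prod_insert ha, card_insert_of_notMem ha]
    have ih' := ih (fun p hp => h2 p (mem_insert_of_mem hp))
    have hcar : ((s.card : ℝ) + 2) ≤ a := by exact_mod_cast hca
    have hc0 : (0 : ℝ) ≤ s.card := Nat.cast_nonneg _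
    have h3 : ((s.card : ℝ) + 1) / (s.card + 2) ≤ 1 - 1 / (a : ℝ) := by
      have h4 : 1 / (a : ℝ) ≤ 1 / ((s.card : ℝ) + 2) := one_div_le_one_div_of_le (by linarith) hcar
      have h5 : ((s.card : ℝ) + 1) / (s.card + 2) = 1 - 1 / ((s.card : ℝ) + 2) := by
        field_simp
        ring
      linarith
    calc 1 / (((s.card + 1 : ℕ) : ℝ) + 1) = ((s.card : ℝ) + 1) / (s.card + 2) * (1 / ((s.card : ℝ) + 1)) := by
          push_cast
          field_simp
          ring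
      _ ≤ (1 - 1 / (a : ℝ)) * ∏ p ∈ s, (1 - 1 / (p : ℝ)) := by
          refine mul_le_mul h3 ih' (by positivity) ?_
          refine le_trans ?_ h3
          positivity

theorem phi_eq (d : ℕ) (hd : 1 ≤ d) : (Nat.totient d : ℝ) / d = ∏ p ∈ d.primeFactors, (1 - 1 / (p : ℝ)) := by
  have h1 := Nat.totient_eq_mul_prod_factors d
  have h2 : (Nat.totient d : ℝ) = d * ∏ p ∈ d.primeFactors, (1 - 1 / (p : ℝ)) := by
    have h3 : ((Nat.totient d : ℚ) : ℝ) = ((d * ∏ p ∈ d.primeFactors, (1 - (p : ℚ)⁻¹) : ℚ) : ℝ) := by rw [h1]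
    push_cast at h3
    rw [h3]
    simp only [one_div]
  rw [h2]
  have hd0 : (d : ℝ) ≠ 0 := by
    have : (0 : ℝ) < d := by exact_mod_cast hd
    exact this.ne'
  field_simp

theorem phi_low (d : ℕ) (hd : 1 ≤ d) : 1 / ((d.primeFactors.card : ℝ) + 1) ≤ (Nat.totient d : ℝ) / d := by
  rw [phi_eq d hd]
  exact prod_ge _ fun p hp => (Nat.prime_of_mem_primeFactors hp).two_le

theorem phi_le (d : ℕ) (hd : 1 ≤ d) : (Nat.totient d : ℝ) / d ≤ 1 := by
  have hd0 : (0 : ℝ) < d := by exact_mod_cast hd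
  rw [div_le_one hd0]
  exact_mod_cast Nat.totient_le d

theorem phi_inv (d : ℕ) (hd : 1 ≤ d) :
    ∏ p ∈ d.primeFactors, (1 - 1 / (p : ℝ))⁻¹ = ((Nat.totient d : ℝ) / d)⁻¹ := by
  rw [phi_eq d hd, prod_inv_distrib]

theorem q1 {A B : ℝ} (hA : 0 < A) (hB : 16 ≤ B) : 2 * A * 8 ≤ A * B := by nlinarith

theorem q2 {w E : ℝ} (h1 : w ≤ E) (h2 : 20000 ≤ E) : w + 1 ≤ E ^ 2 := by nlinarith

theorem q4 {E : ℝ} (h2 : 20000 ≤ E) : 8 * E ≤ E ^ 2 := by nlinarith

theorem q6 {E : ℝ} (h2 : 20000 ≤ E) : 20000 ≤ E ^ 2 := by nlinarith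

theorem q3 {E : ℝ} (h2 : 20000 ≤ E) : 64 * E ^ 2 < E ^ 6 := by
  have h1 : (64 : ℝ) < E ^ 4 := by
    have h3 : (20000 : ℝ) ^ 4 ≤ E ^ 4 := pow_le_pow_left₀ (by norm_num) h2 4
    linarith
  have h3 : 0 < E ^ 2 := by positivity
  nlinarith

theorem q7 {B D : ℝ} (h1 : 1 ≤ B) (h2 : D ≤ B) : D ≤ B ^ 2 := by nlinarith

theorem q8 {T A : ℝ} (h1 : 160000 ≤ A) (h2 : 0 < T * A) : T * A ≤ T / 20000 * (A / 2) ^ 2 := by nlinarith

theorem q10 {a h L : ℕ} (h1 : a ≤ L) (h2 : h ≤ L) (h3 : 2 ≤ L) : a + h ≤ L ^ 2 := by nlinarith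

theorem q11 {A B D : ℝ} (h1 : 0 < A * B) (h2 : 320 ≤ D) : 2 * A * (40 * B) ≤ A / 2 * (D / 2) * B := by nlinarith

theorem q12 {E A : ℝ} (h1 : 20000 ≤ E) (h2 : A ≤ 8 * E) : E * (80000 * A) ≤ E ^ 8 := by
  have h5 : E * (80000 * A) ≤ E * (80000 * (8 * E)) := by gcongr
  have h7 : 640000 * E ^ 2 ≤ E ^ 6 * E ^ 2 := by
    refine mul_le_mul_of_nonneg_right ?_ (by positivity)
    have h8 : (20000 : ℝ) ^ 6 ≤ E ^ 6 := pow_le_pow_left₀ (by norm_num) h1 6
    linarith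
  calc E * (80000 * A) ≤ E * (80000 * (8 * E)) := h5
    _ = 640000 * E ^ 2 := by ring
    _ ≤ E ^ 6 * E ^ 2 := h7
    _ = E ^ 8 := by ring

theorem q13 {c T A B D : ℝ} (hc0 : 0 < c) (hT : 0 < T) (hA : 0 < A) (hB : 0 < B) (hD : 1 ≤ D) (h : B ^ 2 ≤ c / 2 * A) :
    2 * T ≤ c * (T * A * D / B ^ 2) := by
  rw [mul_div_assoc', le_div_iff₀ (by positivity)]
  have h1 : T * B ^ 2 ≤ T * (c / 2 * A) := mul_le_mul_of_nonneg_left h hT.le
  have h2 : T * (c / 2 * A) ≤ T * (c / 2 * A) * D := le_mul_of_one_le_right (by positivity) hD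
  have h3 : c * (T * A * D) = 2 * (T * (c / 2 * A) * D) := by ring
  linarith

theorem q14 {c T A B D : ℝ} (hc0 : 0 < c) (hc1 : c ≤ 1 / 2) (hT : 0 < T) (hA : 0 < A) (hB : 1 ≤ B) (hD : 0 < D) (h : D ≤ B) :
    c * (T * A * D / B ^ 2) ≤ 1 / 2 * (T * A) := by
  have hB0 : 0 < B := by linarith
  rw [mul_div_assoc', div_le_iff₀ (by positivity)]
  have h3 : D ≤ B ^ 2 := q7 hB h
  have h4 : c * (T * A * D) ≤ 1 / 2 * (T * A * B ^ 2) := by gcongr
  have h5 : 1 / 2 * (T * A * B ^ 2) = 1 / 2 * (T * A) * B ^ 2 := by ring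
  linarith

theorem q15 {C φ l c R B A D T a b e : ℝ} (hC : 0 < C) (hc : 0 < c) (hc2 : c ≤ 1 / (4000000 * C)) (hφ : 0 < φ) (hl : 0 ≤ l)
    (hle : l ≤ c * (φ * R)) (hR : R = T * A * D / B ^ 2) (hT : 0 < T) (hA : 0 < A) (hB : 0 < B) (hD : 0 < D) (ha : A / 2 ≤ a)
    (hb : b ≤ B) (hb0 : 0 < b) (he : D / 2 ≤ e) :
    C * φ⁻¹ * (2 * l) * b ^ 2 / (a ^ 2 * e) ≤ T / (80000 * A) := by
  have hcan : φ⁻¹ * (2 * l) ≤ 2 * (c * R) := by
    rw [inv_mul_le_iff₀ hφ]
    calc 2 * l ≤ 2 * (c * (φ * R)) := by linarith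
      _ = _ := by ring
  have hR0 : 0 < R := by rw [hR]; positivity
  calc C * φ⁻¹ * (2 * l) * b ^ 2 / (a ^ 2 * e) = C * (φ⁻¹ * (2 * l)) * b ^ 2 / (a ^ 2 * e) := by ring
    _ ≤ C * (2 * (c * R)) * B ^ 2 / ((A / 2) ^ 2 * (D / 2)) := by gcongr
    _ = 16 * C * c * T / A := by
        rw [hR]
        field_simp
        ring
    _ ≤ 16 * C * (1 / (4000000 * C)) * T / A := by gcongr
    _ ≤ T / (80000 * A) := by
        have h1 : 16 * C * (1 / (4000000 * C)) * T / A = 16 / 4000000 * (T / A) := by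
          field_simp
        have h2 : T / (80000 * A) = 1 / 80000 * (T / A) := by
          field_simp
        rw [h1, h2]
        have : 0 < T / A := by positivity
        linarith

theorem q16 {t k K : ℝ} (ht : 0 ≤ t * k) (hk : 0 ≤ k) (hK : K = 80000 * (4 * t * k + k + 4)) : 2 * t * k ≤ 6 * K := by
  rw [hK]
  linarith

theorem q17 {t k K : ℝ} (ht : 0 ≤ t * k) (hk : 0 ≤ k) (hK : K = 80000 * (4 * t * k + k + 4)) : k ≤ K ∧ 2 ≤ K ∧ 1 ≤ K := by
  rw [hK]
  refine ⟨?_, ?_, ?_⟩ <;> linarith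

theorem q18 {t k K U P P0 v : ℝ} (ht : 0 ≤ t * k) (hk : 0 ≤ k) (hK : K = 80000 * (4 * t * k + k + 4)) (h2 : K ≤ v)
    (h3 : U ≤ 1 / 80000 * v) (h4 : P0 - 1 / 80000 * v - 2 * t * k - 1 ≤ P) (h5 : 10 / 80000 * v ≤ P0) : U + k ≤ P := by
  rw [hK] at h2
  linarith

/-- the sizes -/
theorem wfac (w : ℝ) (φ E : ℝ) (h1 : 1 / (w + 1) ≤ φ) (hw : 0 ≤ w) (hwE : w ≤ E) (hE : 20000 ≤ E) : 0 < φ ∧ 1 ≤ φ * E ^ 2 := by
  have h2 : 0 < w + 1 := by linarith
  have h3 : 0 < φ := lt_of_lt_of_le (by positivity) h1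
  refine ⟨h3, ?_⟩
  rw [div_le_iff₀ h2] at h1
  exact h1.trans (mul_le_mul_of_nonneg_left (q2 hwE hE) h3.le)

end COVDa

open COVDa

/-- **COVD.** -/
theorem covd : St_COVD := by
  classical
  intro hRSD k hk
  obtain ⟨C, hC, y₀, hrs⟩ := hRSD k
  obtain ⟨t, ht, L₀, hsh⟩ := shift_ex k hk
  obtain ⟨n₀, hpr⟩ := primes_many
  have ht0 : (0 : ℝ) < t := by exact_mod_cast ht
  obtain ⟨c, hcdef⟩ : ∃ c : ℝ, c = min (1 / 2) (1 / (4000000 * C)) := ⟨_, rfl⟩
  have hc0 : 0 < c := by rw [hcdef]; exact lt_min (by norm_num) (by positivity)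
  have hc1 : c ≤ 1 / 2 := by rw [hcdef]; exact min_le_left _ _
  have hc2 : c ≤ 1 / (4000000 * C) := by rw [hcdef]; exact min_le_right _ _
  obtain ⟨K, hKdef⟩ : ∃ K : ℝ, K = 80000 * (4 * t * k + k + 4) := ⟨_, rfl⟩
  have hK1 : 1 ≤ K := by
    rw [hKdef]
    have : (0 : ℝ) ≤ 4 * t * k + k := by positivity
    linarith
  obtain ⟨X0, hev⟩ := ev_all (c / 2) (by positivity) (2 * t) (by omega) K ((y₀ : ℝ) + n₀ + L₀ + k) hK1
  have hlog := Real.tendsto_log_atTop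
  have hAt : Tendsto (fun X : ℝ => Real.log (Real.log X)) atTop atTop := hlog.comp hlog
  have hDt : Tendsto (fun X : ℝ => Real.log (Real.log (Real.log (Real.log X)))) atTop atTop :=
    hlog.comp (hlog.comp hAt)
  obtain ⟨X1, hX1⟩ := eventually_atTop.1 ((hAt.eventually_ge_atTop ((y₀ : ℝ) + n₀ + L₀ + k + 2)).and
    (hDt.eventually_ge_atTop 320))
  refine ⟨c, hc0, max X0 X1, ?_⟩
  intro X hXX d hd hω H hHc hHle hadm
  have hX : X0 ≤ X := (le_max_left _ _).trans hXX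
  obtain ⟨g1, g2⟩ := hX1 X ((le_max_right _ _).trans hXX)
  obtain ⟨T, hT⟩ : ∃ T, T = Real.log X := ⟨_, rfl⟩
  obtain ⟨A, hA⟩ : ∃ A, A = Real.log T := ⟨_, rfl⟩
  obtain ⟨B, hB⟩ : ∃ B, B = Real.log A := ⟨_, rfl⟩
  obtain ⟨D, hD⟩ : ∃ D, D = Real.log B := ⟨_, rfl⟩
  obtain ⟨a1, a2, a3, a4, a5, a6, a7, a8, a9, a10, a11, a12, a13, a14⟩ := hev X hX T A B D hT hA hB hD
  rw [← hT, ← hA] at g1 hω
  rw [← hT, ← hA, ← hB, ← hD] at g2
  rw [← hB] at hω
  have hR : Rk X = T * A * D / B ^ 2 := by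
    unfold Rk
    rw [← hT, ← hA, ← hB, ← hD]
  have hT0 : 0 < T := by linarith
  have hA0 : 0 < A := by linarith
  have hB0 : 0 < B := by linarith
  have hD0 : 0 < D := by linarith
  have hTe : T = Real.exp A := by rw [hA, Real.exp_log hT0]
  -- the function `φ`
  obtain ⟨φ, hφ⟩ : ∃ φ : ℝ, φ = (Nat.totient d : ℝ) / d := ⟨_, rfl⟩
  rw [← hφ] at hHle ⊢
  obtain ⟨E1, hE1⟩ : ∃ E1 : ℝ, E1 = Real.exp (A / 8) := ⟨_, rfl⟩
  have hAE : A ≤ 8 * E1 := by
    have := Real.add_one_le_exp (A / 8)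
    rw [← hE1] at this
    linarith
  have hE1b : 20000 ≤ E1 := by linarith
  have hE10 : 0 < E1 := by linarith
  have hTE : T = E1 ^ 8 := by
    rw [hE1, ← Real.exp_nat_mul, hTe]
    congr 1
    push_cast
    ring
  have hω1 : (d.primeFactors.card : ℝ) ≤ E1 := by
    refine hω.trans ?_
    rw [hE1]
    apply Real.exp_le_exp.2
    have hB16 : 16 ≤ B := by linarith
    rw [mul_div_assoc', div_le_div_iff₀ hB0 (by norm_num)]
    exact q1 hA0 hB16
  have hφ1 : φ ≤ 1 := by rw [hφ]; exact phi_le d hd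
  have hω0 : (0 : ℝ) ≤ (d.primeFactors.card : ℝ) := Nat.cast_nonneg _
  have hφl := phi_low d hd
  rw [← hφ] at hφl
  obtain ⟨hφp, hφ0⟩ := wfac _ φ E1 hφl hω0 hω1 hE1b
  have hE5 : 64 * E1 ^ 2 < E1 ^ 6 := q3 hE1b
  have hsumE : ((y₀ : ℝ) + n₀ + L₀ + k) + 2 ≤ E1 ^ 6 := by
    have h1 : 8 * E1 ≤ E1 ^ 2 := q4 hE1b
    have h2 : 0 < E1 ^ 2 := by positivity
    linarith only [g1, hAE, h1, h2, hE5]
  -- y and y'
  obtain ⟨y, hy⟩ : ∃ y, y = yy X := ⟨_, rfl⟩
  have hyT : (y : ℝ) ≤ T / 1000 := by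
    rw [hy]
    unfold yy
    rw [← hT]
    exact Nat.floor_le (by positivity)
  have hyT2 : T / 2000 ≤ y := by
    have h1 : T / 1000 < (y : ℝ) + 1 := by
      rw [hy]
      unfold yy
      rw [← hT]
      exact Nat.lt_floor_add_one _
    linarith
  obtain ⟨y1, hy1⟩ : ∃ y1, y1 = y / 8 := ⟨_, rfl⟩
  have hy1T : (y1 : ℝ) ≤ T / 8000 := by
    have : (y1 : ℝ) ≤ y / 8 := by
      rw [hy1]
      have := Nat.cast_div_le (α := ℝ) (m := y) (n := 8)
      exact_mod_cast this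
    linarith
  have hy1T2 : T / 20000 ≤ y1 := by
    have h1 : y < 8 * y1 + 8 := by omega
    have h2 : (y : ℝ) < 8 * y1 + 8 := by exact_mod_cast h1
    linarith
  -- L
  obtain ⟨L, hL⟩ : ∃ L : ℕ, L = ⌊c * (φ * Rk X)⌋₊ := ⟨_, rfl⟩
  have hRk0 : 0 < Rk X := by rw [hR]; positivity
  have hcR0 : 0 ≤ c * (φ * Rk X) := by positivity
  have hLle : (L : ℝ) ≤ c * (φ * Rk X) := by rw [hL]; exact Nat.floor_le hcR0
  have hT1 : 2 * T ≤ c * Rk X := by
    rw [hR]
    exact q13 hc0 hT0 hA0 hB0 a4 a8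
  have hTL : E1 ^ 6 ≤ L := by
    have h1 : c * (φ * Rk X) < (L : ℝ) + 1 := by rw [hL]; exact Nat.lt_floor_add_one _
    have h2 : φ * (2 * T) ≤ c * (φ * Rk X) := by
      calc φ * (2 * T) ≤ φ * (c * Rk X) := mul_le_mul_of_nonneg_left hT1 hφp.le
        _ = _ := by ring
    have h3 : 2 * E1 ^ 6 ≤ φ * (2 * T) := by
      rw [hTE]
      calc 2 * E1 ^ 6 = 2 * E1 ^ 6 * 1 := by ring
        _ ≤ 2 * E1 ^ 6 * (φ * E1 ^ 2) := mul_le_mul_of_nonneg_left hφ0 (by positivity)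
        _ = _ := by ring
    have h4 : 1 ≤ E1 ^ 6 := one_le_pow₀ (by linarith)
    linarith
  have hL0 : (0 : ℝ) < L := lt_of_lt_of_le (by positivity) hTL
  obtain ⟨y', hy'⟩ : ∃ y', y' = min y1 (2 * L) := ⟨_, rfl⟩
  have hy'1 : y' ≤ y1 := by rw [hy']; exact min_le_left _ _
  have hy'2 : y' ≤ 2 * L := by rw [hy']; exact min_le_right _ _
  have hy'y : y' ≤ y := hy'1.trans (by rw [hy1]; exact Nat.div_le_self _ _)
  have hy'T : (y' : ℝ) ≤ T / 8000 := le_trans (by exact_mod_cast hy'1) hy1T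
  have hy'E : E1 ^ 6 ≤ (y' : ℝ) := by
    rcases min_choice y1 (2 * L) with h | h
    · rw [hy', h]
      refine le_trans ?_ hy1T2
      rw [hTE, le_div_iff₀ (by norm_num)]
      have h1 : (20000 : ℝ) ≤ E1 ^ 2 := q6 hE1b
      calc E1 ^ 6 * 20000 ≤ E1 ^ 6 * E1 ^ 2 := mul_le_mul_of_nonneg_left h1 (by positivity)
        _ = _ := by ring
    · rw [hy', h]
      push_cast
      linarith
  have hy'0 : (0 : ℝ) < y' := lt_of_lt_of_le (by positivity) hy'E
  have hyy0 : y₀ ≤ y' := by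
    have h1 : (y₀ : ℝ) ≤ y' := by linarith [Nat.cast_nonneg (α := ℝ) n₀, Nat.cast_nonneg (α := ℝ) L₀, Nat.cast_nonneg (α := ℝ) k]
    exact_mod_cast h1
  have hyn0 : n₀ ≤ y := by
    have h1 : (n₀ : ℝ) ≤ y' := by linarith [Nat.cast_nonneg (α := ℝ) y₀, Nat.cast_nonneg (α := ℝ) L₀, Nat.cast_nonneg (α := ℝ) k]
    have h2 : n₀ ≤ y' := by exact_mod_cast h1
    omega
  have hky' : k ≤ y' := by
    have h1 : (k : ℝ) ≤ y' := by linarith [Nat.cast_nonneg (α := ℝ) y₀, Nat.cast_nonneg (α := ℝ) L₀, Nat.cast_nonneg (α := ℝ) n₀]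
    exact_mod_cast h1
  have hly1 : Real.log y' ≤ A := by
    rw [hA]; apply Real.log_le_log hy'0; linarith
  have hlyy : Real.log y ≤ A := by
    rw [hA]; apply Real.log_le_log (by linarith [show 0 < T / 2000 by positivity]); linarith
  have hly2 : A / 2 ≤ Real.log y' := by
    have h1 : Real.log (E1 ^ 6) ≤ Real.log y' := Real.log_le_log (by positivity) hy'E
    rw [Real.log_pow, hE1, Real.log_exp] at h1
    push_cast at h1
    linarith
  have hly0 : 0 < Real.log y' := by linarith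
  have hly0' : 0 < Real.log y := by
    have h1 : Real.log y' ≤ Real.log y := Real.log_le_log hy'0 (by exact_mod_cast hy'y)
    linarith
  have hl2y1 : Real.log (Real.log y') ≤ B := by rw [hB]; exact Real.log_le_log hly0 hly1
  have hl2y2 : B / 2 ≤ Real.log (Real.log y') := by
    have h1 : Real.log (A / 2) ≤ Real.log (Real.log y') := Real.log_le_log (by positivity) hly2
    rw [Real.log_div hA0.ne' (by norm_num), ← hB] at h1
    linarith
  have hl2y0 : 0 < Real.log (Real.log y') := by linarith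
  have hl3y2 : D / 2 ≤ Real.log (Real.log (Real.log y')) := by
    have h1 : Real.log (B / 2) ≤ Real.log (Real.log (Real.log y')) := Real.log_le_log (by positivity) hl2y2
    rw [Real.log_div hB0.ne' (by norm_num), ← hD] at h1
    linarith
  have hyH : y' ≤ 2 * L := hy'2
  have hHy : ((2 * L : ℕ) : ℝ) ≤ y' * (Real.log y') ^ 2 := by
    rcases min_choice y1 (2 * L) with h | h
    · push_cast
      have hy'T2 : T / 20000 ≤ (y' : ℝ) := by rw [hy', h]; exact hy1T2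
      have h1 : T / 20000 * (A / 2) ^ 2 ≤ y' * (Real.log y') ^ 2 := by gcongr
      refine le_trans ?_ h1
      have h2 : c * Rk X ≤ 1 / 2 * (T * A) := by
        rw [hR]
        exact q14 hc0 hc1 hT0 hA0 a2 hD0 a6
      have h2' : c * (φ * Rk X) ≤ c * Rk X := by
        refine mul_le_mul_of_nonneg_left ?_ hc0.le
        exact mul_le_of_le_one_left hRk0.le hφ1
      have h5 : 0 < T * A := by positivity
      have h6 := q8 a1 h5
      linarith only [hLle, h2', h2, h6, h5]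
    · have h1 : ((2 * L : ℕ) : ℝ) = (y' : ℝ) := by rw [hy', h]
      rw [h1]
      have h2 : 1 ≤ (Real.log y') ^ 2 := one_le_pow₀ (by linarith only [hly2, a1])
      exact le_mul_of_one_le_right hy'0.le h2
  have hHt : 2 * L < y' ^ 2 := by
    have h1 : ((2 * L : ℕ) : ℝ) < ((y' ^ 2 : ℕ) : ℝ) := by
      refine lt_of_le_of_lt hHy ?_
      push_cast
      have h2 : (Real.log y') ^ 2 ≤ A ^ 2 := by gcongr
      have h3 : (Real.log y') ^ 2 < y' := by
        have h4 : A ^ 2 ≤ (8 * E1) ^ 2 := pow_le_pow_left₀ hA0.le hAE 2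
        have h5 : (8 * E1) ^ 2 = 64 * E1 ^ 2 := by ring
        linarith only [h2, h4, h5, hE5, hy'E]
      rw [pow_two (y' : ℝ)]
      exact mul_lt_mul_of_pos_left h3 hy'0
    exact_mod_cast h1
  have hLL0 : L₀ ≤ L := by
    have h1 : (L₀ : ℝ) ≤ L := by
      linarith [Nat.cast_nonneg (α := ℝ) y₀, Nat.cast_nonneg (α := ℝ) k, Nat.cast_nonneg (α := ℝ) n₀]
    exact_mod_cast h1
  have hL2 : 2 ≤ L := by
    have h1 : (2 : ℝ) ≤ L := by
      linarith [Nat.cast_nonneg (α := ℝ) y₀, Nat.cast_nonneg (α := ℝ) k, Nat.cast_nonneg (α := ℝ) n₀, Nat.cast_nonneg (α := ℝ) L₀]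
    exact_mod_cast h1
  have hHL : ∀ h ∈ H, h ≤ L := fun h hh => by rw [hL]; exact Nat.le_floor (hHle h hh)
  -- the shift
  obtain ⟨t₀, ht1, ht2, ht3⟩ := hsh d L hLL0 H hHc hadm
  have hz : T ^ (1 / ((2 * t : ℕ) : ℝ)) ≤ (L : ℝ) ^ (1 / (t : ℝ)) := by
    have h1 : T ^ (1 / ((2 * t : ℕ) : ℝ)) = (E1 ^ 4) ^ (1 / (t : ℝ)) := by
      rw [hTE, ← Real.rpow_natCast, ← Real.rpow_natCast, ← Real.rpow_mul hE10.le, ← Real.rpow_mul hE10.le]
      congr 1
      push_cast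
      field_simp
      norm_num
    rw [h1]
    refine Real.rpow_le_rpow (by positivity) ?_ (by positivity)
    refine le_trans ?_ hTL
    exact pow_le_pow_right₀ (by linarith) (by norm_num)
  have hzK : K * A ^ 2 ≤ (L : ℝ) ^ (1 / (t : ℝ)) := a12.trans hz
  have hA2 : (1 : ℝ) ≤ A ^ 2 := one_le_pow₀ (by linarith only [a1])
  have hrough : ∀ h ∈ H, ∀ q : ℕ, q.Prime → ¬ q ∣ d → q ∣ t₀ + h → (L : ℝ) ^ (1 / (t : ℝ)) < q := by
    intro h hh q hq hqA hd
    by_contra hcon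
    exact ht3 h hh q hq hqA (not_lt.1 hcon) hd
  have hlarge : ∀ h ∈ H, ∀ q : ℕ, q.Prime → ¬ q ∣ d → q ∣ t₀ + h → K < q := by
    intro h hh q hq hqA hd
    have h1 := hrough h hh q hq hqA hd
    have h2 : K ≤ K * A ^ 2 := le_mul_of_one_le_right (by linarith only [hK1]) hA2
    exact lt_of_le_of_lt (h2.trans hzK) h1
  -- S'
  obtain ⟨S', hS'⟩ : ∃ S' : Finset ℕ, S' = H.biUnion (fun h => (t₀ + h).primeFactors.filter (fun p => ¬ p ∣ d)) := ⟨_, rfl⟩
  have hS'm : ∀ q, q ∈ S' ↔ ∃ h ∈ H, q.Prime ∧ ¬ q ∣ d ∧ q ∣ t₀ + h := by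
    intro q
    rw [hS', mem_biUnion]
    constructor
    · rintro ⟨h, hh, h1⟩
      rw [mem_filter] at h1
      exact ⟨h, hh, Nat.prime_of_mem_primeFactors h1.1, h1.2, Nat.dvd_of_mem_primeFactors h1.1⟩
    · rintro ⟨h, hh, h1, h3, h2⟩
      exact ⟨h, hh, mem_filter.2 ⟨Nat.mem_primeFactors.2 ⟨h1, h2, by omega⟩, h3⟩⟩
  have hS'card : (S'.card : ℝ) ≤ 2 * t * k := by
    have h1 : S'.card ≤ ∑ h ∈ H, ((t₀ + h).primeFactors.filter (fun p => ¬ p ∣ d)).card := by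
      rw [hS']
      exact card_biUnion_le
    have h2 : ∀ h ∈ H, ((t₀ + h).primeFactors.filter (fun p => ¬ p ∣ d)).card ≤ 2 * t := by
      intro h hh
      obtain ⟨Q, hQ⟩ : ∃ Q : Finset ℕ, Q = (t₀ + h).primeFactors.filter (fun p => ¬ p ∣ d) := ⟨_, rfl⟩
      have hQm : ∀ p ∈ Q, p.Prime ∧ p ∣ t₀ + h ∧ ¬ p ∣ d := by
        intro p hp
        rw [hQ, mem_filter] at hp
        exact ⟨Nat.prime_of_mem_primeFactors hp.1, Nat.dvd_of_mem_primeFactors hp.1, hp.2⟩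
      have hQf : (∏ p ∈ Q, p).primeFactors = Q := Nat.primeFactors_prod (fun p hp => (hQm p hp).1)
      have hQd : (∏ p ∈ Q, p) ∣ t₀ + h :=
        Finset.prod_primes_dvd (t₀ + h) (fun p hp => (hQm p hp).1.prime) (fun p hp => (hQm p hp).2.1)
      have hQ1 : 1 ≤ ∏ p ∈ Q, p := Nat.succ_le_of_lt (prod_pos fun p hp => (hQm p hp).1.pos)
      rw [← hQ, ← hQf]
      have h3 : (∏ p ∈ Q, p).primeFactors.card ≤ (∏ p ∈ Q, p).primeFactorsList.length := by
        unfold Nat.primeFactors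
        exact List.toFinset_card_le _
      refine h3.trans ?_
      apply Pool.Agent.Q117.CB.omega_le (H := L) (t := (t : ℝ)) (M := 2) hL2 ht0 hQ1
      · have h4 := hHL h hh
        have h5 : t₀ + h ≤ L ^ 2 := q10 ht2 h4 hL2
        have h7 : (∏ p ∈ Q, p) ≤ L ^ 2 := (Nat.le_of_dvd (by omega) hQd).trans h5
        have h6 : (L : ℝ) ^ (2 : ℝ) = ((L ^ 2 : ℕ) : ℝ) := by
          rw [show (2 : ℝ) = ((2 : ℕ) : ℝ) by norm_num, Real.rpow_natCast]
          push_cast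
          ring
        rw [h6]
        exact_mod_cast h7
      · intro q hq hd
        have hqQ : q ∈ Q := by
          rw [← hQf]
          exact Nat.mem_primeFactors.2 ⟨hq, hd, by omega⟩
        obtain ⟨h8, h9, h10⟩ := hQm q hqQ
        exact (hrough h hh q h8 h10 h9).le
      · push_cast
        linarith
    have h3 : S'.card ≤ k * (2 * t) := by
      refine h1.trans ?_
      rw [← hHc, ← smul_eq_mul]
      exact sum_le_card_nsmul _ _ _ h2
    have h4 : (S'.card : ℝ) ≤ ((k * (2 * t) : ℕ) : ℝ) := by exact_mod_cast h3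
    push_cast at h4
    linarith
  have hS'sum : ∑ q ∈ S', (1 : ℝ) / q ≤ 6 / A ^ 2 := by
    have h1 : ∀ q ∈ S', (1 : ℝ) / q ≤ 1 / (K * A ^ 2) := by
      intro q hq
      obtain ⟨h, hh, h2, h2', h3⟩ := (hS'm q).1 hq
      apply one_div_le_one_div_of_le (by positivity)
      exact hzK.trans (hrough h hh q h2 h2' h3).le
    have h2 := sum_le_card_nsmul _ _ _ h1
    rw [nsmul_eq_mul] at h2
    refine h2.trans ?_
    calc (S'.card : ℝ) * (1 / (K * A ^ 2)) ≤ (2 * t * k) * (1 / (K * A ^ 2)) := by gcongr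
      _ = (2 * t * k / K) / A ^ 2 := by field_simp
      _ ≤ 6 / A ^ 2 := by
        gcongr
        rw [div_le_iff₀ (by positivity)]
        exact q16 (by positivity) (Nat.cast_nonneg k) hKdef
  have hSS : ∀ q ∈ S', q.Prime ∧ 2 < q := by
    intro q hq
    obtain ⟨h, hh, h2, h2', h3⟩ := (hS'm q).1 hq
    refine ⟨h2, ?_⟩
    have h4 := hlarge h hh q h2 h2' h3
    have h5 : (2 : ℝ) < q := by
      have h6 : (2 : ℝ) ≤ K := (q17 (by positivity) (Nat.cast_nonneg k) hKdef).2.1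
      linarith only [h4, h6]
    exact_mod_cast h5
  have hSSsum : ∑ q ∈ S', (1 : ℝ) / q ≤ 12 / (Real.log y') ^ 2 := by
    have h3 : (6 : ℝ) / A ^ 2 ≤ 12 / (Real.log y') ^ 2 := by
      apply div_le_div₀ (by norm_num) (by norm_num) (by positivity)
      gcongr
    linarith
  have hωc : (d.primeFactors.card : ℝ) ≤
      Real.exp (Real.log y' * Real.log (Real.log (Real.log y')) / (40 * Real.log (Real.log y'))) := by
    refine hω.trans (Real.exp_le_exp.2 ?_)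
    rw [mul_div_assoc', div_le_div_iff₀ hB0 (by positivity)]
    have h1 : A / 2 * (D / 2) ≤ Real.log y' * Real.log (Real.log (Real.log y')) :=
      mul_le_mul hly2 hl3y2 (by positivity) hly0.le
    have h2 : A / 2 * (D / 2) * B ≤ Real.log y' * Real.log (Real.log (Real.log y')) * B :=
      mul_le_mul_of_nonneg_right h1 hB0.le
    have h3 : 2 * A * (40 * Real.log (Real.log y')) ≤ 2 * A * (40 * B) := by gcongr
    have h4 : 2 * A * (40 * B) ≤ A / 2 * (D / 2) * B := by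
      exact q11 (by positivity) g2
    linarith only [h2, h3, h4]
  -- the positions
  obtain ⟨e, he⟩ : ∃ e : Fin k → ℕ, e = fun j => H.orderEmbOfFin hHc j := ⟨_, rfl⟩
  have heH : ∀ j, e j ∈ H := fun j => by rw [he]; exact Finset.orderEmbOfFin_mem H hHc j
  have heS : ∀ h ∈ H, ∃ j, e j = h := by
    intro h hh
    have h1 := Finset.range_orderEmbOfFin H hHc
    have h2 : h ∈ Set.range (H.orderEmbOfFin hHc) := by
      rw [h1]
      exact_mod_cast hh
    obtain ⟨j, hj⟩ := h2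
    exact ⟨j, by rw [he]; exact hj⟩
  obtain ⟨b, hb1, hb2⟩ := hrs y' hyy0 S' d.primeFactors hSS hSSsum
    (fun q hq => Nat.prime_of_mem_primeFactors hq) hωc (2 * L) hyH hHy (fun j => t₀ + e j) (by
    intro j
    refine ⟨?_, ?_⟩
    · intro p hp _ hpS hpA hdv
      apply hpS
      exact (hS'm p).2 ⟨e j, heH j, hp, fun h => hpA (Nat.mem_primeFactors.2 ⟨hp, h, by omega⟩), hdv⟩
    · have := hHL (e j) (heH j)
      omega)
  -- the sets
  obtain ⟨Ts, hTs⟩ : ∃ Ts : Finset ℕ, Ts = H.image (fun h => t₀ + h) := ⟨_, rfl⟩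
  have hTsm : ∀ s, s ∈ Ts ↔ ∃ h ∈ H, t₀ + h = s := by
    intro s
    rw [hTs, mem_image]
  have hTsc : Ts.card = k := by
    rw [hTs, card_image_of_injective _ (fun a b h => Nat.add_left_cancel h), hHc]
  obtain ⟨U, hUdef⟩ : ∃ U : Finset ℕ, U = (range (2 * L + 1)).filter (fun s => (∀ j, s ≠ t₀ + e j) ∧
    ∀ p : ℕ, p.Prime → p ≤ y' → p ∉ S' → p ∉ d.primeFactors → ¬ s ≡ b p [MOD p]) := ⟨_, rfl⟩
  have hUc : (U.card : ℝ) ≤ C * (∏ p ∈ d.primeFactors, (1 - 1 / (p : ℝ))⁻¹) * ((2 * L : ℕ) : ℝ) * (Real.log (Real.log y')) ^ 2 /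
      ((Real.log y') ^ 2 * Real.log (Real.log (Real.log y'))) := by
    apply hb2
    intro s hs
    rw [hUdef, mem_filter, mem_range] at hs
    exact ⟨by omega, hs.2.1, hs.2.2⟩
  have hUc2 : (U.card : ℝ) ≤ T / (80000 * A) := by
    refine hUc.trans ?_
    rw [phi_inv d hd, ← hφ]
    push_cast
    exact q15 hC hc0 hc2 hφp (Nat.cast_nonneg L) hLle hR hT0 hA0 hB0 hD0 hly2 hl2y1 hl2y0 hl3y2
  -- available primes
  obtain ⟨P0, hP0⟩ : ∃ P0 : Finset ℕ, P0 = (Ioc (y / 8) y).filter Nat.Prime := ⟨_, rfl⟩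
  obtain ⟨P, hP⟩ : ∃ P : Finset ℕ, P = (Ioc y' y).filter (fun p => p.Prime ∧ p ∉ d.primeFactors ∧ p ∉ S' ∧ p ≠ 1) := ⟨_, rfl⟩
  have hP0c : T / (8000 * A) ≤ (P0.card : ℝ) := by
    have h1 := hpr y hyn0
    rw [← hP0] at h1
    refine le_trans ?_ h1
    rw [div_le_div_iff₀ (by positivity) (by positivity)]
    have h3 : T * Real.log y ≤ T * A := by gcongr
    have h4 : T * A ≤ 2000 * y * A := by
      have : T ≤ 2000 * y := by linarith only [hyT2]
      gcongr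
    linarith only [h3, h4]
  have hPc : (P0.card : ℝ) - T / (80000 * A) - 2 * t * k - 1 ≤ P.card := by
    have h1 : P0 ⊆ P ∪ (d.primeFactors ∪ (S' ∪ {1})) := by
      intro p hp
      rw [hP0, mem_filter, mem_Ioc] at hp
      rw [mem_union, hP, mem_filter, mem_Ioc]
      by_cases h1 : p ∈ d.primeFactors
      · exact Or.inr (mem_union.2 (Or.inl h1))
      by_cases h2 : p ∈ S'
      · exact Or.inr (mem_union.2 (Or.inr (mem_union.2 (Or.inl h2))))
      have h3 : p ≠ 1 := hp.2.ne_one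
      have h4 : y' < p := by
        have := hp.1.1
        rw [← hy1] at this
        omega
      exact Or.inl ⟨⟨h4, hp.1.2⟩, hp.2, h1, h2, h3⟩
    have h2 : P0.card ≤ P.card + (d.primeFactors.card + (S'.card + 1)) := by
      refine (card_le_card h1).trans ((card_union_le _ _).trans ?_)
      apply Nat.add_le_add_left
      refine (card_union_le _ _).trans ?_
      apply Nat.add_le_add_left
      refine (card_union_le _ _).trans ?_
      rw [card_singleton]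
    have h3 : (P0.card : ℝ) ≤ P.card + (d.primeFactors.card + (S'.card + 1)) := by exact_mod_cast h2
    have h4 : (d.primeFactors.card : ℝ) ≤ T / (80000 * A) := by
      refine hω1.trans ?_
      rw [le_div_iff₀ (by positivity), hTE]
      exact q12 hE1b hAE
    linarith only [h3, h4, hS'card]
  have hfinal : U.card + k ≤ P.card := by
    have h1 : (U.card : ℝ) + k ≤ P.card := by
      have h2 : K ≤ T / A := by
        rw [le_div_iff₀ hA0]
        exact a11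
      have h3 : T / (80000 * A) = 1 / 80000 * (T / A) := by field_simp
      have h4 : T / (8000 * A) = 10 / 80000 * (T / A) := by field_simp; norm_num
      rw [h3] at hUc2 hPc
      rw [h4] at hP0c
      exact q18 (by positivity) (Nat.cast_nonneg k) hKdef h2 hUc2 hPc hP0c
    exact_mod_cast h1
  rw [hP] at hfinal
  -- the combinatorial part
  obtain ⟨a0, ha0⟩ := classes k y' y hy'y d.primeFactors S' 1 (2 * L) Ts hTsc (by
      intro s hs
      obtain ⟨h, hh, rfl⟩ := (hTsm s).1 hs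
      have := hHL h hh
      omega) hHt b (by
      intro p hp hpy hpS _
      rw [mem_union, not_or] at hpS
      obtain ⟨h1, h2⟩ := hb1 p hp hpy hpS.2 hpS.1
      refine ⟨h1, ?_⟩
      intro s hs
      obtain ⟨h, hh, rfl⟩ := (hTsm s).1 hs
      obtain ⟨j, rfl⟩ := heS h hh
      exact h2 j) (by
      intro q hq
      obtain ⟨h, hh, h2, h2', h3⟩ := (hS'm q).1 hq
      have h4 := hlarge h hh q h2 h2' h3
      have h5 : (k : ℝ) < q := by
        have h6 : (k : ℝ) ≤ K := by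
          exact (q17 (by positivity) (Nat.cast_nonneg k) hKdef).1
        linarith only [h4, h6]
      exact_mod_cast h5) hky' U (by
      intro s hs hsT hcl
      rw [hUdef, mem_filter, mem_range]
      refine ⟨by omega, ?_, ?_⟩
      · intro j hj
        exact hsT ((hTsm s).2 ⟨e j, heH j, hj.symm⟩)
      · intro p hp hpy hpS hpA
        apply hcl p hp hpy _ hp.ne_one
        rw [mem_union, not_or]
        exact ⟨hpA, hpS⟩) (by
      intro u hu
      rw [hUdef, mem_filter, mem_range] at hu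
      refine ⟨?_, by omega⟩
      intro huT
      obtain ⟨h, hh, h1⟩ := (hTsm u).1 huT
      obtain ⟨j, rfl⟩ := heS h hh
      exact hu.2.1 j h1.symm) hfinal
  refine ⟨a0 + t₀, ?_⟩
  intro s hs
  have hsL : s ≤ L := by rw [hL]; exact Nat.le_floor hs
  have h1 := ha0 (t₀ + s) (by omega)
  have h2 : t₀ + s ∈ Ts ↔ s ∈ H := by
    rw [hTsm]
    constructor
    · rintro ⟨h, hh, he⟩
      have : h = s := by omega
      rwa [← this]
    · intro h
      exact ⟨s, h, rfl⟩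
  rw [h2] at h1
  rw [← h1, add_assoc]
  have hWW : ∀ p : ℕ, p.Prime → (p ∣ WW X ∅ 1 ↔ p ≤ y) := by
    intro p hp
    unfold WW
    rw [hp.prime.dvd_finsetProd_iff]
    constructor
    · rintro ⟨q, hq, hd⟩
      unfold PW at hq
      rw [mem_filter, mem_Icc, ← hy] at hq
      have h3 := (Nat.prime_dvd_prime_iff_eq hp hq.2.1).1 hd
      subst h3
      exact hq.1.2
    · intro h3
      refine ⟨p, ?_, dvd_refl p⟩
      unfold PW
      rw [mem_filter, mem_Icc, ← hy]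
      exact ⟨⟨hp.pos, h3⟩, hp, notMem_empty p, hp.ne_one⟩
  constructor
  · intro h p hp hpy hpS _
    apply h p hp
    · intro hdv
      exact hpS (Nat.mem_primeFactors.2 ⟨hp, hdv, by omega⟩)
    · exact (hWW p hp).2 hpy
  · intro h p hp hpA hpW
    apply h p hp ((hWW p hp).1 hpW) _ hp.ne_one
    exact fun h6 => hpA (Nat.dvd_of_mem_primeFactors h6)

end Pool.Agent.Q117.AP
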