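import Pool.Agent.Q117.AP.Stm

/-!
Project AP (helper117), job LGC: the sieve product of a union of two sets of shifts.
-/

set_option autoImplicit false

namespace Pool.Agent.Q117.AP

open Finset Filter
open Pool.Agent.Q117.LF (GN oF)

namespace LGCa

theorem oF_le (E : Finset ℤ) {p : ℕ} (hp : 0 < p) : oF E p ≤ p := by
  unfold oF
  have h1 : E.image (fun e : ℤ => e % (p : ℤ)) ⊆ Finset.Ico (0 : ℤ) p := by
    intro x hx
    rw [mem_image] at hx
    obtain ⟨e, -, rfl⟩ := hx
    rw [mem_Ico]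
    exact ⟨Int.emod_nonneg _ (by exact_mod_cast hp.ne'), Int.emod_lt_of_pos _ (by exact_mod_cast hp)⟩
  have h2 := card_le_card h1
  rw [Int.card_Ico] at h2
  omega

theorem oF_le_card (E : Finset ℤ) (p : ℕ) : oF E p ≤ E.card := card_image_le

theorem oF_lt {F : Finset ℤ} {p : ℕ} (hp : 0 < p) (h : ∃ r : ℤ, ∀ e ∈ F, ¬ (p : ℤ) ∣ r + e) :
    oF F p + 1 ≤ p := by
  obtain ⟨r, hr⟩ := h
  unfold oF
  have hp' : (0 : ℤ) < p := by exact_mod_cast hp
  have h1 : insert ((-r) % (p : ℤ)) (F.image (fun e : ℤ => e % (p : ℤ))) ⊆ Finset.Ico (0 : ℤ) p := by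
    intro x hx
    rw [mem_insert, mem_image] at hx
    rw [mem_Ico]
    rcases hx with rfl | ⟨e, -, rfl⟩
    · exact ⟨Int.emod_nonneg _ hp'.ne', Int.emod_lt_of_pos _ hp'⟩
    · exact ⟨Int.emod_nonneg _ hp'.ne', Int.emod_lt_of_pos _ hp'⟩
  have h2 : (-r) % (p : ℤ) ∉ F.image (fun e : ℤ => e % (p : ℤ)) := by
    rw [mem_image]
    rintro ⟨e, he, h3⟩
    refine hr e he ?_
    have h4 := Int.emod_emod_of_dvd e (dvd_refl (p : ℤ))
    have h5 : (p : ℤ) ∣ e - (-r) := Int.dvd_of_emod_eq_zero (by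
      rw [Int.sub_emod, h3, sub_self, Int.zero_emod])
    have h6 : e - (-r) = r + e := by ring
    rwa [h6] at h5
  have h3 := card_le_card h1
  rw [Int.card_Ico, card_insert_of_notMem h2] at h3
  omega

theorem oF_mono {E D : Finset ℤ} (h : E ⊆ D) (p : ℕ) : oF E p ≤ oF D p :=
  card_le_card (image_subset_image h)

theorem oF_shift (F : Finset ℤ) (s : ℤ) (p : ℕ) : oF F p ≤ oF (F.image (fun f => s + f)) p := by
  unfold oF
  have h1 : F.image (fun e : ℤ => e % (p : ℤ)) ⊆
      ((F.image (fun f => s + f)).image (fun e : ℤ => e % (p : ℤ))).image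
        (fun r => (r - s) % (p : ℤ)) := by
    intro x hx
    rw [mem_image] at hx
    obtain ⟨e, he, rfl⟩ := hx
    rw [mem_image]
    refine ⟨(s + e) % (p : ℤ), mem_image_of_mem _ (mem_image_of_mem _ he), ?_⟩
    rw [Int.emod_sub_emod]
    congr 1
    ring
  exact (card_le_card h1).trans card_image_le

theorem oF_union {E G : Finset ℤ} {p : ℕ} (h : ∀ e ∈ E, ∀ g ∈ G, ¬ (p : ℤ) ∣ g - e) :
    oF E p + oF G p = oF (E ∪ G) p := by
  unfold oF
  rw [image_union, card_union_of_disjoint]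
  rw [disjoint_left]
  intro x h1 h2
  rw [mem_image] at h1 h2
  obtain ⟨e, he, rfl⟩ := h1
  obtain ⟨g, hg, h3⟩ := h2
  refine h e he g hg (Int.dvd_of_emod_eq_zero ?_)
  rw [Int.sub_emod, h3, sub_self, Int.zero_emod]

/-- the elementary inequality -/
theorem elem {k b p : ℕ} (hk : 1 ≤ k) (hb : b ≤ k) (hbp : b + 1 ≤ p) :
    (1 : ℝ) ≤ (1 - (b : ℝ) / p) * (1 + 2 / (p : ℝ)) ^ (2 * k ^ 2 + k) := by
  have hp0 : (0 : ℝ) < p := by exact_mod_cast (show 0 < p by omega)
  have hN : 1 + ((2 * k ^ 2 + k : ℕ) : ℝ) * (2 / (p : ℝ)) ≤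
      (1 + 2 / (p : ℝ)) ^ (2 * k ^ 2 + k) :=
    one_add_mul_le_pow (by have : (0 : ℝ) ≤ 2 / (p : ℝ) := by positivity
                           linarith) _
  have hk' : (1 : ℝ) ≤ k := by exact_mod_cast hk
  have hb' : (b : ℝ) ≤ k := by exact_mod_cast hb
  have hbp' : (b : ℝ) + 1 ≤ p := by exact_mod_cast hbp
  push_cast at hN
  rcases Nat.lt_or_ge p (2 * k) with h | h
  · have h' : (p : ℝ) ≤ 2 * k := by exact_mod_cast h.le
    have h1 : 1 / (p : ℝ) ≤ 1 - (b : ℝ) / p := by
      rw [div_le_iff₀ hp0, sub_mul, div_mul_cancel₀ _ hp0.ne']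
      linarith
    have h2 : (p : ℝ) ≤ 1 + (2 * (k : ℝ) ^ 2 + k) * (2 / (p : ℝ)) := by
      have h3 : (p : ℝ) * p ≤ p + (2 * (k : ℝ) ^ 2 + k) * 2 := by nlinarith
      have h4 : 1 + (2 * (k : ℝ) ^ 2 + k) * (2 / (p : ℝ)) =
          (p + (2 * (k : ℝ) ^ 2 + k) * 2) / p := by field_simp
      rw [h4, le_div_iff₀ hp0]
      exact h3
    calc (1 : ℝ) = 1 / (p : ℝ) * p := by field_simp
      _ ≤ _ := mul_le_mul h1 (h2.trans hN) hp0.le (le_trans (by positivity) h1)
  · have h' : 2 * (k : ℝ) ≤ p := by exact_mod_cast h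
    have h1 : 1 - (k : ℝ) / p ≤ 1 - (b : ℝ) / p := by
      have := div_le_div_of_nonneg_right hb' hp0.le
      linarith
    have h0 : 0 ≤ 1 - (k : ℝ) / p := by
      rw [sub_nonneg, div_le_one hp0]
      linarith
    have h2 : 1 + 2 * ((k : ℝ) / p) ≤ (1 + 2 / (p : ℝ)) ^ (2 * k ^ 2 + k) := by
      refine le_trans ?_ hN
      have h3 : 2 * ((k : ℝ) / p) = k * (2 / (p : ℝ)) := by ring
      rw [h3]
      have h4 : (0 : ℝ) ≤ 2 / (p : ℝ) := by positivity
      have h5 : (0 : ℝ) ≤ 2 * (k : ℝ) ^ 2 := by positivity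
      nlinarith
    have h3 : (1 : ℝ) ≤ (1 - (k : ℝ) / p) * (1 + 2 * ((k : ℝ) / p)) := by
      have h4 : (k : ℝ) / p ≤ 1 / 2 := by
        rw [div_le_div_iff₀ hp0 two_pos]
        linarith
      have h5 : 0 ≤ (k : ℝ) / p := by positivity
      nlinarith
    calc (1 : ℝ) ≤ _ := h3
      _ ≤ _ := mul_le_mul h1 h2 (by positivity) (h0.trans h1)

/-- all the products as products over the primes -/
theorem prod_ite_filter (y : ℕ) (c : ℕ → Prop) [DecidablePred c] (g : ℕ → ℝ) :
    ∏ p ∈ (Icc 1 y).filter (fun p : ℕ => p.Prime ∧ c p), g p =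
      ∏ p ∈ (Icc 1 y).filter Nat.Prime, if c p then g p else 1 := by
  rw [← filter_filter, prod_filter]

end LGCa

open LGCa in
theorem lgc : St_LGC := by
  classical
  intro k y u q huq E F hE hF hadm s hs
  set N : ℕ := 2 * k ^ 2 + k with hN
  set D : Finset ℤ := E ∪ F.image (fun f => s + f) with hD
  set P : Finset ℕ := (Icc 1 y).filter Nat.Prime with hP
  have eG : ∀ A : Finset ℤ, VG y u q A = ∏ p ∈ P, if ¬ p ∣ u then (1 - (oG q A p : ℝ) / p) else 1 := by
    intro A
    unfold VG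
    rw [hP]
    exact prod_ite_filter y (fun p => ¬ p ∣ u) _
  have eQ : VQ y q F = ∏ p ∈ P, if ¬ p ∣ q then (1 - (oF F p : ℝ) / p) else 1 := by
    unfold VQ
    rw [hP]
    exact prod_ite_filter y (fun p => ¬ p ∣ q) _
  have eN : ∀ m : ℤ, GN 2 y m = ∏ p ∈ P, if (p : ℤ) ∣ m then (1 + 2 / (p : ℝ)) else 1 := by
    intro m
    unfold GN
    rw [hP]
    exact prod_ite_filter y (fun p => (p : ℤ) ∣ m) _
  have eNN : (∏ f ∈ F, ∏ e ∈ E, GN 2 y (s + f - e)) ^ N = ∏ p ∈ P,
      (∏ f ∈ F, ∏ e ∈ E, if (p : ℤ) ∣ s + f - e then (1 + 2 / (p : ℝ)) else 1) ^ N := by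
    rw [prod_pow]
    congr 1
    simp_rw [eN]
    symm
    rw [Finset.prod_comm]
    refine prod_congr rfl fun f _ => ?_
    rw [Finset.prod_comm]
  rw [eG D, eG E, eQ, eNN, ← prod_mul_distrib, ← prod_mul_distrib]
  refine prod_le_prod (fun p hp => ?_) fun p hp => ?_
  · have hpp : p.Prime := (mem_filter.1 hp).2
    have hp0 : (0 : ℝ) < p := by exact_mod_cast hpp.pos
    split_ifs with h1
    · exact zero_le_one
    · rw [sub_nonneg, div_le_one hp0]
      unfold oG
      split_ifs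
      · exact_mod_cast hpp.one_le
      · exact_mod_cast oF_le _ hpp.pos
  · have hpp : p.Prime := (mem_filter.1 hp).2
    have hp0 : (0 : ℝ) < p := by exact_mod_cast hpp.pos
    have hone : ∀ m : ℤ, (1 : ℝ) ≤ if (p : ℤ) ∣ m then (1 + 2 / (p : ℝ)) else 1 := by
      intro m
      split_ifs
      · have : (0 : ℝ) ≤ 2 / (p : ℝ) := by positivity
        linarith
      · exact le_rfl
    set G : ℝ := ∏ f ∈ F, ∏ e ∈ E, if (p : ℤ) ∣ s + f - e then (1 + 2 / (p : ℝ)) else 1 with hG
    have hinner : ∀ f, (1 : ℝ) ≤ ∏ e ∈ E, if (p : ℤ) ∣ s + f - e then (1 + 2 / (p : ℝ)) else 1 :=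
      fun f => Finset.one_le_prod fun e _ => hone _
    have hG1 : 1 ≤ G := Finset.one_le_prod fun f _ => hinner f
    have hGN : 1 ≤ G ^ N := one_le_pow₀ hG1
    by_cases hu : p ∣ u
    · have hq := huq p hpp hu
      rw [if_neg (not_not.2 hu), if_neg (not_not.2 hu), if_neg (not_not.2 hq)]
      linarith
    · rw [if_pos hu, if_pos hu]
      by_cases hq : p ∣ q
      · rw [if_neg (not_not.2 hq)]
        unfold oG
        rw [if_pos hq, if_pos hq, mul_one]
        have h1 : (0 : ℝ) ≤ 1 - ((1 : ℕ) : ℝ) / p := by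
          rw [sub_nonneg, div_le_one hp0]
          exact_mod_cast hpp.one_le
        exact le_mul_of_one_le_right h1 hGN
      · rw [if_pos hq]
        unfold oG
        rw [if_neg hq, if_neg hq]
        have hb1 : oF F p + 1 ≤ p := oF_lt hpp.pos (hadm p hpp hq)
        have hbk : oF F p ≤ k := (oF_le_card F p).trans hF
        have ha : oF E p ≤ p := oF_le E hpp.pos
        have haR : 0 ≤ 1 - (oF E p : ℝ) / p := by
          rw [sub_nonneg, div_le_one hp0]
          exact_mod_cast ha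
        have hbR : 0 ≤ 1 - (oF F p : ℝ) / p := by
          rw [sub_nonneg, div_le_one hp0]
          exact_mod_cast (show oF F p ≤ p by omega)
        by_cases hdiv : ∃ f ∈ F, ∃ e ∈ E, (p : ℤ) ∣ s + f - e
        · obtain ⟨f, hf, e, he, hd⟩ := hdiv
          have hk1 : 1 ≤ k := (card_pos.2 ⟨f, hf⟩ : 0 < F.card).trans_le hF
          have h1 : 1 + 2 / (p : ℝ) ≤ G := by
            have h2 : 1 + 2 / (p : ℝ) ≤
                ∏ e ∈ E, if (p : ℤ) ∣ s + f - e then (1 + 2 / (p : ℝ)) else 1 := by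
              rw [← mul_prod_erase E _ he, if_pos hd]
              exact le_mul_of_one_le_right (by positivity)
                (Finset.one_le_prod fun e _ => hone _)
            refine h2.trans ?_
            rw [hG, ← mul_prod_erase F _ hf]
            exact le_mul_of_one_le_right (zero_le_one.trans (hinner f))
              (Finset.one_le_prod fun f _ => hinner f)
          have h3 : (1 : ℝ) ≤ (1 - (oF F p : ℝ) / p) * G ^ N := by
            refine (elem hk1 hbk hb1).trans ?_
            refine mul_le_mul_of_nonneg_left ?_ hbR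
            exact pow_le_pow_left₀ (by positivity) h1 N
          have h4 : (oF E p : ℝ) ≤ oF D p := by
            exact_mod_cast oF_mono (subset_union_left) p
          have h5 : 1 - (oF D p : ℝ) / p ≤ 1 - (oF E p : ℝ) / p := by
            have := div_le_div_of_nonneg_right h4 hp0.le
            linarith
          calc 1 - (oF D p : ℝ) / p ≤ 1 - (oF E p : ℝ) / p := h5
            _ ≤ (1 - (oF E p : ℝ) / p) * ((1 - (oF F p : ℝ) / p) * G ^ N) :=
              le_mul_of_one_le_right haR h3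
            _ = _ := by ring
        · push Not at hdiv
          have h1 : oF E p + oF F p ≤ oF D p := by
            rw [hD, ← oF_union (E := E) (G := F.image (fun f => s + f)) (p := p)]
            · exact Nat.add_le_add_left (oF_shift F s p) _
            · intro e he g hg
              rw [mem_image] at hg
              obtain ⟨f, hf, rfl⟩ := hg
              exact hdiv f hf e he
          have h2 : ((oF E p : ℝ) + oF F p) / p ≤ (oF D p : ℝ) / p := by
            refine div_le_div_of_nonneg_right ?_ hp0.le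
            exact_mod_cast h1
          have h3 : 1 - (oF D p : ℝ) / p ≤ (1 - (oF E p : ℝ) / p) * (1 - (oF F p : ℝ) / p) := by
            have h4 : 0 ≤ (oF E p : ℝ) / p * ((oF F p : ℝ) / p) := by positivity
            rw [add_div] at h2
            nlinarith
          exact h3.trans (le_mul_of_one_le_right (mul_nonneg haR hbR) hGN)

end Pool.Agent.Q117.AP
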