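import Pool.Agent.Q117.AP.Stm
import Pool.Agent.Q117.AP.Uge
import Pool.Agent.Q117.LF.Nsc

/-! Project AP (helper117), job NGE (helper14): the theorem at the natural scale. -/

set_option autoImplicit false

namespace Pool.Agent.Q117.AP

open Finset Filter
open Pool.Agent.Q117.LF (Ro GN oF St_AVG)
open Pool.Agent.Y843.HS (Pr Pr_mem Pr_prime)
open Pool.Agent.Y843.HG (V1 V1_bounds V1_pos fac1)

namespace NGEa

open Pool.Agent.Q117.LF.NscAux (GN_nonneg Ro_mono mem_win)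

/-- the product over the primes dividing `q` -/
lemma prod_q_low : ∃ c : ℝ, 0 < c ∧ ∃ X0 : ℝ, ∀ X : ℝ, X0 ≤ X → ∀ q : ℕ, 1 ≤ q → (q : ℝ) ≤ X →
    c / Real.log (Real.log X) ≤ ∏ p ∈ (Pr 0 ⌊X⌋₊).filter (fun p => p ∣ q), (1 - 1 / (p : ℝ)) := by
  classical
  obtain ⟨c, C, hc, hC, hV⟩ := V1_bounds
  refine ⟨c * Real.exp (-1), by positivity, Real.exp 3, fun X hX q hq1 hqX => ?_⟩
  have hXpos : 0 < X := (Real.exp_pos 3).trans_le hX
  have hlog : 3 ≤ Real.log X := by rwa [Real.le_log_iff_exp_le hXpos]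
  obtain ⟨w, hw⟩ : ∃ w : ℕ, w = ⌊Real.log X⌋₊ := ⟨_, rfl⟩
  have hw3 : 3 ≤ w := by
    rw [hw]
    exact Nat.le_floor (by exact_mod_cast hlog)
  have hwl : (w : ℝ) ≤ Real.log X := by
    rw [hw]
    exact Nat.floor_le (by linarith)
  have hw0 : (0 : ℝ) < w := by exact_mod_cast (show 0 < w by omega)
  have hw1 : (1 : ℝ) < w := by exact_mod_cast (show 1 < w by omega)
  have hwX : w ≤ ⌊X⌋₊ := by
    refine Nat.le_floor (hwl.trans ?_)
    have := Real.log_le_sub_one_of_pos hXpos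
    linarith
  obtain ⟨e₁, he₁⟩ : ∃ e₁ : ℝ, e₁ = Real.exp (-(1 / (w : ℝ))) := ⟨_, rfl⟩
  have he₁0 : 0 < e₁ := by rw [he₁]; exact Real.exp_pos _
  have he₁1 : e₁ ≤ 1 := by
    rw [he₁, Real.exp_le_one_iff]
    have : 0 < 1 / (w : ℝ) := by positivity
    linarith
  have hloc : ∀ p ∈ Pr 0 ⌊X⌋₊, (if p ≤ w then 1 - 1 / (p : ℝ) else 1) * (if p ∣ q ∧ w < p then e₁ else 1) ≤
      (if p ∣ q then 1 - 1 / (p : ℝ) else 1) := by
    intro p hp
    obtain ⟨f1, f2⟩ := fac1 (Pr_prime hp)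
    have hp0 : (0 : ℝ) < p := by exact_mod_cast (Pr_prime hp).pos
    by_cases h1 : p ≤ w
    · have h2 : ¬ (p ∣ q ∧ w < p) := fun h => by omega
      rw [if_pos h1, if_neg h2, mul_one]
      split_ifs
      · exact le_rfl
      · exact f2
    · rw [if_neg h1, one_mul]
      by_cases h3 : p ∣ q
      · rw [if_pos ⟨h3, by omega⟩, if_pos h3]
        have h4 : (w : ℝ) + 1 ≤ p := by exact_mod_cast (show w + 1 ≤ p by omega)
        have h5 : 1 / (p : ℝ) ≤ 1 / (w + 1) := one_div_le_one_div_of_le (by linarith) h4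
        have h6 : e₁ ≤ 1 - 1 / ((w : ℝ) + 1) := by
          have h7 := Real.add_one_le_exp (1 / (w : ℝ))
          rw [he₁, Real.exp_neg]
          have h8 : 1 - 1 / ((w : ℝ) + 1) = (1 / (w : ℝ) + 1)⁻¹ := by
            field_simp
            ring
          rw [h8]
          exact inv_anti₀ (by positivity) h7
        linarith
      · rw [if_neg (fun h => h3 h.1), if_neg h3]
  have hprod : (∏ p ∈ Pr 0 ⌊X⌋₊, (if p ≤ w then 1 - 1 / (p : ℝ) else 1)) * ∏ p ∈ Pr 0 ⌊X⌋₊, (if p ∣ q ∧ w < p then e₁ else 1) ≤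
      ∏ p ∈ (Pr 0 ⌊X⌋₊).filter (fun p => p ∣ q), (1 - 1 / (p : ℝ)) := by
    rw [prod_filter, ← prod_mul_distrib]
    refine prod_le_prod (fun p hp => ?_) hloc
    obtain ⟨f1, f2⟩ := fac1 (Pr_prime hp)
    refine mul_nonneg ?_ ?_
    · split_ifs
      · linarith
      · exact zero_le_one
    · split_ifs
      · exact he₁0.le
      · exact zero_le_one
  refine le_trans ?_ hprod
  have hp1 : (∏ p ∈ Pr 0 ⌊X⌋₊, (if p ≤ w then 1 - 1 / (p : ℝ) else 1)) = V1 w := by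
    rw [← prod_filter]
    unfold V1
    refine prod_congr ?_ fun _ _ => rfl
    ext p
    rw [mem_filter, Pr_mem, Pr_mem]
    constructor
    · rintro ⟨⟨⟨h1, h2⟩, h3⟩, h4⟩
      exact ⟨⟨h1, h4⟩, h3⟩
    · rintro ⟨⟨h1, h2⟩, h3⟩
      exact ⟨⟨⟨h1, h2.trans hwX⟩, h3⟩, h2⟩
  obtain ⟨S, hS⟩ : ∃ S : Finset ℕ, S = (Pr 0 ⌊X⌋₊).filter (fun p => p ∣ q ∧ w < p) := ⟨_, rfl⟩
  have hp2 : ∏ p ∈ Pr 0 ⌊X⌋₊, (if p ∣ q ∧ w < p then e₁ else 1) = e₁ ^ S.card := by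
    rw [← prod_filter, prod_const, hS]
  have hSq : ∏ p ∈ S, p ∣ q := by
    refine Finset.prod_primes_dvd q (fun p hp => ?_) (fun p hp => ?_)
    · rw [hS, mem_filter] at hp
      exact (Pr_prime hp.1).prime
    · rw [hS, mem_filter] at hp
      exact hp.2.1
  have hS3 : 3 ^ S.card ≤ ∏ p ∈ S, p := by
    rw [← prod_const]
    refine prod_le_prod' fun p hp => ?_
    rw [hS, mem_filter] at hp
    omega
  have hSw : S.card ≤ w := by
    rw [hw]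
    refine Nat.le_floor ?_
    rw [Real.le_log_iff_exp_le hXpos]
    have h1 : ((3 ^ S.card : ℕ) : ℝ) ≤ q := by
      exact_mod_cast hS3.trans (Nat.le_of_dvd hq1 hSq)
    refine le_trans ?_ (h1.trans hqX)
    push_cast
    have h2 : Real.exp (S.card : ℝ) = Real.exp 1 ^ S.card := by
      rw [← Real.exp_nat_mul, mul_one]
    rw [h2]
    refine pow_le_pow_left₀ (Real.exp_pos _).le ?_ _
    have := Real.exp_one_lt_d9
    linarith
  have hp3 : Real.exp (-1) ≤ e₁ ^ S.card := by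
    rw [he₁, ← Real.exp_nat_mul]
    refine Real.exp_le_exp.2 ?_
    have h1 : (S.card : ℝ) ≤ w := by exact_mod_cast hSw
    have h2 : (S.card : ℝ) * (1 / w) ≤ 1 := by
      rw [mul_one_div, div_le_one hw0]
      exact h1
    linarith
  rw [hp1, hp2]
  have h1 := (hV w (by omega)).1
  have hlw : 0 < Real.log w := Real.log_pos hw1
  have h2 : c / Real.log (Real.log X) ≤ c / Real.log w :=
    div_le_div_of_nonneg_left hc.le hlw (Real.log_le_log hw0 hwl)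
  calc c * Real.exp (-1) / Real.log (Real.log X) = c / Real.log (Real.log X) * Real.exp (-1) := by ring
    _ ≤ V1 w * e₁ ^ S.card := mul_le_mul (h2.trans h1) hp3 (Real.exp_pos _).le (V1_pos w).le

lemma VQ_nonneg (y q : ℕ) (F : Finset ℤ) : 0 ≤ VQ y q F := by
  unfold VQ
  refine prod_nonneg fun p hp => ?_
  rw [mem_filter] at hp
  have hp0 : (0 : ℝ) < p := by exact_mod_cast hp.2.1.pos
  rw [sub_nonneg, div_le_one hp0]
  exact_mod_cast UGEa.oF_le' F hp.2.1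

lemma VG_nonneg (y u q : ℕ) (E : Finset ℤ) : 0 ≤ VG y u q E := by
  unfold VG
  refine prod_nonneg fun p hp => ?_
  rw [mem_filter] at hp
  have hp0 : (0 : ℝ) < p := by exact_mod_cast hp.2.1.pos
  rw [sub_nonneg, div_le_one hp0]
  exact_mod_cast UGEa.oG_le q E hp.2.1

lemma one_le_oF {F : Finset ℤ} (hF : F.Nonempty) (p : ℕ) : 1 ≤ oF F p := by
  classical
  unfold oF
  exact Finset.card_pos.2 (hF.image _)

lemma VQ_up (y q : ℕ) {F : Finset ℤ} (hF : F.Nonempty) :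
    VQ y q F * ∏ p ∈ (Pr 0 y).filter (fun p => p ∣ q), (1 - 1 / (p : ℝ)) ≤ V1 y := by
  classical
  have h1 : VQ y q F ≤ ∏ p ∈ (Pr 0 y).filter (fun p => ¬ p ∣ q), (1 - 1 / (p : ℝ)) := by
    have h2 : VQ y q F = ∏ p ∈ (Pr 0 y).filter (fun p => ¬ p ∣ q), (1 - (oF F p : ℝ) / p) := by
      unfold VQ
      refine prod_congr ?_ fun _ _ => rfl
      ext p
      rw [mem_filter, mem_filter, Pr_mem, mem_Icc]
      constructor
      · rintro ⟨⟨h1, h2⟩, h3, h4⟩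
        exact ⟨⟨⟨h1, h2⟩, h3⟩, h4⟩
      · rintro ⟨⟨⟨h1, h2⟩, h3⟩, h4⟩
        exact ⟨⟨h1, h2⟩, h3, h4⟩
    rw [h2]
    refine prod_le_prod (fun p hp => ?_) (fun p hp => ?_)
    · have hpp := Pr_prime (mem_filter.1 hp).1
      have hp0 : (0 : ℝ) < p := by exact_mod_cast hpp.pos
      rw [sub_nonneg, div_le_one hp0]
      exact_mod_cast UGEa.oF_le' F hpp
    · have hpp := Pr_prime (mem_filter.1 hp).1
      have hp0 : (0 : ℝ) < p := by exact_mod_cast hpp.pos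
      have h3 : (1 : ℝ) ≤ oF F p := by exact_mod_cast one_le_oF hF p
      have h4 : 1 / (p : ℝ) ≤ oF F p / p := div_le_div_of_nonneg_right h3 hp0.le
      linarith
  have h5 : V1 y = (∏ p ∈ (Pr 0 y).filter (fun p => p ∣ q), (1 - 1 / (p : ℝ))) *
      ∏ p ∈ (Pr 0 y).filter (fun p => ¬ p ∣ q), (1 - 1 / (p : ℝ)) := by
    unfold V1
    rw [prod_filter_mul_prod_filter_not]
  have h6 : 0 ≤ ∏ p ∈ (Pr 0 y).filter (fun p => p ∣ q), (1 - 1 / (p : ℝ)) := by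
    refine prod_nonneg fun p hp => ?_
    have := (fac1 (Pr_prime (mem_filter.1 hp).1)).1
    linarith
  rw [h5, mul_comm (∏ p ∈ (Pr 0 y).filter (fun p => p ∣ q), (1 - 1 / (p : ℝ)))]
  exact mul_le_mul_of_nonneg_right h1 h6

/-- the sieve product of a nonempty set is small -/
lemma VQ_small (η : ℝ) (hη : 0 < η) : ∃ X0 : ℝ, ∀ X : ℝ, X0 ≤ X → ∀ q : ℕ, 1 ≤ q → (q : ℝ) ≤ X →
    ∀ F : Finset ℤ, F.Nonempty → VQ ⌊X⌋₊ q F * (Real.log X) ^ (1 / 2 : ℝ) ≤ η := by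
  classical
  obtain ⟨c, hc, X1, hX1⟩ := prod_q_low
  obtain ⟨_, C, _, hC, hV⟩ := V1_bounds
  have hlim := (isLittleO_log_rpow_atTop (show (0 : ℝ) < 1 / 2 by norm_num)).bound
    (show (0 : ℝ) < η * c / (2 * C) by positivity)
  obtain ⟨X2, hX2⟩ := eventually_atTop.1 (Real.tendsto_log_atTop.eventually hlim)
  refine ⟨max (max X1 X2) (Real.exp 3), fun X hX q hq1 hqX F hF => ?_⟩
  simp only [max_le_iff] at hX
  obtain ⟨⟨hx1, hx2⟩, hx3⟩ := hX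
  have hXpos : 0 < X := (Real.exp_pos 3).trans_le hx3
  have hlog : 3 ≤ Real.log X := by rwa [Real.le_log_iff_exp_le hXpos]
  have hll : 0 < Real.log (Real.log X) := Real.log_pos (by linarith)
  have hX4 : 4 ≤ X := by
    have := Real.log_le_sub_one_of_pos hXpos
    linarith
  obtain ⟨P, hP⟩ : ∃ P : ℝ, P = ∏ p ∈ (Pr 0 ⌊X⌋₊).filter (fun p => p ∣ q), (1 - 1 / (p : ℝ)) := ⟨_, rfl⟩
  have h1 := hX1 X hx1 q hq1 hqX
  have h2 := VQ_up ⌊X⌋₊ q hF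
  rw [← hP] at h1 h2
  have hP0 : 0 < P := lt_of_lt_of_le (by positivity) h1
  have hfl : X / 2 ≤ ⌊X⌋₊ := by
    have := Nat.lt_floor_add_one X
    linarith
  have hfl2 : 2 ≤ ⌊X⌋₊ := Nat.le_floor (by push_cast; linarith)
  have h3 := (hV ⌊X⌋₊ hfl2).2
  have h4 : Real.log X / 2 ≤ Real.log (⌊X⌋₊ : ℝ) := by
    have h5 : Real.log X / 2 = Real.log (X ^ (1 / 2 : ℝ)) := by
      rw [Real.log_rpow hXpos]
      ring
    rw [h5]
    refine Real.log_le_log (by positivity) (le_trans ?_ hfl)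
    rw [← Real.sqrt_eq_rpow, Real.sqrt_le_left (by linarith)]
    nlinarith
  have h5 : V1 ⌊X⌋₊ ≤ 2 * C / Real.log X := by
    refine h3.trans ?_
    rw [div_le_div_iff₀ (by linarith) (by linarith)]
    nlinarith
  have h6 : VQ ⌊X⌋₊ q F ≤ 2 * C / Real.log X * (Real.log (Real.log X) / c) := by
    have h7 : VQ ⌊X⌋₊ q F * (c / Real.log (Real.log X)) ≤ 2 * C / Real.log X :=
      (mul_le_mul_of_nonneg_left h1 (VQ_nonneg _ _ _)).trans (h2.trans h5)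
    calc VQ ⌊X⌋₊ q F = VQ ⌊X⌋₊ q F * (c / Real.log (Real.log X)) * (Real.log (Real.log X) / c) := by
          field_simp
      _ ≤ _ := mul_le_mul_of_nonneg_right h7 (by positivity)
  obtain ⟨Λ, hΛ⟩ : ∃ Λ : ℝ, Λ = (Real.log X) ^ (1 / 2 : ℝ) := ⟨_, rfl⟩
  have hΛpos : 0 < Λ := by rw [hΛ]; exact Real.rpow_pos_of_pos (by linarith) _
  have hΛ2 : Λ * Λ = Real.log X := by
    rw [hΛ, ← Real.rpow_add (by linarith)]
    norm_num
  have h8 := hX2 X hx2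
  simp only [Real.norm_eq_abs] at h8
  rw [← hΛ, abs_of_pos hll, abs_of_pos hΛpos] at h8
  rw [← hΛ]
  calc VQ ⌊X⌋₊ q F * Λ ≤ 2 * C / Real.log X * (Real.log (Real.log X) / c) * Λ :=
        mul_le_mul_of_nonneg_right h6 hΛpos.le
    _ ≤ 2 * C / Real.log X * (η * c / (2 * C) * Λ / c) * Λ := by
        have : 0 ≤ 2 * C / Real.log X := by positivity
        gcongr
    _ = η := by
        rw [← hΛ2]
        field_simp

/-- the average of the products of `GN 2` -/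
lemma avgG (hA : St_AVG) (k N : ℕ) : ∃ C : ℝ, 0 < C ∧ ∃ X0 : ℝ, ∀ X : ℝ, X0 ≤ X → ∀ E F : Finset ℤ, E.card ≤ k → F.card ≤ k →
    (∀ e ∈ E, |(e : ℝ)| ≤ X) → (∀ f ∈ F, |(f : ℝ)| ≤ 2 * X) → ∀ L : ℕ, (L : ℝ) ≤ X →
    ∑ s ∈ (Icc (-(L : ℤ)) L).filter (fun s => ∀ f ∈ F, ∀ e ∈ E, s + f ≠ e), (∏ f ∈ F, ∏ e ∈ E, GN 2 ⌊X⌋₊ (s + f - e)) ^ N ≤
      C * (L + (Real.log X) ^ (1 / 2 : ℝ)) := by
  classical
  have hA1 := fun M : ℕ => hA M 1
  choose C hC X0 hX0 using hA1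
  refine ⟨∑ M ∈ range (k * k * N + 1), C M, sum_pos (fun M _ => hC M) ⟨0, by simp⟩,
    max 3 (∑ M ∈ range (k * k * N + 1), |X0 M|), ?_⟩
  intro X hX E F hE hF hEX hFX L hL
  obtain ⟨hX3, hXs⟩ := max_le_iff.1 hX
  obtain ⟨M, hM⟩ : ∃ M : ℕ, M = Fintype.card ((↥F × ↥E) × Fin N) := ⟨_, rfl⟩
  have hMk : M ≤ k * k * N := by
    rw [hM, Fintype.card_prod, Fintype.card_prod, Fintype.card_coe, Fintype.card_coe, Fintype.card_fin]
    exact Nat.mul_le_mul_right _ (Nat.mul_le_mul hF hE)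
  have hMr : M ∈ range (k * k * N + 1) := mem_range.2 (by omega)
  obtain ⟨ε⟩ : Nonempty (Fin M ≃ (↥F × ↥E) × Fin N) := ⟨(Fintype.equivFinOfCardEq hM.symm).symm⟩
  have hXM : X0 M ≤ X :=
    (le_abs_self _).trans ((single_le_sum (f := fun M => |X0 M|) (fun i _ => abs_nonneg _) hMr).trans hXs)
  have hCM : C M ≤ ∑ M ∈ range (k * k * N + 1), C M :=
    single_le_sum (f := C) (fun i _ => (hC i).le) hMr
  have h1 := hX0 M X hXM (fun _ => 1) (fun i => ((ε i).1.1 : ℤ) - (ε i).1.2) (by intro x; norm_num) (by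
    intro i
    have e1 := hEX (ε i).1.2 (ε i).1.2.2
    have e2 := hFX (ε i).1.1 (ε i).1.1.2
    push_cast
    refine (abs_sub _ _).trans ?_
    nlinarith) L hL
  have hs : ∀ s : ℤ, (∏ f ∈ F, ∏ e ∈ E, GN 2 ⌊X⌋₊ (s + f - e)) ^ N =
      ∏ x, GN 2 ⌊X⌋₊ ((1 : ℤ) * s + (((ε x).1.1 : ℤ) - (ε x).1.2)) := by
    intro s
    rw [Equiv.prod_comp ε (fun y => GN 2 ⌊X⌋₊ ((1 : ℤ) * s + ((y.1.1 : ℤ) - y.1.2))), Fintype.prod_prod_type]
    simp only [prod_const, card_univ, Fintype.card_fin]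
    rw [prod_pow, Fintype.prod_prod_type, ← Finset.prod_coe_sort F]
    congr 1
    refine prod_congr rfl fun f _ => ?_
    rw [← Finset.prod_coe_sort E]
    refine prod_congr rfl fun e _ => ?_
    congr 1
    ring
  have hL0 : (0 : ℝ) ≤ L + (Real.log X) ^ (1 / 2 : ℝ) := by
    have : 0 ≤ Real.log X := Real.log_nonneg (by linarith)
    positivity
  refine le_trans ?_ (h1.trans (mul_le_mul_of_nonneg_right hCM hL0))
  simp only [hs]
  refine sum_le_sum_of_subset_of_nonneg ?_ (fun s _ _ => prod_nonneg fun x _ => GN_nonneg _ _)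
  intro s hs'
  rw [mem_filter] at hs' ⊢
  refine ⟨hs'.1, fun x hx => ?_⟩
  refine hs'.2 (ε x).1.1 (ε x).1.1.2 (ε x).1.2 (ε x).1.2.2 ?_
  linarith

open Classical in
/-- the `n` with all the values for `E` rough -/
noncomputable def SG (z : ℝ) (u q : ℕ) (v : ℤ) (E : Finset ℤ) (B H : ℕ) : Finset ℕ :=
  (Ioc B (B + H)).filter (fun n : ℕ => ∀ e ∈ E, Ro z (gv u q v e n))

open Classical in
/-- the `n` which are bad for the shifts of `F` -/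
noncomputable def BadG (z L : ℝ) (u q : ℕ) (v : ℤ) (E F : Finset ℤ) (B H : ℕ) : Finset ℕ :=
  (Ioc B (B + H)).filter (fun n : ℕ => (∀ e ∈ E, Ro z (gv u q v e n)) ∧
    ∃ s : ℤ, |(s : ℝ)| ≤ L ∧ (∀ f ∈ F, Ro z (gv u q v (s + f) n)) ∧ ¬ ∀ f ∈ F, s + f ∈ E)

lemma AdQ_single (q : ℕ) (f₀ : ℤ) : AdQ q {f₀} := by
  intro p hp _
  refine ⟨1 - f₀, fun e he hd => ?_⟩
  rw [mem_singleton] at he
  rw [he, sub_add_cancel] at hd
  have h1 : p ∣ 1 := by exact_mod_cast hd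
  exact hp.one_lt.ne' (Nat.dvd_one.1 h1)

lemma SG_mono {z : ℝ} {u q : ℕ} {v : ℤ} {E E' : Finset ℤ} (h : E ⊆ E') (B H : ℕ) : SG z u q v E' B H ⊆ SG z u q v E B H := by
  classical
  intro n hn
  rw [SG, mem_filter] at hn ⊢
  exact ⟨hn.1, fun e he => hn.2 e (h he)⟩

lemma cnt_union (hU : UGEc) (hG : St_LGC) (k T : ℕ) (hT : 1 ≤ T) (h : ℝ) (hh0 : 0 < h) (hh1 : h ≤ 1) :
    ∃ C : ℝ, 0 < C ∧ ∃ X0 : ℝ, ∀ X : ℝ, X0 ≤ X → ∀ u q : ℕ, 1 ≤ u → 1 ≤ q → ∀ v : ℤ, Cuv u q v →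
      ∀ E F : Finset ℤ, E.card ≤ k → F.card ≤ k → E.Nonempty → AdQ q F → ∀ B H : ℕ, X ^ h ≤ H → (H : ℝ) ≤ X →
      ∀ s : ℤ, (∀ f ∈ F, ∀ e ∈ E, s + f ≠ e) →
      ((SG (X ^ (1 / (T : ℝ))) u q v (E ∪ F.image (fun f => s + f)) B H).card : ℝ) ≤
        C * ((H : ℝ) * (VG ⌊X⌋₊ u q E * VQ ⌊X⌋₊ q F * (∏ f ∈ F, ∏ e ∈ E, GN 2 ⌊X⌋₊ (s + f - e)) ^ (2 * k ^ 2 + k))) := by
  classical
  obtain ⟨C, hC, X0, hX0⟩ := hU (2 * k) T h hT hh0 hh1
  refine ⟨C, hC, X0, fun X hX u q hu hq v hcuv E F hE hF hEn hFa B H hH1 hH2 s hs => ?_⟩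
  have hcard : (E ∪ F.image (fun f => s + f)).card ≤ 2 * k := by
    refine (card_union_le _ _).trans ?_
    have := card_image_le (s := F) (f := fun f => s + f)
    omega
  have h1 := hX0 X hX u q hu hq v hcuv (E ∪ F.image (fun f => s + f)) hcard (hEn.mono subset_union_left) B H hH1 hH2
  have h2 := hG k ⌊X⌋₊ u q (fun p hp hpu => (hcuv p hp hpu).1) E F hE hF hFa s hs
  unfold SG
  refine h1.trans ?_
  gcongr

theorem per_fam (hU : UGEc) (hG : St_LGC) (hA : St_AVG) (k T : ℕ) (hT : 1 ≤ T) (h : ℝ) (hh0 : 0 < h) (hh1 : h ≤ 1) :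
    ∃ C : ℝ, 0 < C ∧ ∀ η : ℝ, 0 < η → ∃ X0 : ℝ, ∀ X : ℝ, X0 ≤ X → ∀ u q : ℕ, 1 ≤ u → 1 ≤ q → (q : ℝ) ≤ X → ∀ v : ℤ, Cuv u q v →
      ∀ E : Finset ℤ, E.card ≤ k → E.Nonempty → (∀ e ∈ E, |(e : ℝ)| ≤ X) →
      ∀ F : Finset ℤ, F.Nonempty → F.card ≤ k → (∀ f ∈ F, |(f : ℝ)| ≤ X) → AdQ q F →
      ∀ L : ℝ, 0 ≤ L → L ≤ X → ∀ ν : ℝ, L * VQ ⌊X⌋₊ q F ≤ ν → ∀ B H : ℕ, X ^ h ≤ H → (H : ℝ) ≤ X →
      ((BadG (X ^ (1 / (T : ℝ))) L u q v E F B H).card : ℝ) ≤ C * ((H : ℝ) * VG ⌊X⌋₊ u q E) * (ν + η) := by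
  classical
  obtain ⟨C1, hC1, X1, hX1⟩ := cnt_union hU hG (k + 1) T hT h hh0 hh1
  obtain ⟨C2, hC2, X2, hX2⟩ := avgG hA (k + 1) (2 * (k + 1) ^ 2 + (k + 1))
  refine ⟨C1 * C2 * (k * k + 1), by positivity, fun η hη => ?_⟩
  obtain ⟨X3, hX3⟩ := VQ_small η hη
  refine ⟨max (max X1 X2) (max X3 3), fun X hX u q hu hq hqX v hcuv E hE hEn hEX F hFn hF hFX hFa L hL hLX ν hLν B H hH1 hH2 => ?_⟩
  simp only [max_le_iff] at hX
  obtain ⟨⟨hx1, hx2⟩, hx3, hx4⟩ := hX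
  obtain ⟨Λ, hΛ⟩ : ∃ Λ : ℝ, Λ = (Real.log X) ^ (1 / 2 : ℝ) := ⟨_, rfl⟩
  have hΛ0 : 0 ≤ Λ := by
    rw [hΛ]
    have : 0 ≤ Real.log X := Real.log_nonneg (by linarith)
    positivity
  obtain ⟨V, hV⟩ : ∃ V : ℝ, V = VG ⌊X⌋₊ u q E := ⟨_, rfl⟩
  have hV0 : 0 ≤ V := hV ▸ VG_nonneg _ _ _ _
  obtain ⟨V1, hV1⟩ : ∃ V1 : ℝ, V1 = VQ ⌊X⌋₊ q F := ⟨_, rfl⟩
  have hV10 : 0 ≤ V1 := hV1 ▸ VQ_nonneg _ _ _
  have hV1Λ : V1 * Λ ≤ η := by
    rw [hV1, hΛ]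
    exact hX3 X hx3 q hq hqX F hFn
  obtain ⟨N, hN⟩ : ∃ N : ℕ, N = 2 * (k + 1) ^ 2 + (k + 1) := ⟨_, rfl⟩
  rw [← hN] at hX1 hX2
  rw [← hV]
  rw [← hV1] at hLν
  have hb : ∀ s : ℤ, |(s : ℝ)| ≤ L → ∀ f₀ ∈ F, s + f₀ ∉ E →
      ((SG (X ^ (1 / (T : ℝ))) u q v (E ∪ F.image (fun f => s + f)) B H).card : ℝ) ≤ C1 * C2 * ((H : ℝ) * V * η) := by
    intro s hs f₀ hf₀ hne
    have h1 : ((SG (X ^ (1 / (T : ℝ))) u q v (E ∪ F.image (fun f => s + f)) B H).card : ℝ) ≤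
        ((SG (X ^ (1 / (T : ℝ))) u q v (E ∪ ({f₀} : Finset ℤ).image (fun f => s + f)) B H).card : ℝ) := by
      have : (E ∪ ({f₀} : Finset ℤ).image (fun f => s + f)) ⊆ (E ∪ F.image (fun f => s + f)) := by
        refine union_subset_union_right (image_subset_image ?_)
        rwa [singleton_subset_iff]
      exact_mod_cast card_le_card (SG_mono this B H)
    have h2 := hX1 X hx1 u q hu hq v hcuv E {f₀} (by omega) (by rw [card_singleton]; omega) hEn (AdQ_single q f₀) B H hH1 hH2 s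
      (by
        intro f hf e he h
        rw [mem_singleton] at hf
        rw [hf] at h
        exact hne (h ▸ he))
    have h3 := hX3 X hx3 q hq hqX {f₀} (singleton_nonempty _)
    have h4 := hX2 X hx2 E {s + f₀} (by omega) (by rw [card_singleton]; omega) hEX (by
      intro f hf
      rw [mem_singleton] at hf
      rw [hf]
      push_cast
      have := hFX f₀ hf₀
      refine (abs_add_le _ _).trans ?_
      linarith) 0 (by simp only [Nat.cast_zero]; linarith)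
    have h5 : (∏ e ∈ E, GN 2 ⌊X⌋₊ (s + f₀ - e)) ^ N ≤ C2 * Λ := by
      have h6 : (0 : ℤ) ∈ (Icc (-((0 : ℕ) : ℤ)) ((0 : ℕ) : ℤ)).filter (fun s' : ℤ => ∀ f ∈ ({s + f₀} : Finset ℤ), ∀ e ∈ E, s' + f ≠ e) := by
        rw [mem_filter]
        refine ⟨by simp, fun f hf e he h => ?_⟩
        rw [mem_singleton] at hf
        rw [hf, zero_add] at h
        exact hne (h ▸ he)
      have h7 := single_le_sum (f := fun s' : ℤ => (∏ f ∈ ({s + f₀} : Finset ℤ), ∏ e ∈ E, GN 2 ⌊X⌋₊ (s' + f - e)) ^ N)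
        (fun s' _ => pow_nonneg (prod_nonneg fun f _ => prod_nonneg fun e _ => GN_nonneg _ _) _) h6
      have h8 := h7.trans h4
      simp only [prod_singleton, zero_add, Nat.cast_zero] at h8
      rw [hΛ]
      exact h8
    rw [← hV] at h2
    rw [← hΛ] at h3
    simp only [prod_singleton] at h2
    refine h1.trans (h2.trans ?_)
    have h9 := VQ_nonneg ⌊X⌋₊ q {f₀}
    have h10 : 0 ≤ (∏ e ∈ E, GN 2 ⌊X⌋₊ (s + f₀ - e)) ^ N := pow_nonneg (prod_nonneg fun e _ => GN_nonneg _ _) _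
    calc C1 * ((H : ℝ) * (V * VQ ⌊X⌋₊ q {f₀} * (∏ e ∈ E, GN 2 ⌊X⌋₊ (s + f₀ - e)) ^ N))
        ≤ C1 * ((H : ℝ) * (V * VQ ⌊X⌋₊ q {f₀} * (C2 * Λ))) := by gcongr
      _ = C1 * C2 * ((H : ℝ) * V * (VQ ⌊X⌋₊ q {f₀} * Λ)) := by ring
      _ ≤ C1 * C2 * ((H : ℝ) * V * η) := by gcongr
  obtain ⟨G, hGd⟩ : ∃ G : ℤ → ℝ, G = fun s => (∏ f ∈ F, ∏ e ∈ E, GN 2 ⌊X⌋₊ (s + f - e)) ^ N := ⟨_, rfl⟩
  have hG0 : ∀ s, 0 ≤ G s := by
    intro s
    rw [hGd]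
    exact pow_nonneg (prod_nonneg fun _ _ => prod_nonneg fun _ _ => GN_nonneg _ _) _
  have hc : ∀ s : ℤ, (∀ f ∈ F, ∀ e ∈ E, s + f ≠ e) →
      ((SG (X ^ (1 / (T : ℝ))) u q v (E ∪ F.image (fun f => s + f)) B H).card : ℝ) ≤ C1 * ((H : ℝ) * (V * V1 * G s)) := by
    intro s hs
    have h2 := hX1 X hx1 u q hu hq v hcuv E F (by omega) (by omega) hEn hFa B H hH1 hH2 s hs
    rw [← hV, ← hV1] at h2
    rw [hGd]
    exact h2
  have hsumG : ∑ s ∈ (Icc (-((⌊L⌋₊ : ℕ) : ℤ)) (⌊L⌋₊ : ℕ)).filter (fun s => ∀ f ∈ F, ∀ e ∈ E, s + f ≠ e), G s ≤ C2 * (L + Λ) := by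
    have h1 := hX2 X hx2 E F (by omega) (by omega) hEX (fun f hf => (hFX f hf).trans (by linarith)) ⌊L⌋₊
      ((Nat.floor_le hL).trans hLX)
    rw [← hΛ] at h1
    rw [hGd]
    refine h1.trans ?_
    have := Nat.floor_le hL
    gcongr
  -- the cover
  obtain ⟨I, hI⟩ : ∃ I : Finset ℤ, I = Icc (-((⌊L⌋₊ : ℕ) : ℤ)) (⌊L⌋₊ : ℕ) := ⟨_, rfl⟩
  rw [← hI] at hsumG
  have hcov : BadG (X ^ (1 / (T : ℝ))) L u q v E F B H ⊆ (I.filter (fun s => ¬ ∀ f ∈ F, s + f ∈ E)).biUnion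
      (fun s => SG (X ^ (1 / (T : ℝ))) u q v (E ∪ F.image (fun f => s + f)) B H) := by
    intro n hn
    rw [BadG, mem_filter] at hn
    obtain ⟨h1, h3, s, h4, h5, h6⟩ := hn
    rw [mem_biUnion]
    refine ⟨s, mem_filter.2 ⟨?_, h6⟩, ?_⟩
    · rw [hI, mem_win hL]
      exact h4
    · rw [SG, mem_filter]
      refine ⟨h1, fun e he => ?_⟩
      rcases mem_union.1 he with h7 | h7
      · exact h3 e h7
      · obtain ⟨f, hf, rfl⟩ := mem_image.1 h7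
        exact h5 f hf
  have hcard : ((BadG (X ^ (1 / (T : ℝ))) L u q v E F B H).card : ℝ) ≤
      ∑ s ∈ I.filter (fun s => ¬ ∀ f ∈ F, s + f ∈ E), ((SG (X ^ (1 / (T : ℝ))) u q v (E ∪ F.image (fun f => s + f)) B H).card : ℝ) := by
    have := (card_le_card hcov).trans card_biUnion_le
    exact_mod_cast this
  have hn1 : (0 : ℝ) ≤ C1 * C2 * ((H : ℝ) * V * η) := by positivity
  have hn2 : ∀ s, (0 : ℝ) ≤ C1 * ((H : ℝ) * (V * V1 * G s)) := by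
    intro s
    have := hG0 s
    positivity
  have hterm : ∀ s ∈ I.filter (fun s => ¬ ∀ f ∈ F, s + f ∈ E),
      ((SG (X ^ (1 / (T : ℝ))) u q v (E ∪ F.image (fun f => s + f)) B H).card : ℝ) ≤
        (if ∃ f ∈ F, ∃ e ∈ E, s + f = e then C1 * C2 * ((H : ℝ) * V * η) else 0) +
        (if ∀ f ∈ F, ∀ e ∈ E, s + f ≠ e then C1 * ((H : ℝ) * (V * V1 * G s)) else 0) := by
    intro s hs
    obtain ⟨hs1, hs2⟩ := mem_filter.1 hs
    rw [hI, mem_win hL] at hs1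
    by_cases hall : ∀ f ∈ F, ∀ e ∈ E, s + f ≠ e
    · rw [if_pos hall, if_neg]
      · have := hc s hall
        linarith
      · rintro ⟨f, hf, e, he, h⟩
        exact hall f hf e he h
    · have hex : ∃ f ∈ F, ∃ e ∈ E, s + f = e := by
        push Not at hall
        exact hall
      rw [if_neg hall, if_pos hex, add_zero]
      push Not at hs2
      obtain ⟨f₀, hf₀, hne⟩ := hs2
      exact hb s hs1 f₀ hf₀ hne
  have hs1 : ∑ s ∈ I.filter (fun s => ¬ ∀ f ∈ F, s + f ∈ E),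
      (if ∃ f ∈ F, ∃ e ∈ E, s + f = e then C1 * C2 * ((H : ℝ) * V * η) else 0) ≤ k * k * (C1 * C2 * ((H : ℝ) * V * η)) := by
    rw [← sum_filter, sum_const, nsmul_eq_mul]
    refine mul_le_mul_of_nonneg_right ?_ hn1
    have h1 : ((I.filter (fun s => ¬ ∀ f ∈ F, s + f ∈ E)).filter (fun s => ∃ f ∈ F, ∃ e ∈ E, s + f = e)) ⊆
        (F ×ˢ E).image (fun x : ℤ × ℤ => x.2 - x.1) := by
      intro s hs
      obtain ⟨-, f, hf, e, he, h⟩ := mem_filter.1 hs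
      rw [mem_image]
      exact ⟨(f, e), mem_product.2 ⟨hf, he⟩, by change e - f = s; omega⟩
    have h2 := (card_le_card h1).trans card_image_le
    rw [card_product] at h2
    have h3 : F.card * E.card ≤ k * k := Nat.mul_le_mul hF hE
    exact_mod_cast h2.trans h3
  have hs2 : ∑ s ∈ I.filter (fun s => ¬ ∀ f ∈ F, s + f ∈ E),
      (if ∀ f ∈ F, ∀ e ∈ E, s + f ≠ e then C1 * ((H : ℝ) * (V * V1 * G s)) else 0) ≤ C1 * C2 * ((H : ℝ) * V * (ν + η)) := by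
    refine (sum_le_sum_of_subset_of_nonneg (filter_subset _ I) (fun s _ _ => ?_)).trans ?_
    · split_ifs
      · exact hn2 s
      · exact le_rfl
    · rw [← sum_filter]
      have h1 : ∑ s ∈ I.filter (fun s => ∀ f ∈ F, ∀ e ∈ E, s + f ≠ e), C1 * ((H : ℝ) * (V * V1 * G s)) =
          C1 * ((H : ℝ) * (V * V1)) * ∑ s ∈ I.filter (fun s => ∀ f ∈ F, ∀ e ∈ E, s + f ≠ e), G s := by
        rw [mul_sum]
        refine sum_congr rfl fun s _ => ?_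
        ring
      rw [h1]
      refine (mul_le_mul_of_nonneg_left hsumG (by positivity)).trans ?_
      have h3 : C1 * ((H : ℝ) * (V * V1)) * (C2 * (L + Λ)) = C1 * C2 * ((H : ℝ) * V * (L * V1 + V1 * Λ)) := by ring
      rw [h3]
      gcongr
  have hfin := (sum_le_sum hterm).trans_eq sum_add_distrib
  refine (hcard.trans (hfin.trans (add_le_add hs1 hs2))).trans ?_
  have hν0 : 0 ≤ ν := le_trans (mul_nonneg hL hV10) hLν
  have h1 : 0 ≤ C1 * C2 * ((H : ℝ) * V) * (k * k * ν) := by positivity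
  have h2 : C1 * C2 * ((k : ℝ) * k + 1) * (H * V) * (ν + η) =
      k * k * (C1 * C2 * ((H : ℝ) * V * η)) + C1 * C2 * ((H : ℝ) * V * (ν + η)) + C1 * C2 * ((H : ℝ) * V) * (k * k * ν) := by ring
  rw [h2]
  linarith

end NGEa

open Pool.Agent.Q117.LF.NscAux (Ro_mono) in
open NGEa in
theorem nge : St_NGE := by
  classical
  intro hQ hU hG hA k g R h hR hh1 hRh
  have hh0 : 0 < h := by
    have h1 : (1 : ℝ) ≤ R := by exact_mod_cast hR
    by_contra hcon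
    push Not at hcon
    nlinarith
  obtain ⟨t, ht, θ, hθ, c₀, hc₀, X0, hX0⟩ := hQ k R h hR hh1 hRh
  refine ⟨t, ht, θ, hθ, fun T hT => ?_⟩
  have hT1 : 1 ≤ T := ht.trans hT
  obtain ⟨C, hC, hper⟩ := per_fam hU hG hA k T hT1 h hh0 hh1
  obtain ⟨C'', hC''⟩ : ∃ C'' : ℝ, C'' = g * C + 1 := ⟨_, rfl⟩
  have hC''0 : 0 < C'' := by
    rw [hC'']
    positivity
  obtain ⟨ν, hν⟩ : ∃ ν : ℝ, ν = c₀ / (4 * C'') := ⟨_, rfl⟩
  have hν0 : 0 < ν := by rw [hν]; positivity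
  obtain ⟨X1, hX1⟩ := hper ν hν0
  refine ⟨c₀ / 2, by positivity, ν, hν0, max (max X0 X1) 1, ?_⟩
  intro X hX u q hu hq huX hqX v hcuv E hE hEX hadm e₀ he₀ F hF L hL z hz1 hz2 B H hH1 hH2 hsz
  simp only [max_le_iff] at hX
  obtain ⟨⟨hx0, hx1⟩, hx2⟩ := hX
  have hXpos : 0 < X := by linarith
  have hEn : E.Nonempty := ⟨e₀, he₀⟩
  have hlow := hX0 X hx0 u q hu hq v hcuv E hE hadm e₀ he₀ 1 0 le_rfl (by
    rw [Nat.cast_one]
    exact Real.one_le_rpow hx2 hθ.le) (by rw [Nat.cast_one, mul_one]; exact huX) (by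
    intro p hp hp1
    exact absurd (Nat.dvd_one.1 hp1) hp.one_lt.ne') B H hH1 hH2 hsz
  rw [mul_one, Nat.cast_one, div_one] at hlow
  obtain ⟨V, hV⟩ : ∃ V : ℝ, V = VG ⌊X⌋₊ u q E := ⟨_, rfl⟩
  rw [← hV] at hlow ⊢
  have hV0 : 0 ≤ V := hV ▸ VG_nonneg _ _ _ _
  -- the bad numbers
  obtain ⟨Bd, hB⟩ : ∃ Bd : Fin g → Finset ℕ, Bd = fun γ => BadG (X ^ (1 / (T : ℝ))) (L γ) u q v E (F γ) B H := ⟨_, rfl⟩
  have hBc : ∀ γ, ((Bd γ).card : ℝ) ≤ C * ((H : ℝ) * V) * (2 * ν) := by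
    intro γ
    obtain ⟨f1, f2, f3, f4⟩ := hF γ
    obtain ⟨l1, l2, l3⟩ := hL γ
    have h1 := hX1 X hx1 u q hu hq hqX v hcuv E hE hEn hEX (F γ) f1 f2 f3 f4 (L γ) l1 l2 ν l3 B H hH1 hH2
    rw [hB, hV]
    refine h1.trans (le_of_eq ?_)
    ring
  have hUc : (((univ : Finset (Fin g)).biUnion Bd).card : ℝ) ≤ c₀ / 2 * ((H : ℝ) * V) := by
    have h1 : (((univ : Finset (Fin g)).biUnion Bd).card : ℝ) ≤ ∑ γ, ((Bd γ).card : ℝ) := by
      exact_mod_cast card_biUnion_le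
    refine h1.trans ((sum_le_sum fun γ _ => hBc γ).trans ?_)
    rw [sum_const, card_univ, Fintype.card_fin, nsmul_eq_mul]
    have h2 : (g : ℝ) * C ≤ C'' := by rw [hC'']; linarith
    have h3 : c₀ / 2 * ((H : ℝ) * V) = C'' * ((H : ℝ) * V) * (2 * ν) := by
      rw [hν]
      field_simp
      ring
    have h4 : (g : ℝ) * (C * ((H : ℝ) * V) * (2 * ν)) = (g * C) * ((H : ℝ) * V) * (2 * ν) := by ring
    rw [h3, h4]
    gcongr
  have hsub : PtsA u q v E e₀ R 1 0 (X ^ (h / 6)) (X ^ (1 / (t : ℝ))) B H \ (univ : Finset (Fin g)).biUnion Bd ⊆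
      PtsE u q v E e₀ R (X ^ (h / 6)) z L F B H := by
    intro n hn
    rw [Finset.mem_sdiff] at hn
    obtain ⟨hn1, hn2⟩ := hn
    rw [PtsA, mem_filter] at hn1
    obtain ⟨h1, _, h5, h6, h8⟩ := hn1
    rw [PtsE, mem_filter]
    refine ⟨h1, h5, h6, fun e he => Ro_mono hz2 (h8 e he), fun γ s hs hro => ?_⟩
    by_contra hcon
    refine hn2 ?_
    rw [mem_biUnion]
    refine ⟨γ, mem_univ _, ?_⟩
    rw [hB]
    simp only [BadG, mem_filter]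
    exact ⟨h1, fun e he => Ro_mono (hz1.trans hz2) (h8 e he), s, hs, fun f hf => Ro_mono hz1 (hro f hf), hcon⟩
  have h1 := card_le_card hsub
  have h2 := le_card_sdiff ((univ : Finset (Fin g)).biUnion Bd) (PtsA u q v E e₀ R 1 0 (X ^ (h / 6)) (X ^ (1 / (t : ℝ))) B H)
  have h3 : ((PtsA u q v E e₀ R 1 0 (X ^ (h / 6)) (X ^ (1 / (t : ℝ))) B H).card : ℝ) ≤
      ((PtsE u q v E e₀ R (X ^ (h / 6)) z L F B H).card : ℝ) + (((univ : Finset (Fin g)).biUnion Bd).card : ℝ) := by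
    have : (PtsA u q v E e₀ R 1 0 (X ^ (h / 6)) (X ^ (1 / (t : ℝ))) B H).card ≤
        (PtsE u q v E e₀ R (X ^ (h / 6)) z L F B H).card + ((univ : Finset (Fin g)).biUnion Bd).card := by
      omega
    exact_mod_cast this
  have h4 : c₀ * ((H : ℝ) * V) = c₀ / 2 * ((H : ℝ) * V) + c₀ / 2 * ((H : ℝ) * V) := by ring
  linarith

end Pool.Agent.Q117.AP
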