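import Pool.Agent.Q117.AP.Stm2
import Pool.Agent.Y843.HG.VGold

/-!
Job PAT of project AP: every modulus, every class, every pattern.
-/

set_option autoImplicit false

namespace Pool.Agent.Q117.AP.PATa

open Finset Filter
open Pool.Agent.Q117.LF (Ro oF)
open Pool.Agent.Y843.HG (V1 V1_bounds V1_pos fac1)
open Pool.Agent.Y843.HS (Pr Pr_mem Pr_prime)

theorem oF_single (e : ℤ) (p : ℕ) : oF {e} p = 1 := by
  unfold oF
  rw [image_singleton, card_singleton]

theorem oF_le (E : Finset ℤ) {p : ℕ} (hp : 0 < p) : oF E p ≤ p := by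
  unfold oF
  have hp' : (0 : ℤ) < p := by exact_mod_cast hp
  have h1 : E.image (fun e : ℤ => e % (p : ℤ)) ⊆ Ico (0 : ℤ) p := by
    intro x hx
    obtain ⟨e, -, rfl⟩ := mem_image.1 hx
    rw [mem_Ico]
    exact ⟨Int.emod_nonneg _ hp'.ne', Int.emod_lt_of_pos _ hp'⟩
  calc _ ≤ (Ico (0 : ℤ) p).card := card_le_card h1
    _ = p := by simp

theorem fac_bd (E : Finset ℤ) {p : ℕ} (hp : p.Prime) :
    0 ≤ 1 - (oF E p : ℝ) / p ∧ 1 - (oF E p : ℝ) / p ≤ 1 := by
  have hp' : (0 : ℝ) < p := by exact_mod_cast hp.pos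
  have h1 : (oF E p : ℝ) / p ≤ 1 := by
    rw [div_le_one hp']
    exact_mod_cast oF_le E hp.pos
  have h2 : (0 : ℝ) ≤ (oF E p : ℝ) / p := by positivity
  constructor <;> linarith

theorem VQ_nonneg (y q : ℕ) (E : Finset ℤ) : 0 ≤ VQ y q E := by
  unfold VQ
  exact prod_nonneg fun p hp => (fac_bd E (mem_filter.1 hp).2.1).1

theorem VG_eq (y q : ℕ) (E : Finset ℤ) : VG y q q E = VQ y q E := by
  unfold VG VQ oG
  refine prod_congr rfl fun p hp => ?_
  rw [if_neg (mem_filter.1 hp).2.2]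

/-- the product of `1 - 1 / p` over the primes `p ≤ y` not dividing `q` -/
noncomputable def Q1 (y q : ℕ) : ℝ :=
  ∏ p ∈ (Icc 1 y).filter (fun p : ℕ => p.Prime ∧ ¬ p ∣ q), (1 - 1 / (p : ℝ))

theorem Q1_pos (y q : ℕ) : 0 < Q1 y q := by
  unfold Q1
  exact prod_pos fun p hp => by
    have := (fac1 (mem_filter.1 hp).2.1).1
    linarith

theorem VQ_single (y q : ℕ) (e : ℤ) : VQ y q {e} = Q1 y q := by
  unfold VQ Q1
  refine prod_congr rfl fun p _ => ?_
  rw [oF_single, Nat.cast_one]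

theorem tot_eq {q : ℕ} (hq : 1 ≤ q) :
    (Nat.totient q : ℝ) / q = ∏ p ∈ q.primeFactors, (1 - 1 / (p : ℝ)) := by
  have h1 := congrArg (fun x : ℚ => (x : ℝ)) (Nat.totient_eq_mul_prod_factors q)
  push_cast at h1
  have hq' : (q : ℝ) ≠ 0 := by
    have : (0 : ℝ) < q := by exact_mod_cast hq
    exact this.ne'
  rw [h1, mul_div_cancel_left₀ _ hq']
  exact prod_congr rfl fun p _ => by rw [one_div]

theorem Q1_mul {y q : ℕ} (hq : 1 ≤ q) (hqy : q ≤ y) :
    Q1 y q * ((Nat.totient q : ℝ) / q) = V1 y := by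
  rw [tot_eq hq]
  unfold Q1 V1
  have h1 : Pr 0 y = (Icc 1 y).filter (fun p : ℕ => p.Prime ∧ ¬ p ∣ q) ∪ q.primeFactors := by
    ext p
    rw [mem_union, mem_filter, mem_Icc, Pr_mem, Nat.mem_primeFactors]
    constructor
    · rintro ⟨⟨h1, h2⟩, h3⟩
      by_cases h : p ∣ q
      · exact Or.inr ⟨h3, h, by omega⟩
      · exact Or.inl ⟨⟨by omega, h2⟩, h3, h⟩
    · rintro (⟨⟨h1, h2⟩, h3, -⟩ | ⟨h1, h2, h3⟩)
      · exact ⟨⟨by omega, h2⟩, h3⟩
      · exact ⟨⟨h1.pos, (Nat.le_of_dvd (by omega) h2).trans hqy⟩, h1⟩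
  rw [h1, prod_union]
  rw [disjoint_left]
  intro p hp hp'
  exact (mem_filter.1 hp).2.2 (Nat.dvd_of_mem_primeFactors hp')

theorem tot_pos {q : ℕ} (hq : 1 ≤ q) : 0 < (Nat.totient q : ℝ) / q := by
  have h1 : (0 : ℝ) < Nat.totient q := by exact_mod_cast Nat.totient_pos.2 hq
  have h2 : (0 : ℝ) < q := by exact_mod_cast hq
  positivity

theorem tot_le_one {q : ℕ} (hq : 1 ≤ q) : (Nat.totient q : ℝ) / q ≤ 1 := by
  have h2 : (0 : ℝ) < q := by exact_mod_cast hq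
  rw [div_le_one h2]
  exact_mod_cast Nat.totient_le q

/-- Mertens: `(φ(q) / q) log y` times the product is bounded -/
theorem Q1_le : ∃ C : ℝ, 0 < C ∧ ∀ y q : ℕ, 2 ≤ y → 1 ≤ q → q ≤ y →
    (Nat.totient q : ℝ) / q * Real.log y * Q1 y q ≤ C := by
  obtain ⟨c, C, hc, hC, hV⟩ := V1_bounds
  refine ⟨C, hC, fun y q hy hq hqy => ?_⟩
  have hl : 0 < Real.log y := Real.log_pos (by exact_mod_cast (show 1 < y by omega))
  have h1 := (hV y hy).2
  rw [← Q1_mul hq hqy, le_div_iff₀ hl] at h1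
  calc _ = Q1 y q * ((Nat.totient q : ℝ) / q) * Real.log y := by ring
    _ ≤ C := h1

theorem fin_surj {k : ℕ} {E : Finset ℤ} (hE : E.card ≤ k) {e₀ : ℤ} (he : e₀ ∈ E) :
    ∃ f : Fin k → ℤ, (∀ i, f i ∈ E) ∧ ∀ e ∈ E, ∃ i, f i = e := by
  classical
  refine ⟨fun i => if h : i.val < E.card then (E.equivFin.symm ⟨i.val, h⟩ : ℤ) else e₀, ?_, ?_⟩
  · intro i
    dsimp only
    split_ifs with h
    · exact (E.equivFin.symm ⟨i.val, h⟩).2
    · exact he
  · intro e h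
    have h1 := (E.equivFin ⟨e, h⟩).2
    refine ⟨⟨(E.equivFin ⟨e, h⟩).val, h1.trans_le hE⟩, ?_⟩
    dsimp only
    rw [dif_pos h1]
    simp

theorem ev_pow {s : ℝ} (hs : 0 < s) (M : ℝ) : ∃ x0 : ℝ, ∀ x : ℝ, x0 ≤ x → M ≤ x ^ s :=
  eventually_atTop.1 ((tendsto_rpow_atTop hs).eventually_ge_atTop M)

end Pool.Agent.Q117.AP.PATa

namespace Pool.Agent.Q117.AP

open Finset Filter PATa
open Pool.Agent.Q117.LF (Ro oF)

theorem pat : St_PAT := by
  intro hN k R β hR hβ hcond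
  have hR' : (1 : ℝ) ≤ R := by exact_mod_cast hR
  have hA : (0 : ℝ) < 3 * (8 * R - 1) := by linarith
  have hb1 : (0 : ℝ) < 1 + β := by linarith
  set g0 : ℝ := β / (1 + β) with hg0
  have hg0p : 0 < g0 := by positivity
  have hg01 : g0 < 1 := by rw [hg0, div_lt_one hb1]; linarith
  have hgb : g0 * (1 + β) = β := by rw [hg0]; field_simp
  have hAg : 25 / (3 * (8 * (R : ℝ) - 1)) < g0 := by
    rw [div_lt_iff₀ hA]
    have h1 : 25 * (1 + β) < (3 * (8 * R - 1) * g0) * (1 + β) := by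
      rw [mul_assoc (3 * (8 * (R : ℝ) - 1)), hgb]
      exact hcond
    have h2 := lt_of_mul_lt_mul_right h1 hb1.le
    linarith
  set h : ℝ := max (6 / 7 * g0) ((25 / (3 * (8 * (R : ℝ) - 1)) + g0) / 2) with hh
  have hlt : h < g0 := by
    rw [hh]
    exact max_lt (by linarith) (by linarith)
  have hge : 6 / 7 * g0 ≤ h := le_max_left _ _
  have hh1 : h ≤ 1 := by linarith
  have hh0 : 0 < h := by linarith
  have hh25 : 25 < 3 * (8 * (R : ℝ) - 1) * h := by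
    have h1 : (25 / (3 * (8 * (R : ℝ) - 1)) + g0) / 2 ≤ h := le_max_right _ _
    have h2 : 25 / (3 * (8 * (R : ℝ) - 1)) < h := by linarith
    rw [div_lt_iff₀ hA] at h2
    linarith
  obtain ⟨t, ht, θ, hθ, hT⟩ := hN k k R h hR hh1 hh25
  have hc1 : 1 ≤ ⌈1 + β⌉₊ := Nat.one_le_ceil_iff.2 hb1
  obtain ⟨c', hc', ν', hν', X0, hX⟩ := hT (⌈1 + β⌉₊ * t) (Nat.le_mul_of_pos_left t hc1)
  obtain ⟨C, hC, hQ⟩ := Q1_le
  have hs1 : 0 < β - (1 + β) * h := by nlinarith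
  obtain ⟨x1, hx1⟩ := ev_pow hs1 2
  obtain ⟨x2, hx2⟩ := ev_pow hβ 2
  obtain ⟨x3, hx3⟩ := ev_pow hθ 3
  refine ⟨t, ht, c' / 2, by positivity, min (ν' / C) 1, lt_min (by positivity) one_pos,
    max 2 (max ⌈X0⌉₊ (max ⌈x1⌉₊ (max ⌈x2⌉₊ ⌈x3⌉₊))), ?_⟩
  intro d hd a ha had hcop E hEk hEd hAd e₀ he₀
  simp only [max_le_iff] at hd
  obtain ⟨hd2, hdX, hd1', hd2', hd3'⟩ := hd
  have hdr : (2 : ℝ) ≤ d := by exact_mod_cast hd2
  have hd0 : (0 : ℝ) < d := by linarith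
  have hd1 : (1 : ℝ) ≤ d := by linarith
  have hxx1 : 2 ≤ (d : ℝ) ^ (β - (1 + β) * h) := hx1 d ((Nat.le_ceil _).trans (by exact_mod_cast hd1'))
  have hxx2 : 2 ≤ (d : ℝ) ^ β := hx2 d ((Nat.le_ceil _).trans (by exact_mod_cast hd2'))
  have hxx3 : 3 ≤ (d : ℝ) ^ θ := hx3 d ((Nat.le_ceil _).trans (by exact_mod_cast hd3'))
  have hX0 : X0 ≤ d := (Nat.le_ceil _).trans (by exact_mod_cast hdX)
  set X : ℝ := (d : ℝ) ^ (1 + β) with hXdef
  have hXd : (d : ℝ) ≤ X := by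
    calc (d : ℝ) = (d : ℝ) ^ (1 : ℝ) := (Real.rpow_one _).symm
      _ ≤ X := Real.rpow_le_rpow_of_exponent_le hd1 (by linarith)
  have hXe : X = d * (d : ℝ) ^ β := by
    rw [hXdef, Real.rpow_add hd0, Real.rpow_one]
  have hbX : (d : ℝ) ^ β ≤ X := by
    rw [hXe]
    exact le_mul_of_one_le_left (by positivity) hd1
  have hX1 : 1 ≤ X := hd1.trans hXd
  have hXp : 0 < X := by linarith
  set H : ℕ := ⌊(d : ℝ) ^ β⌋₊ with hHdef
  have hHle : (H : ℝ) ≤ (d : ℝ) ^ β := Nat.floor_le (by positivity)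
  have hHge : (d : ℝ) ^ β / 2 ≤ H := by
    have := Nat.lt_floor_add_one ((d : ℝ) ^ β)
    rw [← hHdef] at this
    linarith
  have hXh : X ^ h ≤ H := by
    refine le_trans ?_ hHge
    rw [hXdef, ← Real.rpow_mul hd0.le, le_div_iff₀ (by norm_num : (0 : ℝ) < 2)]
    have : (d : ℝ) ^ β = (d : ℝ) ^ ((1 + β) * h) * (d : ℝ) ^ (β - (1 + β) * h) := by
      rw [← Real.rpow_add hd0]
      congr 1
      ring
    rw [this]
    gcongr
  -- the surjection to `E`
  obtain ⟨f, hf, hfs⟩ := fin_surj hEk he₀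
  have hk : 1 ≤ k := (card_pos.2 ⟨e₀, he₀⟩).trans_le hEk
  set ν : ℝ := min (ν' / C) 1 with hν
  have hνp : 0 < ν := lt_min (by positivity) one_pos
  have hlog : 0 ≤ Real.log d := Real.log_nonneg hd1
  have hdn : 1 ≤ d := by omega
  have htp := tot_pos hdn
  have ht1 := tot_le_one hdn
  set L : ℝ := ν * ((Nat.totient d : ℝ) / d * Real.log d) with hL
  have hL0 : 0 ≤ L := by positivity
  have hflo : d ≤ ⌊X⌋₊ := Nat.le_floor hXd
  have hLX : L ≤ X := by
    have h1 : (Nat.totient d : ℝ) / d * Real.log d ≤ 1 * Real.log d := by gcongr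
    have h2 : Real.log d ≤ d := (Real.log_le_sub_one_of_pos hd0).trans (by linarith)
    calc L ≤ 1 * (1 * Real.log d) := by
          rw [hL]
          exact mul_le_mul (min_le_right _ _) h1 (by positivity) (by norm_num)
      _ ≤ X := by linarith
  have hLV : L * Q1 ⌊X⌋₊ d ≤ ν' := by
    have h1 := hQ ⌊X⌋₊ d (hd2.trans hflo) hdn hflo
    have h2 : Real.log d ≤ Real.log (⌊X⌋₊ : ℕ) := Real.log_le_log hd0 (by exact_mod_cast hflo)
    have h3 := (Q1_pos ⌊X⌋₊ d).le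
    calc L * Q1 ⌊X⌋₊ d = ν * ((Nat.totient d : ℝ) / d * Real.log d * Q1 ⌊X⌋₊ d) := by rw [hL]; ring
      _ ≤ ν * ((Nat.totient d : ℝ) / d * Real.log (⌊X⌋₊ : ℕ) * Q1 ⌊X⌋₊ d) := by gcongr
      _ ≤ ν * C := by gcongr
      _ ≤ ν' / C * C := by
          gcongr
          exact min_le_left _ _
      _ = ν' := by field_simp
  have hCuv : Cuv d d (a : ℤ) := by
    intro p hp hpd
    refine ⟨hpd, fun hpa => ?_⟩
    have h1 : p ∣ a := by exact_mod_cast hpa
    have h2 : p ∣ 1 := by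
      rw [← hcop]
      exact Nat.dvd_gcd h1 hpd
    exact hp.one_lt.ne' (Nat.dvd_one.1 h2)
  have htR : (0 : ℝ) < t := by exact_mod_cast ht
  have hTR : (0 : ℝ) < ((⌈1 + β⌉₊ * t : ℕ) : ℝ) := by
    push_cast
    have : (1 : ℝ) ≤ (⌈1 + β⌉₊ : ℕ) := by exact_mod_cast hc1
    positivity
  have key := hX X (hX0.trans hXd) d d hdn hdn hXd hXd (a : ℤ) hCuv E hEk
    (fun e he => (hEd e he).trans hbX) hAd e₀ he₀ (fun γ : Fin k => ({f γ} : Finset ℤ))
    (fun γ => ⟨singleton_nonempty _, by rw [card_singleton]; exact hk, ?_, ?_⟩)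
    (fun _ => L) (fun γ => ⟨hL0, hLX, by rw [VQ_single]; exact hLV⟩)
    ((d : ℝ) ^ (1 / (t : ℝ))) ?_ ?_ 0 H hXh (hHle.trans hbX) ?_
  · rw [VG_eq] at key
    have hV := VQ_nonneg ⌊X⌋₊ d E
    have hsub : PtsE d d a E e₀ R (X ^ (h / 6)) ((d : ℝ) ^ (1 / (t : ℝ))) (fun _ => L)
        (fun γ : Fin k => ({f γ} : Finset ℤ)) 0 H ⊆
        Trm d a E e₀ R ((d : ℝ) ^ (β / 7)) ((d : ℝ) ^ (1 / (t : ℝ))) L H := by
      classical
      intro n hn
      unfold PtsE at hn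
      unfold Trm
      rw [mem_filter, mem_Ioc] at hn
      rw [mem_filter, mem_Icc]
      obtain ⟨⟨hn1, hn2⟩, hn3, hn4, hn5, hn6⟩ := hn
      have hg : ∀ e : ℤ, gv d d a e n = (a : ℤ) + d * (n + e) := by
        intro e
        unfold gv
        ring
      rw [hg] at hn3
      refine ⟨⟨by omega, by omega⟩, hn3, ?_, ?_, ?_⟩
      · intro p hp hpd
        rw [← hg] at hpd
        refine le_trans ?_ (hn4 p hp hpd)
        rw [hXdef, ← Real.rpow_mul hd0.le]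
        apply Real.rpow_le_rpow_of_exponent_le hd1
        have : 6 / 7 * (g0 * (1 + β)) ≤ h * (1 + β) := by
          calc _ = 6 / 7 * g0 * (1 + β) := by ring
            _ ≤ _ := by gcongr
        rw [hgb] at this
        linarith
      · intro e he
        rw [← hg]
        exact hn5 e he
      · intro e he s hs hsE hRo
        obtain ⟨γ, hγ⟩ := hfs e he
        have h1 := hn6 γ (s - e) hs ?_ (f γ) (mem_singleton_self _)
        · rw [hγ, sub_add_cancel] at h1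
          exact hsE h1
        · intro f' hf'
          rw [mem_singleton] at hf'
          rw [hf', hγ, sub_add_cancel, hg]
          exact hRo
    have h3 : ((PtsE d d a E e₀ R (X ^ (h / 6)) ((d : ℝ) ^ (1 / (t : ℝ))) (fun _ => L)
        (fun γ : Fin k => ({f γ} : Finset ℤ)) 0 H).card : ℝ) ≤
        (Trm d a E e₀ R ((d : ℝ) ^ (β / 7)) ((d : ℝ) ^ (1 / (t : ℝ))) L H).card := by
      exact_mod_cast card_le_card hsub
    refine le_trans ?_ (key.trans h3)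
    calc c' / 2 * ((d : ℝ) ^ β * VQ ⌊X⌋₊ d E) = c' * ((d : ℝ) ^ β / 2 * VQ ⌊X⌋₊ d E) := by ring
      _ ≤ c' * (H * VQ ⌊X⌋₊ d E) := by gcongr
  · intro f' hf'
    rw [mem_singleton.1 hf']
    exact (hEd _ (hf γ)).trans hbX
  · intro p hp _
    refine ⟨1 - f γ, fun e he hdv => ?_⟩
    rw [mem_singleton.1 he, sub_add_cancel] at hdv
    have h1 : p ∣ 1 := by exact_mod_cast hdv
    exact hp.one_lt.ne' (Nat.dvd_one.1 h1)
  · rw [hXdef, ← Real.rpow_mul hd0.le]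
    apply Real.rpow_le_rpow_of_exponent_le hd1
    rw [mul_one_div, div_le_div_iff₀ hTR htR]
    push_cast
    have := Nat.le_ceil (1 + β)
    nlinarith
  · rw [hXdef, ← Real.rpow_mul hd0.le]
    apply Real.rpow_le_rpow_of_exponent_le hd1
    have : 0 < 1 / (t : ℝ) := by positivity
    nlinarith
  · intro n hn
    rw [mem_Ioc] at hn
    have hnH : (n : ℝ) ≤ (d : ℝ) ^ β := by
      have : (n : ℝ) ≤ H := by exact_mod_cast (show n ≤ H by omega)
      exact this.trans hHle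
    have har : (a : ℝ) ≤ d := by exact_mod_cast had
    have h1 : |((gv d d a e₀ n : ℤ) : ℝ)| ≤ 3 * X := by
      unfold gv
      push_cast
      have e1 : |(d : ℝ) * n| ≤ X := by
        rw [abs_of_nonneg (by positivity), hXe]
        gcongr
      have e2 : |(a : ℝ)| ≤ X := by
        rw [abs_of_nonneg (by positivity)]
        linarith
      have e3 : |(d : ℝ) * e₀| ≤ X := by
        rw [abs_mul, abs_of_pos hd0, hXe]
        have := hEd e₀ he₀
        gcongr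
      calc _ ≤ |(d : ℝ) * n + a| + |(d : ℝ) * e₀| := abs_add_le _ _
        _ ≤ |(d : ℝ) * n| + |(a : ℝ)| + |(d : ℝ) * e₀| := by
            have := abs_add_le ((d : ℝ) * n) a
            linarith
        _ ≤ 3 * X := by linarith
    refine h1.trans ?_
    rw [Real.rpow_add hXp, Real.rpow_one, mul_comm (3 : ℝ)]
    gcongr
    exact hxx3.trans (Real.rpow_le_rpow hd0.le hXd hθ.le)

end Pool.Agent.Q117.AP
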