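import Pool.Agent.Q117.AP.Stm2
import Pool.Agent.Q117.AP.Pat
import Pool.Agent.Q117.AP.Cls
import Pool.Agent.Q253.Thin.Int

/-!
Project AP (helper117), job PRF: the number of the classes with a given profile.
-/

set_option autoImplicit false

namespace Pool.Agent.Q117.AP.PRFa

open Finset Filter
open Pool.Agent.Q117.LF (Ro oF)
open Pool.Agent.Q253.Thin (SysZ VZ_low)
open Pool.Agent.Y843.HS (Pr VV Pr_mem Pr_prime)

theorem oF_lt {F : Finset ℤ} {p : ℕ} (hp : 0 < p) (h : ∃ r : ℤ, ∀ e ∈ F, ¬ (p : ℤ) ∣ r + e) :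
    oF F p + 1 ≤ p := by
  obtain ⟨r, hr⟩ := h
  unfold oF
  have hp' : (0 : ℤ) < p := by exact_mod_cast hp
  have h1 : insert ((-r) % (p : ℤ)) (F.image (fun e : ℤ => e % (p : ℤ))) ⊆ Finset.Ico (0 : ℤ) p := by
    intro x hx
    rw [mem_insert, mem_image] at hx
    rw [mem_Ico]
    rcases hx with rfl | ⟨e, -, rfl⟩
    · exact ⟨Int.emod_nonneg _ hp'.ne', Int.emod_lt_of_pos _ hp'⟩
    · exact ⟨Int.emod_nonneg _ hp'.ne', Int.emod_lt_of_pos _ hp'⟩
  have h2 : (-r) % (p : ℤ) ∉ F.image (fun e : ℤ => e % (p : ℤ)) := by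
    rw [mem_image]
    rintro ⟨e, he, h3⟩
    refine hr e he ?_
    have h5 : (p : ℤ) ∣ e - (-r) := Int.dvd_of_emod_eq_zero (by
      rw [Int.sub_emod, h3, sub_self, Int.zero_emod])
    have h6 : e - (-r) = r + e := by ring
    rwa [h6] at h5
  have h3 := card_le_card h1
  rw [Int.card_Ico, card_insert_of_notMem h2] at h3
  omega

theorem oG_le_k {k q : ℕ} {E : Finset ℤ} (hE : E.card ≤ k) (p : ℕ) : oG q E p ≤ k + 1 := by
  unfold oG
  split_ifs
  · omega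
  · have : oF E p ≤ E.card := card_image_le
    omega

theorem oG_lt {q : ℕ} {E : Finset ℤ} (h : AdQ q E) {p : ℕ} (hp : p.Prime) : oG q E p < p := by
  unfold oG
  split_ifs with hq
  · exact hp.one_lt
  · have := oF_lt hp.pos (h p hp hq)
    omega

theorem VG_one {a : ℕ} (ha : 1 ≤ a) (E : Finset ℤ) :
    VG a 1 a E = (Nat.totient a : ℝ) / a * VQ a a E := by
  rw [PATa.tot_eq ha]
  unfold VG VQ
  have h1 : (Icc 1 a).filter (fun p : ℕ => p.Prime ∧ ¬ p ∣ 1) =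
      a.primeFactors ∪ (Icc 1 a).filter (fun p : ℕ => p.Prime ∧ ¬ p ∣ a) := by
    ext p
    rw [mem_union, mem_filter, mem_filter, mem_Icc, Nat.mem_primeFactors]
    constructor
    · rintro ⟨h1, h2, -⟩
      by_cases h : p ∣ a
      · exact Or.inl ⟨h2, h, by omega⟩
      · exact Or.inr ⟨h1, h2, h⟩
    · rintro (⟨h1, h2, h3⟩ | ⟨h1, h2, -⟩)
      · exact ⟨⟨h1.one_le, Nat.le_of_dvd (by omega) h2⟩, h1, fun h => h1.one_lt.ne' (Nat.dvd_one.1 h)⟩
      · exact ⟨h1, h2, fun h => h2.one_lt.ne' (Nat.dvd_one.1 h)⟩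
  rw [h1, prod_union]
  · congr 1
    · refine prod_congr rfl fun p hp => ?_
      unfold oG
      rw [if_pos (Nat.dvd_of_mem_primeFactors hp), Nat.cast_one]
    · refine prod_congr rfl fun p hp => ?_
      unfold oG
      rw [if_neg (mem_filter.1 hp).2.2]
  · rw [disjoint_left]
    intro p hp hp'
    exact (mem_filter.1 hp').2.2 (Nat.dvd_of_mem_primeFactors hp)

theorem VG_low (k : ℕ) : ∃ c : ℝ, 0 < c ∧ ∀ a : ℕ, 2 ≤ a → ∀ E : Finset ℤ, E.card ≤ k → AdQ a E →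
    c / Real.log a ^ (k + 1) ≤ VG a 1 a E := by
  obtain ⟨c, hc, h⟩ := VZ_low (k + 1) (by omega)
  refine ⟨c, hc, fun a ha E hE hA => ?_⟩
  have h1 := h a ha (fun p => range (oG a E p)) ⟨?_, ?_, ?_⟩
  · refine h1.trans (le_of_eq ?_)
    unfold VV VG
    have h2 : Pr 0 a = (Icc 1 a).filter (fun p : ℕ => p.Prime ∧ ¬ p ∣ 1) := by
      ext p
      rw [Pr_mem, mem_filter, mem_Icc]
      constructor
      · rintro ⟨h1, h2⟩
        exact ⟨⟨by omega, h1.2⟩, h2, fun h => h2.one_lt.ne' (Nat.dvd_one.1 h)⟩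
      · rintro ⟨h1, h2, -⟩
        exact ⟨⟨by omega, h1.2⟩, h2⟩
    rw [h2]
    refine prod_congr rfl fun p _ => ?_
    rw [card_range]
  · intro p _
    rw [card_range]
    exact oG_le_k hE p
  · intro p hp
    rw [card_range]
    exact oG_lt hA hp
  · intro p hp c hc
    exact (mem_range.1 hc).trans (oG_lt hA hp)

theorem ev_size (θ : ℝ) (hθ : 0 < θ) : ∀ᶠ x : ℝ in atTop, x + x * Real.log x ≤ x ^ (1 + θ) := by
  have h1 := isLittleO_log_rpow_atTop hθ
  have h2 := (Asymptotics.isLittleO_iff.1 h1) (show (0 : ℝ) < 1 / 2 by norm_num)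
  have h3 : ∀ᶠ x : ℝ in atTop, 2 ≤ x ^ θ := (tendsto_rpow_atTop hθ).eventually_ge_atTop 2
  filter_upwards [h2, h3, eventually_ge_atTop 1] with x hx2 hx3 hx1
  have hx0 : (0 : ℝ) < x := by linarith
  rw [Real.norm_of_nonneg (Real.log_nonneg hx1), Real.norm_of_nonneg (by positivity)] at hx2
  rw [Real.rpow_add hx0, Real.rpow_one]
  nlinarith

theorem ev_cop (t k : ℕ) (ht : 1 ≤ t) (c : ℝ) (hc : 0 < c) : ∀ᶠ x : ℝ in atTop,
    t * x ^ (1 - 1 / (t : ℝ)) ≤ x * (c / Real.log x ^ (k + 1)) := by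
  have ht0 : (0 : ℝ) < t := by exact_mod_cast ht
  have hs : (0 : ℝ) < 1 / (t : ℝ) := by positivity
  have h1 := isLittleO_log_rpow_rpow_atTop (s := 1 / (t : ℝ)) ((k + 1 : ℕ) : ℝ) hs
  have h2 := (Asymptotics.isLittleO_iff.1 h1) (show (0 : ℝ) < c / t by positivity)
  filter_upwards [h2, eventually_gt_atTop 1] with x hx2 hx1
  have hx0 : (0 : ℝ) < x := by linarith
  have hl : 0 < Real.log x := Real.log_pos hx1
  rw [Real.norm_of_nonneg (by positivity), Real.norm_of_nonneg (by positivity), Real.rpow_natCast] at hx2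
  rw [Real.rpow_sub hx0, Real.rpow_one, mul_div_assoc', mul_div_assoc', div_le_div_iff₀ (by positivity) (by positivity)]
  have h3 : (t : ℝ) * Real.log x ^ (k + 1) ≤ c * x ^ (1 / (t : ℝ)) := by
    calc (t : ℝ) * Real.log x ^ (k + 1) ≤ t * (c / t * x ^ (1 / (t : ℝ))) := by gcongr
      _ = c * x ^ (1 / (t : ℝ)) := by field_simp
  calc (t : ℝ) * x * Real.log x ^ (k + 1) = x * (t * Real.log x ^ (k + 1)) := by ring
    _ ≤ x * (c * x ^ (1 / (t : ℝ))) := by gcongr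
    _ = x * c * x ^ (1 / (t : ℝ)) := by ring

end Pool.Agent.Q117.AP.PRFa

namespace Pool.Agent.Q117.AP

open Finset Filter PRFa
open Pool.Agent.Q117.LF (Ro oF)

theorem prf : St_PRF := by
  classical
  intro hN hU k
  obtain ⟨t, ht, θ, hθ, hT⟩ := hN (k + 1) 1 2 1 (by norm_num) le_rfl (by norm_num)
  obtain ⟨c', hc', ν', hν', X0, hX⟩ := hT t le_rfl
  obtain ⟨C', hC', X1, hX1⟩ := hU (k + 1) t 1 ht one_pos le_rfl
  obtain ⟨C1, hC1, hQ⟩ := PATa.Q1_le
  obtain ⟨cV, hcV, hVl⟩ := VG_low k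
  have hev := (((ev_size θ hθ).and (ev_cop t k ht (c' / 2 * cV) (by positivity))).and
    ((eventually_ge_atTop X0).and (eventually_ge_atTop X1)))
  obtain ⟨a0, ha0⟩ := eventually_atTop.1 (tendsto_natCast_atTop_atTop.eventually hev)
  refine ⟨t, ht, c' / 2, by positivity, C', hC', min (ν' / C1) 1, lt_min (by positivity) one_pos,
    max a0 2, ?_⟩
  intro a ha E hEk hEb hAd e₀ he₀
  obtain ⟨⟨hsize, hfin⟩, haX0, haX1⟩ := ha0 a ((le_max_left _ _).trans ha)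
  have ha2 : 2 ≤ a := (le_max_right _ _).trans ha
  have ha1 : 1 ≤ a := by omega
  have haR : (2 : ℝ) ≤ a := by exact_mod_cast ha2
  have hapos : (0 : ℝ) < a := by linarith
  have hlog : 0 ≤ Real.log a := Real.log_nonneg (by linarith)
  obtain ⟨ν, hν⟩ : ∃ ν : ℝ, ν = min (ν' / C1) 1 := ⟨_, rfl⟩
  rw [← hν] at hEb ⊢
  have hνp : 0 < ν := by rw [hν]; exact lt_min (by positivity) one_pos
  have hν1 : ν ≤ 1 := by rw [hν]; exact min_le_right _ _
  have hν2 : ν * C1 ≤ ν' := by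
    rw [hν, ← le_div_iff₀ hC1]
    exact min_le_left _ _
  have hφ := PATa.tot_le_one ha1
  have hφ0 := PATa.tot_pos ha1
  obtain ⟨D, hD⟩ : ∃ D : ℝ, D = ν * ((Nat.totient a : ℝ) / a * Real.log a) := ⟨_, rfl⟩
  rw [← hD] at hEb ⊢
  have hD0 : 0 ≤ D := by rw [hD]; positivity
  have hDlog : D ≤ Real.log a := by
    rw [hD]
    calc ν * ((Nat.totient a : ℝ) / a * Real.log a) ≤ 1 * (1 * Real.log a) := by gcongr
      _ = Real.log a := by ring
  have hDa : D ≤ a := hDlog.trans ((Real.log_le_sub_one_of_pos hapos).trans (by linarith))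
  have hfl : ⌊(a : ℝ)⌋₊ = a := Nat.floor_natCast a
  have hVG := VG_one ha1 E
  have hmain : (a : ℝ) * VG a 1 a E = Nat.totient a * VQ a a E := by
    rw [hVG]
    field_simp
  have hg : ∀ (e : ℤ) (b : ℕ), gv 1 a 0 e b = (b : ℤ) + a * e := by
    intro e b
    unfold gv
    push_cast
    ring
  have hCuv : Cuv 1 a 0 := by
    intro p hp h1
    exact absurd (Nat.dvd_one.1 h1) hp.one_lt.ne'
  have hsz : ∀ n ∈ Ioc 0 (0 + a), |((gv 1 a 0 e₀ n : ℤ) : ℝ)| ≤ (a : ℝ) ^ (1 + θ) := by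
    intro n hn
    rw [mem_Ioc, zero_add] at hn
    rw [hg]
    push_cast
    refine le_trans ?_ hsize
    have h2 : |(n : ℝ) + a * (e₀ : ℝ)| ≤ |(n : ℝ)| + |(a : ℝ) * (e₀ : ℝ)| := abs_add_le _ _
    have h3 : |(n : ℝ)| ≤ a := by
      rw [abs_of_nonneg (Nat.cast_nonneg n)]
      exact_mod_cast hn.2
    have h4 : |(a : ℝ) * (e₀ : ℝ)| ≤ a * Real.log a := by
      rw [abs_mul, abs_of_pos hapos]
      exact mul_le_mul_of_nonneg_left ((hEb e₀ he₀).trans hDlog) hapos.le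
    linarith
  constructor
  · -- the lower bound
    have hkey := hX a haX0 1 a le_rfl ha1 (by push_cast; linarith) le_rfl 0 hCuv E (by omega)
      (fun e he => (hEb e he).trans hDa) hAd e₀ he₀ (fun _ : Fin 1 => ({0} : Finset ℤ))
      (fun γ => ⟨singleton_nonempty _, by rw [card_singleton]; omega, ?_, ?_⟩)
      (fun _ => D) (fun γ => ⟨hD0, hDa, ?_⟩)
      ((a : ℝ) ^ (1 / (t : ℝ))) le_rfl le_rfl 0 a (by rw [Real.rpow_one]) le_rfl hsz
    · rw [hfl, hmain] at hkey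
      have hsub : PtsE 1 a 0 E e₀ 2 ((a : ℝ) ^ ((1 : ℝ) / 6)) ((a : ℝ) ^ (1 / (t : ℝ))) (fun _ => D)
          (fun _ : Fin 1 => ({0} : Finset ℤ)) 0 a ⊆
          Prf a E e₀ ((a : ℝ) ^ (1 / 6 : ℝ)) ((a : ℝ) ^ (1 / (t : ℝ))) D ∪
          (Icc 1 a).filter (fun b : ℕ => ∃ p : ℕ, p.Prime ∧ p ∣ a ∧ p ∣ b ∧
            (a : ℝ) ^ (1 / (t : ℝ)) < p) := by
        intro b hb
        obtain ⟨hb1, hb2, hb3, hb4, hb5⟩ := mem_filter.1 hb
        simp only [hg] at hb2 hb3 hb4 hb5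
        have hb1' : b ∈ Icc 1 a := by
          rw [mem_Ioc, zero_add] at hb1
          rw [mem_Icc]
          omega
        rw [mem_union]
        by_cases hcop : b.Coprime a
        · left
          refine mem_filter.2 ⟨hb1', hcop, hb2, hb3, fun s hs => ⟨fun hRo => ?_, fun hsE => hb4 s hsE⟩⟩
          have h1 := hb5 0 s hs ?_ 0 (mem_singleton_self _)
          · rwa [add_zero] at h1
          · intro f hf
            rw [mem_singleton.1 hf, add_zero]
            exact hRo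
        · right
          obtain ⟨p, hp, hpb, hpd⟩ := Nat.Prime.not_coprime_iff_dvd.1 hcop
          refine mem_filter.2 ⟨hb1', p, hp, hpd, hpb, ?_⟩
          refine hb4 e₀ he₀ p hp ?_
          exact dvd_add (Int.natCast_dvd_natCast.2 hpb) (Dvd.dvd.mul_right (Int.natCast_dvd_natCast.2 hpd) _)
      have hcard : ((PtsE 1 a 0 E e₀ 2 ((a : ℝ) ^ ((1 : ℝ) / 6)) ((a : ℝ) ^ (1 / (t : ℝ))) (fun _ => D)
          (fun _ : Fin 1 => ({0} : Finset ℤ)) 0 a).card : ℝ) ≤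
          ((Prf a E e₀ ((a : ℝ) ^ (1 / 6 : ℝ)) ((a : ℝ) ^ (1 / (t : ℝ))) D).card : ℝ) +
          t * (a : ℝ) ^ (1 - 1 / (t : ℝ)) := by
        have h1 := (card_le_card hsub).trans (card_union_le _ _)
        have h2 : ((PtsE 1 a 0 E e₀ 2 ((a : ℝ) ^ ((1 : ℝ) / 6)) ((a : ℝ) ^ (1 / (t : ℝ))) (fun _ => D)
            (fun _ : Fin 1 => ({0} : Finset ℤ)) 0 a).card : ℝ) ≤
            ((Prf a E e₀ ((a : ℝ) ^ (1 / 6 : ℝ)) ((a : ℝ) ^ (1 / (t : ℝ))) D).card : ℝ) +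
            (((Icc 1 a).filter (fun b : ℕ => ∃ p : ℕ, p.Prime ∧ p ∣ a ∧ p ∣ b ∧
              (a : ℝ) ^ (1 / (t : ℝ)) < p)).card : ℝ) := by exact_mod_cast h1
        have h3 := CLSa.card_bad ha2 ht
        linarith
      have h5 : (t : ℝ) * (a : ℝ) ^ (1 - 1 / (t : ℝ)) ≤ c' / 2 * (Nat.totient a * VQ a a E) := by
        refine hfin.trans ?_
        rw [← hmain]
        have h6 := hVl a ha2 E hEk hAd
        calc (a : ℝ) * (c' / 2 * cV / Real.log a ^ (k + 1))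
            = a * (c' / 2) * (cV / Real.log a ^ (k + 1)) := by ring
          _ ≤ a * (c' / 2) * VG a 1 a E := by gcongr
          _ = c' / 2 * (a * VG a 1 a E) := by ring
      have h9 := hkey.trans hcard
      linarith
    · intro f hf
      rw [mem_singleton.1 hf]
      simp
    · intro p hp _
      refine ⟨1, fun e he hdv => ?_⟩
      rw [mem_singleton.1 he, add_zero] at hdv
      have h1 : p ∣ 1 := by exact_mod_cast hdv
      exact hp.one_lt.ne' (Nat.dvd_one.1 h1)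
    · rw [hfl, PATa.VQ_single]
      have h1 := hQ a a ha2 ha1 le_rfl
      calc D * PATa.Q1 a a = ν * ((Nat.totient a : ℝ) / a * Real.log a * PATa.Q1 a a) := by rw [hD]; ring
        _ ≤ ν * C1 := by gcongr
        _ ≤ ν' := hν2
  · -- the upper bound
    have hup := hX1 a haX1 1 a le_rfl ha1 0 hCuv E (by omega) ⟨e₀, he₀⟩ 0 a
      (by rw [Real.rpow_one]) le_rfl
    rw [hfl, hmain] at hup
    refine le_trans (le_of_eq ?_) hup
    congr 1
    have hset : {b : ℕ | 1 ≤ b ∧ b ≤ a ∧ ∀ e ∈ E, Ro ((a : ℝ) ^ (1 / (t : ℝ))) ((b : ℤ) + a * e)} =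
        (((Ioc 0 (0 + a)).filter (fun n : ℕ => ∀ e ∈ E, Ro ((a : ℝ) ^ (1 / (t : ℝ))) (gv 1 a 0 e n)) :
          Finset ℕ) : Set ℕ) := by
      ext b
      simp only [hg, coe_filter, mem_Ioc, Set.mem_ofPred_eq, zero_add]
      constructor
      · rintro ⟨h1, h2, h3⟩
        exact ⟨⟨by omega, h2⟩, h3⟩
      · rintro ⟨⟨h1, h2⟩, h3⟩
        exact ⟨by omega, h2, h3⟩
    rw [hset, Set.ncard_coe_finset]

end Pool.Agent.Q117.AP
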