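import Pool.Agent.Q117.AP.Stm2

/-!
Project AP (helper117), job PRG (written by helper96).
-/

set_option autoImplicit false

namespace Pool.Agent.Q117.AP

open Finset Filter
open Pool.Agent.Q117.LF (Ro oF)
open Pool.Agent.Q117.GP (Rk)

theorem prg_cuv {q r : ℕ} (h : r.Coprime q) : Cuv q q ((r % q : ℕ) : ℤ) := by
  intro p hp hpq
  refine ⟨hpq, fun h1 => ?_⟩
  have h2 : p ∣ r % q := by exact_mod_cast h1
  have h3 : p ∣ r := (Nat.dvd_mod_iff hpq).1 h2
  have h4 : p ∣ Nat.gcd r q := Nat.dvd_gcd h3 hpq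
  rw [h] at h4
  exact hp.one_lt.ne' (Nat.dvd_one.1 h4)

theorem prg : St_PRG := by
  intro hRGG hRKS k R η κ hk hR hκ hη hcond
  obtain ⟨g, hg⟩ : ∃ g, g = η - κ := ⟨_, rfl⟩
  rw [← hg] at hcond ⊢
  have hR1 : (1 : ℝ) ≤ R := by exact_mod_cast hR
  have h8 : (0 : ℝ) < 3 * (8 * R - 1) := by nlinarith
  have hg0 : 25 / (3 * (8 * (R : ℝ) - 1)) < g := by
    rw [div_lt_iff₀ h8]
    linarith
  have hgpos : 0 < g := lt_trans (by positivity) hg0
  obtain ⟨h, hh1, hhg⟩ := exists_between (max_lt hg0 (by linarith : 6 / 7 * g < g))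
  have hh0 : 25 / (3 * (8 * (R : ℝ) - 1)) < h := lt_of_le_of_lt (le_max_left _ _) hh1
  have hh67 : 6 / 7 * g < h := lt_of_le_of_lt (le_max_right _ _) hh1
  have hh25 : 25 < 3 * (8 * (R : ℝ) - 1) * h := by
    rw [div_lt_iff₀ h8] at hh0
    linarith
  obtain ⟨t, ht, θ, hθ, hR2⟩ := hRGG k R h hk hR (by linarith) hh25
  refine ⟨t, ht, fun ε hε => ?_⟩
  obtain ⟨ε', hε'⟩ : ∃ ε', ε' = min (ε / 2) (min (1 - κ) 1) := ⟨_, rfl⟩
  have hε'0 : 0 < ε' := by
    rw [hε']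
    refine lt_min (by linarith) (lt_min (by linarith) one_pos)
  have hε'1 : ε' ≤ ε / 2 := by rw [hε']; exact min_le_left _ _
  have hε'2 : ε' ≤ 1 - κ := by rw [hε']; exact (min_le_right _ _).trans (min_le_left _ _)
  obtain ⟨c, hc, X0, hX0⟩ := hR2 ε' hε'0
  obtain ⟨X1, hX1⟩ := hRKS 1 one_pos le_rfl
  -- large `x`
  have e1 : ∀ᶠ x : ℝ in atTop, 10 ≤ x ^ g := (tendsto_rpow_atTop hgpos).eventually_ge_atTop 10
  have e2 : ∀ᶠ x : ℝ in atTop, 2 ≤ x ^ (g - h) := (tendsto_rpow_atTop (by linarith)).eventually_ge_atTop 2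
  have e3 : ∀ᶠ x : ℝ in atTop, 2 ≤ x ^ (ε / 2) := (tendsto_rpow_atTop (by linarith)).eventually_ge_atTop 2
  have e4 : ∀ᶠ x : ℝ in atTop, 2 + c * (Real.log x) ^ 2 ≤ x ^ θ := by
    have h1 : Tendsto (fun x : ℝ => (Real.log x) ^ 2 / x ^ θ) atTop (nhds 0) := by
      have h2 := (isLittleO_log_rpow_rpow_atTop 2 hθ).tendsto_div_nhds_zero
      refine h2.congr fun x => ?_
      norm_cast
    have h3 : Tendsto (fun x : ℝ => x ^ θ) atTop atTop := tendsto_rpow_atTop hθ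
    have h4 : ∀ᶠ x : ℝ in atTop, (Real.log x) ^ 2 / x ^ θ < 1 / (2 * c) :=
      h1.eventually (gt_mem_nhds (by positivity))
    filter_upwards [h4, h3.eventually_ge_atTop 4, eventually_gt_atTop 0] with x h5 h6 h7
    have h8 : 0 < x ^ θ := Real.rpow_pos_of_pos h7 _
    rw [div_lt_div_iff₀ h8 (by positivity)] at h5
    nlinarith
  obtain ⟨x0, hx0⟩ := eventually_atTop.1 ((((e1.and e2).and (e3.and e4)).and
    ((eventually_ge_atTop X0).and (eventually_ge_atTop X1))).and (eventually_ge_atTop 1))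
  refine ⟨c, hc, x0, fun x hx q hq hqx hω r hr E hE hEb hAd e₀ he₀ => ?_⟩
  obtain ⟨⟨⟨⟨e1, e2⟩, e3, e4⟩, e5, e6⟩, e7⟩ := hx0 x hx
  have hx00 : (0 : ℝ) < x := lt_of_lt_of_le one_pos e7
  have hq0 : (0 : ℝ) < q := by exact_mod_cast hq
  have hq1 : (1 : ℝ) ≤ q := by exact_mod_cast hq
  obtain ⟨hRk0, hRk1, -⟩ := hX1 x e6
  -- the window
  obtain ⟨A, hA⟩ : ∃ A, A = ⌊x⌋₊ := ⟨_, rfl⟩
  obtain ⟨Y, hY⟩ : ∃ Y, Y = ⌊x ^ η⌋₊ := ⟨_, rfl⟩
  obtain ⟨B, hB⟩ : ∃ B, B = A / q + 1 := ⟨_, rfl⟩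
  obtain ⟨H, hH⟩ : ∃ H, H = Y / q - 3 := ⟨_, rfl⟩
  have hxη : 0 < x ^ η := Real.rpow_pos_of_pos hx00 _
  have hAx : (A : ℝ) ≤ x := by rw [hA]; exact Nat.floor_le hx00.le
  have hAx' : x < A + 1 := by rw [hA]; exact Nat.lt_floor_add_one x
  have hYx : (Y : ℝ) ≤ x ^ η := by rw [hY]; exact Nat.floor_le hxη.le
  have hYx' : x ^ η < Y + 1 := by rw [hY]; exact Nat.lt_floor_add_one _
  have hqη : x ^ g ≤ x ^ η / q := by
    rw [le_div_iff₀ hq0, hg]
    calc x ^ (η - κ) * q ≤ x ^ (η - κ) * x ^ κ := by gcongr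
      _ = x ^ η := by rw [← Real.rpow_add hx00]; congr 1; ring
  have hYq : x ^ η / q - 2 ≤ ((Y / q : ℕ) : ℝ) := by
    have h1 : (Y : ℝ) < q * (((Y / q : ℕ) : ℝ) + 1) := by
      have := Nat.lt_mul_div_succ Y (by omega : 0 < q)
      exact_mod_cast this
    have h2 : x ^ η / q < ((Y / q : ℕ) : ℝ) + 1 + 1 / q := by
      rw [div_lt_iff₀ hq0, add_mul, one_div, inv_mul_cancel₀ hq0.ne']
      linarith
    have h3 : 1 / (q : ℝ) ≤ 1 := by
      rw [div_le_one hq0]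
      exact hq1
    linarith
  have hYq3 : 3 ≤ Y / q := by
    have h1 : (3 : ℝ) ≤ ((Y / q : ℕ) : ℝ) := by linarith
    exact_mod_cast h1
  have hHr : (H : ℝ) = ((Y / q : ℕ) : ℝ) - 3 := by
    rw [hH, Nat.cast_sub hYq3]
    norm_num
  have hHlow : x ^ η / (2 * q) ≤ H := by
    have h1 : x ^ η / (2 * q) = x ^ η / q / 2 := by
      field_simp
    rw [h1, hHr]
    linarith
  have hHh : x ^ h ≤ H := by
    refine le_trans ?_ hHlow
    have h1 : x ^ η / (2 * q) = x ^ η / q / 2 := by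
      field_simp
    have h2 : x ^ g = x ^ (g - h) * x ^ h := by
      rw [← Real.rpow_add hx00]
      congr 1
      ring
    have h3 : 0 < x ^ h := Real.rpow_pos_of_pos hx00 _
    rw [h1]
    nlinarith
  have hHx : (H : ℝ) ≤ x := by
    have h1 : H ≤ Y := by
      rw [hH]
      exact (Nat.sub_le _ _).trans (Nat.div_le_self _ _)
    have h2 : x ^ η ≤ x := by
      calc x ^ η ≤ x ^ (1 : ℝ) := Real.rpow_le_rpow_of_exponent_le e7 hη
        _ = x := Real.rpow_one x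
    have h3 : (H : ℝ) ≤ Y := by exact_mod_cast h1
    linarith
  have hwin : ∀ n ∈ Ioc B (B + H), A + 1 ≤ q * n + r % q ∧ q * n + r % q ≤ A + Y := by
    intro n hn
    rw [mem_Ioc] at hn
    have h1 := Nat.lt_mul_div_succ A (by omega : 0 < q)
    have h2 : q * (A / q) ≤ A := Nat.mul_div_le A q
    have h3 : q * (Y / q) ≤ Y := Nat.mul_div_le Y q
    have h4 : r % q < q := Nat.mod_lt _ (by omega)
    constructor
    · have h5 : q * (A / q + 1) ≤ q * n := Nat.mul_le_mul_left _ (by omega)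
      omega
    · have h5 : q * n ≤ q * (A / q + (Y / q) - 2) := Nat.mul_le_mul_left _ (by omega)
      have h6 : q * (A / q + (Y / q) - 2) + 2 * q = q * (A / q) + q * (Y / q) := by
        have h7 : A / q + Y / q = (A / q + Y / q - 2) + 2 := by omega
        rw [← mul_add]
        conv_rhs => rw [h7]
        ring
      omega
  have hxx : x ^ η ≤ x := by
    calc x ^ η ≤ x ^ (1 : ℝ) := Real.rpow_le_rpow_of_exponent_le e7 hη
      _ = x := Real.rpow_one x
  have hgv : ∀ (e : ℤ) (n : ℕ), gv q q ((r % q : ℕ) : ℤ) e n = ((q * n + r % q : ℕ) : ℤ) + q * e := by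
    intro e n
    unfold gv
    push_cast
    ring
  have hsize : ∀ n ∈ Ioc B (B + H), |((gv q q ((r % q : ℕ) : ℤ) e₀ n : ℤ) : ℝ)| ≤ x ^ (1 + θ) := by
    intro n hn
    obtain ⟨h1, h2⟩ := hwin n hn
    rw [hgv]
    have h3 : ((q * n + r % q : ℕ) : ℝ) ≤ 2 * x := by
      have : ((q * n + r % q : ℕ) : ℝ) ≤ ((A + Y : ℕ) : ℝ) := by exact_mod_cast h2
      rw [Nat.cast_add A Y] at this
      linarith
    have h4 : |(q : ℝ) * e₀| ≤ c * x * (Real.log x) ^ 2 := by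
      rw [abs_mul, abs_of_pos hq0]
      have h5 := hEb e₀ he₀
      have h6 : (Nat.totient q : ℝ) ≤ x := by
        have h7 : (Nat.totient q : ℝ) ≤ q := by exact_mod_cast Nat.totient_le q
        have h8 : x ^ κ ≤ x := by
          calc x ^ κ ≤ x ^ (1 : ℝ) := Real.rpow_le_rpow_of_exponent_le e7 (by linarith)
            _ = x := Real.rpow_one x
        linarith
      calc (q : ℝ) * |(e₀ : ℝ)| ≤ q * (c * ((Nat.totient q : ℝ) / q * Rk x)) := by gcongr
        _ = c * (Nat.totient q : ℝ) * Rk x := by field_simp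
        _ ≤ c * x * (Real.log x) ^ 2 := by gcongr
    calc |((((q * n + r % q : ℕ) : ℤ) + q * e₀ : ℤ) : ℝ)| = |((q * n + r % q : ℕ) : ℝ) + q * e₀| := by
          push_cast
          rfl
      _ ≤ |((q * n + r % q : ℕ) : ℝ)| + |(q : ℝ) * e₀| := abs_add_le _ _
      _ ≤ 2 * x + c * x * (Real.log x) ^ 2 := by
          rw [Nat.abs_cast]
          exact add_le_add h3 h4
      _ = x * (2 + c * (Real.log x) ^ 2) := by ring
      _ ≤ x * x ^ θ := by gcongr
      _ = x ^ (1 + θ) := by rw [Real.rpow_add hx00, Real.rpow_one]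
  have hq_le : (q : ℝ) ≤ x ^ (1 - ε') :=
    hqx.trans (Real.rpow_le_rpow_of_exponent_le e7 (by linarith))
  have key := hX0 x e5 q q hq hq hq_le ((r % q : ℕ) : ℤ) (prg_cuv hr) hω E hE hEb hAd e₀ he₀ B H hHh hHx hsize
  -- the injection
  have hinj : (PtsS q q ((r % q : ℕ) : ℤ) E e₀ R (x ^ (h / 6)) (x ^ (1 / (t : ℝ)))
      (c * ((Nat.totient q : ℝ) / q * Rk x)) (Real.log x) B H).card ≤
      (Prg q r E e₀ R (x ^ (g / 7)) (x ^ (1 / (t : ℝ))) (c * ((Nat.totient q : ℝ) / q * Rk x))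
        (Real.log x) x (x ^ η)).card := by
    refine Finset.card_le_card_of_injOn (fun n => q * n + r % q) ?_ ?_
    · intro n hn
      have hn' : n ∈ PtsS q q ((r % q : ℕ) : ℤ) E e₀ R (x ^ (h / 6)) (x ^ (1 / (t : ℝ)))
        (c * ((Nat.totient q : ℝ) / q * Rk x)) (Real.log x) B H := hn
      unfold PtsS at hn'
      simp only [mem_filter] at hn'
      obtain ⟨hn1, hn2, hn3, hn4, hn5⟩ := hn'
      obtain ⟨w1, w2⟩ := hwin n hn1
      show q * n + r % q ∈ Prg q r E e₀ R (x ^ (g / 7)) (x ^ (1 / (t : ℝ)))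
        (c * ((Nat.totient q : ℝ) / q * Rk x)) (Real.log x) x (x ^ η)
      unfold Prg
      simp only [mem_filter, mem_Icc]
      have w1' : ((A + 1 : ℕ) : ℝ) ≤ ((q * n + r % q : ℕ) : ℝ) := by exact_mod_cast w1
      have w2' : ((q * n + r % q : ℕ) : ℝ) ≤ ((A + Y : ℕ) : ℝ) := by exact_mod_cast w2
      rw [Nat.cast_add A 1, Nat.cast_one] at w1'
      rw [Nat.cast_add A Y] at w2'
      refine ⟨⟨by omega, Nat.le_floor (by linarith)⟩, by linarith, ?_, ?_, ?_, ?_, ?_⟩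
      · show (q * n + r % q) % q = r % q
        rw [Nat.mul_add_mod, Nat.mod_mod]
      · rw [hgv] at hn2
        exact hn2
      · intro p hp hpd
        have h1 := hn3 p hp (by rw [hgv]; exact hpd)
        refine le_trans (Real.rpow_le_rpow_of_exponent_le e7 ?_) h1
        linarith
      · intro e he
        have h1 := hn4 e he
        rw [hgv] at h1
        exact h1
      · intro s hs hsE
        have h1 := hn5 s hs hsE
        rw [hgv] at h1
        exact h1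
    · intro a _ b _ hab
      have h1 : q * a + r % q = q * b + r % q := hab
      have h2 : q * a = q * b := by omega
      exact Nat.eq_of_mul_eq_mul_left hq h2
  have hinj' : ((PtsS q q ((r % q : ℕ) : ℤ) E e₀ R (x ^ (h / 6)) (x ^ (1 / (t : ℝ)))
      (c * ((Nat.totient q : ℝ) / q * Rk x)) (Real.log x) B H).card : ℝ) ≤
      ((Prg q r E e₀ R (x ^ (g / 7)) (x ^ (1 / (t : ℝ))) (c * ((Nat.totient q : ℝ) / q * Rk x))
        (Real.log x) x (x ^ η)).card : ℝ) := by exact_mod_cast hinj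
  refine le_trans (le_trans ?_ key) hinj'
  have h1 : x ^ (η - ε) * 2 ≤ x ^ η * x ^ (-ε') := by
    calc x ^ (η - ε) * 2 ≤ x ^ (η - ε) * x ^ (ε / 2) := by gcongr
      _ = x ^ (η - ε / 2) := by rw [← Real.rpow_add hx00]; congr 1; ring
      _ ≤ x ^ (η + -ε') := Real.rpow_le_rpow_of_exponent_le e7 (by linarith)
      _ = x ^ η * x ^ (-ε') := Real.rpow_add hx00 _ _
  have h2 : 0 < x ^ (-ε') := Real.rpow_pos_of_pos hx00 _
  calc x ^ (η - ε) / q = (x ^ (η - ε) * 2) / (2 * q) := by field_simp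
    _ ≤ (x ^ η * x ^ (-ε')) / (2 * q) := by gcongr
    _ = x ^ η / (2 * q) * x ^ (-ε') := by ring
    _ ≤ H * x ^ (-ε') := by gcongr

end Pool.Agent.Q117.AP
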