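import Pool.Agent.Q117.AP.Pat

/-!
Job PRN of project AP: every class in every short interval, natural scale, a family of patterns.
-/

set_option autoImplicit false

namespace Pool.Agent.Q117.AP.PRNa

open Finset Filter
open Pool.Agent.Q117.AP.PATa
open Pool.Agent.Q117.LF (Ro oF)
open Pool.Agent.Y843.HG (V1 V1_bounds V1_pos fac1)
open Pool.Agent.Y843.HS (Pr Pr_mem Pr_prime)

theorem oF_eq {F : Finset ℤ} {p P : ℕ} (hP : ∀ f ∈ F, ∀ f' ∈ F, |f - f'| ≤ P) (hp : P < p) :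
    oF F p = F.card := by
  unfold oF
  refine card_image_of_injOn ?_
  intro f hf f' hf' h
  have h0 : f' ≡ f [ZMOD (p : ℤ)] := h.symm
  have h1 : (p : ℤ) ∣ f - f' := h0.dvd
  have h2 : |f - f'| < p := by
    have := hP f hf f' hf'
    omega
  have h3 := Int.eq_zero_of_abs_lt_dvd h1 h2
  linarith

theorem fac_pow {F : Finset ℤ} {p P : ℕ} (hpp : p.Prime) (hP : ∀ f ∈ F, ∀ f' ∈ F, |f - f'| ≤ P)
    (hp : P < p) : 1 - (oF F p : ℝ) / p ≤ (1 - 1 / (p : ℝ)) ^ F.card := by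
  rw [oF_eq hP hp]
  have h2 : (2 : ℝ) ≤ p := by exact_mod_cast hpp.two_le
  have h1 : -2 ≤ -(1 / (p : ℝ)) := by
    have : 1 / (p : ℝ) ≤ 1 / 2 := one_div_le_one_div_of_le (by norm_num) h2
    linarith
  have h3 := one_add_mul_le_pow h1 F.card
  calc 1 - (F.card : ℝ) / p = 1 + F.card * -(1 / (p : ℝ)) := by ring
    _ ≤ (1 + -(1 / (p : ℝ))) ^ F.card := h3
    _ = (1 - 1 / (p : ℝ)) ^ F.card := by ring

theorem VQ_le {F : Finset ℤ} {P : ℕ} (hP : ∀ f ∈ F, ∀ f' ∈ F, |f - f'| ≤ P) (y q : ℕ) :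
    VQ y q F * V1 P ^ F.card ≤ Q1 y q ^ F.card := by
  set S := (Icc 1 y).filter (fun p : ℕ => p.Prime ∧ ¬ p ∣ q) with hS
  have hpr : ∀ p ∈ S, p.Prime := fun p hp => (mem_filter.1 hp).2.1
  have hb : ∀ p ∈ S, 0 < 1 - 1 / (p : ℝ) ∧ 1 - 1 / (p : ℝ) ≤ 1 := fun p hp =>
    ⟨by have := (fac1 (hpr p hp)).1; linarith, (fac1 (hpr p hp)).2⟩
  have hV : VQ y q F = (∏ p ∈ S.filter (fun p => p ≤ P), (1 - (oF F p : ℝ) / p)) *
      ∏ p ∈ S.filter (fun p => ¬ p ≤ P), (1 - (oF F p : ℝ) / p) := by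
    unfold VQ
    rw [prod_filter_mul_prod_filter_not]
  have hQ : Q1 y q = (∏ p ∈ S.filter (fun p => p ≤ P), (1 - 1 / (p : ℝ))) *
      ∏ p ∈ S.filter (fun p => ¬ p ≤ P), (1 - 1 / (p : ℝ)) := by
    unfold Q1
    rw [prod_filter_mul_prod_filter_not]
  have h1 : ∏ p ∈ S.filter (fun p => p ≤ P), (1 - (oF F p : ℝ) / p) ≤ 1 :=
    prod_le_one (fun p hp => (fac_bd F (hpr p (mem_filter.1 hp).1)).1)
      (fun p hp => (fac_bd F (hpr p (mem_filter.1 hp).1)).2)
  have h1' : 0 ≤ ∏ p ∈ S.filter (fun p => p ≤ P), (1 - (oF F p : ℝ) / p) :=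
    prod_nonneg (fun p hp => (fac_bd F (hpr p (mem_filter.1 hp).1)).1)
  have h2 : ∏ p ∈ S.filter (fun p => ¬ p ≤ P), (1 - (oF F p : ℝ) / p) ≤
      (∏ p ∈ S.filter (fun p => ¬ p ≤ P), (1 - 1 / (p : ℝ))) ^ F.card := by
    rw [← prod_pow]
    refine prod_le_prod (fun p hp => (fac_bd F (hpr p (mem_filter.1 hp).1)).1) fun p hp => ?_
    exact fac_pow (hpr p (mem_filter.1 hp).1) hP (by have := (mem_filter.1 hp).2; omega)
  have h2' : 0 ≤ ∏ p ∈ S.filter (fun p => ¬ p ≤ P), (1 - (oF F p : ℝ) / p) :=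
    prod_nonneg (fun p hp => (fac_bd F (hpr p (mem_filter.1 hp).1)).1)
  have h3 : V1 P ≤ ∏ p ∈ S.filter (fun p => p ≤ P), (1 - 1 / (p : ℝ)) := by
    have hsub : S.filter (fun p => p ≤ P) ⊆ Pr 0 P := by
      intro p hp
      rw [mem_filter] at hp
      rw [Pr_mem]
      exact ⟨⟨(hpr p hp.1).pos, hp.2⟩, hpr p hp.1⟩
    unfold V1
    rw [← prod_sdiff hsub]
    apply mul_le_of_le_one_left
    · exact prod_nonneg fun p hp => (hb p (mem_filter.1 hp).1).1.le
    · refine prod_le_one (fun p hp => ?_) (fun p hp => ?_)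
      · have := (fac1 (Pr_prime (mem_sdiff.1 hp).1)).1
        linarith
      · exact (fac1 (Pr_prime (mem_sdiff.1 hp).1)).2
  have h4 : 0 < V1 P := V1_pos P
  have h3' : 0 ≤ ∏ p ∈ S.filter (fun p => p ≤ P), (1 - 1 / (p : ℝ)) := h4.le.trans h3
  rw [hV, hQ, mul_pow]
  calc _ = (∏ p ∈ S.filter (fun p => p ≤ P), (1 - (oF F p : ℝ) / p)) *
        (V1 P ^ F.card * ∏ p ∈ S.filter (fun p => ¬ p ≤ P), (1 - (oF F p : ℝ) / p)) := by ring
    _ ≤ 1 * (V1 P ^ F.card * ∏ p ∈ S.filter (fun p => ¬ p ≤ P), (1 - (oF F p : ℝ) / p)) := by gcongr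
    _ ≤ 1 * ((∏ p ∈ S.filter (fun p => p ≤ P), (1 - 1 / (p : ℝ))) ^ F.card *
        (∏ p ∈ S.filter (fun p => ¬ p ≤ P), (1 - 1 / (p : ℝ))) ^ F.card) := by gcongr
    _ = _ := by rw [one_mul]

/-- if the classes of `F` cover everything for some `p ∤ q` then some value is divisible by `p` -/
theorem not_adq {q : ℕ} {F : Finset ℤ} (h : ¬ AdQ q F) :
    ∃ p : ℕ, p.Prime ∧ p ≤ F.card ∧ ∀ m s : ℤ, ∃ f ∈ F, (p : ℤ) ∣ m + q * (s + f) := by
  unfold AdQ at h
  push Not at h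
  obtain ⟨p, hp, hpq, hcov⟩ := h
  refine ⟨p, hp, ?_, ?_⟩
  · have hp' : (0 : ℤ) < p := by exact_mod_cast hp.pos
    have h1 : Ico (0 : ℤ) p ⊆ F.image (fun e : ℤ => e % (p : ℤ)) := by
      intro c hc
      rw [mem_Ico] at hc
      obtain ⟨e, he, hd⟩ := hcov (-c)
      rw [mem_image]
      refine ⟨e, he, ?_⟩
      have h2 : (p : ℤ) ∣ e - c := by
        rwa [neg_add_eq_sub] at hd
      have h3 : e % (p : ℤ) = c % p := ((Int.modEq_iff_dvd.2 h2).symm : e ≡ c [ZMOD (p : ℤ)])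
      rw [h3, Int.emod_eq_of_lt hc.1 hc.2]
    calc p = (Ico (0 : ℤ) p).card := by simp
      _ ≤ _ := card_le_card h1
      _ ≤ F.card := card_image_le
  · intro m s
    have hcop : IsCoprime (q : ℤ) (p : ℤ) := by
      rw [Int.isCoprime_iff_gcd_eq_one]
      have := (Nat.Prime.coprime_iff_not_dvd hp).2 hpq
      rw [Int.gcd_natCast_natCast]
      exact this.symm
    obtain ⟨a, b, hab⟩ := hcop
    obtain ⟨f, hf, hd⟩ := hcov (a * m + s)
    refine ⟨f, hf, ?_⟩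
    have : m + q * (s + f) = q * (a * m + s + f) + p * (b * m) := by
      have h1 : m = (a * q + b * p) * m := by rw [hab, one_mul]
      calc m + q * (s + f) = (a * q + b * p) * m + q * (s + f) := by rw [← h1]
        _ = _ := by ring
    rw [this]
    exact dvd_add (Dvd.dvd.mul_left hd _) (dvd_mul_right _ _)

theorem ev_log (K : ℕ) : ∃ x0 : ℝ, ∀ x : ℝ, x0 ≤ x → Real.log x ^ K ≤ x := by
  have h1 := (isLittleO_log_rpow_rpow_atTop (r := (K : ℝ)) one_pos).bound one_pos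
  obtain ⟨x0, hx0⟩ := eventually_atTop.1 h1
  refine ⟨max x0 1, fun x hx => ?_⟩
  have h2 := hx0 x ((le_max_left _ _).trans hx)
  have hx1 : 1 ≤ x := (le_max_right _ _).trans hx
  have h3 : 0 ≤ Real.log x := Real.log_nonneg hx1
  rw [one_mul, Real.rpow_natCast, Real.rpow_one, Real.norm_of_nonneg (by positivity),
    Real.norm_of_nonneg (by linarith)] at h2
  exact h2

end Pool.Agent.Q117.AP.PRNa

namespace Pool.Agent.Q117.AP

open Finset Filter PATa PRNa
open Pool.Agent.Q117.LF (Ro oF)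
open Pool.Agent.Y843.HG (V1 V1_bounds V1_pos fac1)

theorem prn : St_PRN := by
  intro hN k R g F η κ hF hR hκ hη hcond
  classical
  have hR' : (1 : ℝ) ≤ R := by exact_mod_cast hR
  have hA : (0 : ℝ) < 3 * (8 * R - 1) := by linarith
  set g0 : ℝ := η - κ with hg0
  have hAg : 25 / (3 * (8 * (R : ℝ) - 1)) < g0 := by
    rw [div_lt_iff₀ hA]
    linarith
  have hg0p : 0 < g0 := lt_trans (by positivity) hAg
  have hηp : 0 < η := by linarith
  set h : ℝ := max (6 / 7 * g0) ((25 / (3 * (8 * (R : ℝ) - 1)) + g0) / 2) with hh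
  have hlt : h < g0 := by
    rw [hh]
    exact max_lt (by linarith) (by linarith)
  have hge : 6 / 7 * g0 ≤ h := le_max_left _ _
  have hh1 : h ≤ 1 := by linarith
  have hh25 : 25 < 3 * (8 * (R : ℝ) - 1) * h := by
    have h1 : (25 / (3 * (8 * (R : ℝ) - 1)) + g0) / 2 ≤ h := le_max_right _ _
    have h2 : 25 / (3 * (8 * (R : ℝ) - 1)) < h := by linarith
    rw [div_lt_iff₀ hA] at h2
    linarith
  -- bounds for the family
  set K : ℕ := ∑ γ, (F γ).card with hK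
  have hFK : ∀ γ, (F γ).card ≤ K := fun γ =>
    single_le_sum (f := fun γ => (F γ).card) (fun _ _ => Nat.zero_le _) (mem_univ γ)
  set M : ℕ := ∑ γ, ∑ f ∈ F γ, f.natAbs with hM
  have hFM : ∀ γ, ∀ f ∈ F γ, f.natAbs ≤ M := fun γ f hf =>
    (single_le_sum (f := fun f : ℤ => f.natAbs) (fun _ _ => Nat.zero_le _) hf).trans
      (single_le_sum (f := fun γ => ∑ f ∈ F γ, f.natAbs) (fun _ _ => Nat.zero_le _) (mem_univ γ))
  have hdiff : ∀ γ, ∀ f ∈ F γ, ∀ f' ∈ F γ, |f - f'| ≤ ((2 * M : ℕ) : ℤ) := by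
    intro γ f hf f' hf'
    have h1 := hFM γ f hf
    have h2 := hFM γ f' hf'
    have h3 : (f - f').natAbs ≤ 2 * M := by omega
    rw [Int.abs_eq_natAbs]
    exact Int.ofNat_le.2 h3
  obtain ⟨t, ht, θ, hθ, hT⟩ := hN (max k (K + 1)) g R h hR hh1 hh25
  obtain ⟨c', hc', ν', hν', X0, hX⟩ := hT t le_rfl
  obtain ⟨C, hC, hQ⟩ := Q1_le
  set D : ℝ := max 1 (2 * C * (V1 (2 * M))⁻¹) with hD
  have hV1 : 0 < V1 (2 * M) := V1_pos _
  have hD1 : 1 ≤ D := le_max_left _ _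
  set ν : ℝ := min (ν' / D ^ K) 1 with hν
  have hνp : 0 < ν := lt_min (by positivity) one_pos
  have htR : (0 : ℝ) < t := by exact_mod_cast ht
  obtain ⟨x1, hx1⟩ := ev_pow (show 0 < η - κ - h by linarith) 2
  obtain ⟨x2, hx2⟩ := ev_pow (show 0 < η - κ by linarith) 10
  obtain ⟨x3, hx3⟩ := ev_pow hθ 3
  obtain ⟨x4, hx4⟩ := ev_pow (show 0 < 1 / (t : ℝ) by positivity) (K : ℝ)
  have hlogs : ∀ j : ℕ, ∃ x0 : ℝ, ∀ x : ℝ, x0 ≤ x → Real.log x ^ j ≤ x := ev_log
  choose xl hxl using hlogs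
  refine ⟨t, ht, c' / 2, by positivity, ν, hνp,
    max 4 (max X0 (max x1 (max x2 (max x3 (max x4 (max M (∑ j ∈ range (K + 1), |xl j|))))))), ?_⟩
  intro x hx q hq hqx r hcop E hEk hEx hAd e₀ he₀
  simp only [max_le_iff] at hx
  obtain ⟨hx4', hxX, hxx1, hxx2, hxx3, hxx4, hxM, hxxl⟩ := hx
  have hx0 : (0 : ℝ) < x := by linarith
  have hxone : (1 : ℝ) ≤ x := by linarith
  have e1 : 2 ≤ x ^ (η - κ - h) := hx1 x hxx1
  have e2 : 10 ≤ x ^ (η - κ) := hx2 x hxx2
  have e3 : 3 ≤ x ^ θ := hx3 x hxx3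
  have e4 : (K : ℝ) ≤ x ^ (1 / (t : ℝ)) := hx4 x hxx4
  have hlog0 : 0 ≤ Real.log x := Real.log_nonneg hxone
  have hlogj : ∀ j ≤ K, Real.log x ^ j ≤ x := by
    intro j hj
    refine hxl j x ((le_abs_self _).trans (le_trans ?_ hxxl))
    exact single_le_sum (f := fun j => |xl j|) (fun _ _ => abs_nonneg _) (mem_range.2 (by omega))
  have hqr : (1 : ℝ) ≤ q := by exact_mod_cast hq
  have hq0 : (0 : ℝ) < q := by linarith
  have hxκη : x ^ κ ≤ x ^ η := Real.rpow_le_rpow_of_exponent_le hxone (by linarith)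
  have hxη : x ^ η ≤ x := by
    calc x ^ η ≤ x ^ (1 : ℝ) := Real.rpow_le_rpow_of_exponent_le hxone hη
      _ = x := Real.rpow_one x
  have hqX : (q : ℝ) ≤ x := hqx.trans (hxκη.trans hxη)
  have htp := tot_pos hq
  have ht1 := tot_le_one hq
  -- the window
  set r' : ℕ := r % q with hr'
  have hr'q : r' < q := Nat.mod_lt _ hq
  set B : ℕ := ⌊x⌋₊ / q + 1 with hB
  set Y : ℕ := ⌊x ^ η⌋₊ with hY
  set H : ℕ := Y / q - 3 with hH
  have hYle : (Y : ℝ) ≤ x ^ η := Nat.floor_le (by positivity)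
  have hYlt : x ^ η < Y + 1 := Nat.lt_floor_add_one _
  have hsplit : x ^ η = x ^ κ * x ^ (η - κ) := by
    rw [← Real.rpow_add hx0]
    congr 1
    ring
  have hxq : 10 ≤ x ^ η / q := by
    rw [le_div_iff₀ hq0, hsplit]
    have : (0 : ℝ) < x ^ κ := by positivity
    calc 10 * (q : ℝ) ≤ 10 * x ^ κ := by gcongr
      _ = x ^ κ * 10 := by ring
      _ ≤ _ := by gcongr
  have hHge : x ^ η / (2 * q) ≤ H := by
    have h1 : (Y : ℝ) < q * (Y / q : ℕ) + q := by
      have h2 := Nat.lt_div_mul_add (a := Y) hq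
      have h3 : Y < q * (Y / q) + q := by
        calc Y < Y / q * q + q := h2
          _ = _ := by ring
      exact_mod_cast h3
    have h2 : ((Y / q : ℕ) : ℝ) ≤ H + 3 := by
      have : Y / q ≤ H + 3 := by omega
      exact_mod_cast this
    have h3 : x ^ η / q ≤ H + 5 := by
      rw [div_le_iff₀ hq0]
      nlinarith
    have h4 : x ^ η / (2 * q) = x ^ η / q / 2 := by
      rw [div_div, mul_comm (q : ℝ)]
    rw [h4]
    linarith
  have hHle : (H : ℝ) ≤ x ^ η := by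
    have : H ≤ Y := (Nat.sub_le _ _).trans (Nat.div_le_self _ _)
    calc (H : ℝ) ≤ Y := by exact_mod_cast this
      _ ≤ _ := hYle
  have hXh : x ^ h ≤ H := by
    refine le_trans ?_ hHge
    rw [le_div_iff₀ (by positivity)]
    have h1 : x ^ η = x ^ κ * (x ^ h * x ^ (η - κ - h)) := by
      rw [← Real.rpow_add hx0, ← Real.rpow_add hx0]
      congr 1
      ring
    rw [h1]
    calc x ^ h * (2 * q) = q * (x ^ h * 2) := by ring
      _ ≤ x ^ κ * (x ^ h * x ^ (η - κ - h)) := by gcongr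
  have hdm : q * (⌊x⌋₊ / q) ≤ ⌊x⌋₊ := Nat.mul_div_le _ _
  have hdm' : ⌊x⌋₊ < q * (⌊x⌋₊ / q) + q := by
    have h2 := Nat.lt_div_mul_add (a := ⌊x⌋₊) hq
    calc ⌊x⌋₊ < ⌊x⌋₊ / q * q + q := h2
      _ = _ := by ring
  have hdY : q * (Y / q) ≤ Y := Nat.mul_div_le _ _
  have hwin : ∀ n ∈ Ioc B (B + H), x < ((q * n + r' : ℕ) : ℝ) ∧ q * n + r' ≤ ⌊x + x ^ η⌋₊ := by
    intro n hn
    rw [mem_Ioc] at hn
    constructor
    · have h1 : ⌊x⌋₊ + 1 ≤ q * n + r' := by
        have : q * (⌊x⌋₊ / q + 2) ≤ q * n := Nat.mul_le_mul_left _ (by omega)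
        rw [mul_add] at this
        omega
      calc x < ⌊x⌋₊ + 1 := Nat.lt_floor_add_one x
        _ ≤ _ := by exact_mod_cast h1
    · have hH3 : n ≤ ⌊x⌋₊ / q + Y / q - 2 := by omega
      have h4 : 3 < Y / q := by omega
      have h1 : q * n ≤ q * (⌊x⌋₊ / q + Y / q - 2) := Nat.mul_le_mul_left _ hH3
      have h2 : q * (⌊x⌋₊ / q + Y / q - 2) + q * 2 = q * (⌊x⌋₊ / q) + q * (Y / q) := by
        rw [← mul_add, ← mul_add]
        congr 1
        omega
      have h3 : q * n + r' ≤ ⌊x⌋₊ + Y := by omega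
      refine h3.trans (Nat.le_floor ?_)
      push_cast
      have := Nat.floor_le hx0.le
      linarith
  have hflx : q ≤ ⌊x⌋₊ := Nat.le_floor hqX
  have hfl2 : 2 ≤ ⌊x⌋₊ := Nat.le_floor (by push_cast; linarith)
  have hlog2 : Real.log x ≤ 2 * Real.log (⌊x⌋₊ : ℕ) := by
    have h1 : x ≤ ((⌊x⌋₊ : ℕ) : ℝ) ^ 2 := by
      have h2 : x < ⌊x⌋₊ + 1 := Nat.lt_floor_add_one x
      have h3 : (2 : ℝ) ≤ (⌊x⌋₊ : ℕ) := by exact_mod_cast hfl2
      nlinarith
    calc Real.log x ≤ Real.log (((⌊x⌋₊ : ℕ) : ℝ) ^ 2) := Real.log_le_log hx0 h1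
      _ = _ := by rw [Real.log_pow]; norm_num
  -- the family
  set L : Fin g → ℝ := fun γ => ν * ((Nat.totient q : ℝ) / q * Real.log x) ^ (F γ).card with hL
  set F' : Fin g → Finset ℤ := fun γ => if AdQ q (F γ) then F γ else {0} with hF'
  set L' : Fin g → ℝ := fun γ => if AdQ q (F γ) then L γ else 0 with hL'
  have hL0 : ∀ γ, 0 ≤ L γ := fun γ => by
    rw [hL]
    positivity
  have hLX : ∀ γ, L γ ≤ x := by
    intro γ
    have h1 : (Nat.totient q : ℝ) / q * Real.log x ≤ 1 * Real.log x := by gcongr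
    calc L γ ≤ 1 * (1 * Real.log x) ^ (F γ).card := by
          rw [hL]
          dsimp only
          gcongr
          exact min_le_right _ _
      _ ≤ x := by
          rw [one_mul, one_mul]
          exact hlogj _ (hFK γ)
  have hLV : ∀ γ, L γ * VQ ⌊x⌋₊ q (F γ) ≤ ν' := by
    intro γ
    have h1 := hQ ⌊x⌋₊ q hfl2 hq hflx
    have h2 := VQ_le (hdiff γ) ⌊x⌋₊ q
    have h3 := (Q1_pos ⌊x⌋₊ q).le
    set m := (F γ).card with hm
    have h4 : VQ ⌊x⌋₊ q (F γ) ≤ (Q1 ⌊x⌋₊ q * (V1 (2 * M))⁻¹) ^ m := by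
      rw [mul_pow, inv_pow, ← div_eq_mul_inv, le_div_iff₀ (by positivity)]
      exact h2
    have h5 : (Nat.totient q : ℝ) / q * Real.log x * (Q1 ⌊x⌋₊ q * (V1 (2 * M))⁻¹) ≤ D := by
      calc _ = ((Nat.totient q : ℝ) / q * Real.log x * Q1 ⌊x⌋₊ q) * (V1 (2 * M))⁻¹ := by ring
        _ ≤ ((Nat.totient q : ℝ) / q * (2 * Real.log (⌊x⌋₊ : ℕ)) * Q1 ⌊x⌋₊ q) * (V1 (2 * M))⁻¹ := by
            gcongr
        _ = 2 * ((Nat.totient q : ℝ) / q * Real.log (⌊x⌋₊ : ℕ) * Q1 ⌊x⌋₊ q) * (V1 (2 * M))⁻¹ := by ring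
        _ ≤ 2 * C * (V1 (2 * M))⁻¹ := by gcongr
        _ ≤ D := le_max_right _ _
    calc L γ * VQ ⌊x⌋₊ q (F γ) ≤ L γ * (Q1 ⌊x⌋₊ q * (V1 (2 * M))⁻¹) ^ m :=
          mul_le_mul_of_nonneg_left h4 (hL0 γ)
      _ = ν * ((Nat.totient q : ℝ) / q * Real.log x * (Q1 ⌊x⌋₊ q * (V1 (2 * M))⁻¹)) ^ m := by
          rw [hL]
          dsimp only
          rw [mul_pow _ (Q1 ⌊x⌋₊ q * (V1 (2 * M))⁻¹), ← hm]
          ring
      _ ≤ ν * D ^ m := by gcongr
      _ ≤ ν * D ^ K := by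
          gcongr
          exact hFK γ
      _ ≤ ν' / D ^ K * D ^ K := by
          gcongr
          exact min_le_left _ _
      _ = ν' := by field_simp
  have hfam : ∀ γ, (F' γ).Nonempty ∧ (F' γ).card ≤ max k (K + 1) ∧ (∀ f ∈ F' γ, |(f : ℝ)| ≤ x) ∧
      AdQ q (F' γ) := by
    intro γ
    rw [hF']
    dsimp only
    split_ifs with hAq
    · refine ⟨hF γ, (hFK γ).trans ((Nat.le_succ K).trans (le_max_right _ _)), ?_, hAq⟩
      intro f hf
      have h1 := hFM γ f hf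
      have h2 : |(f : ℝ)| = (f.natAbs : ℝ) := by
        rw [← Int.cast_abs, Nat.cast_natAbs]
      rw [h2]
      have h3 : (f.natAbs : ℝ) ≤ M := by exact_mod_cast h1
      exact h3.trans hxM
    · refine ⟨singleton_nonempty _, ?_, ?_, ?_⟩
      · rw [card_singleton]
        exact le_trans (by omega) (le_max_right _ _)
      · intro f hf
        rw [mem_singleton.1 hf]
        simp only [Int.cast_zero, abs_zero]
        exact hx0.le
      · intro p hp _
        refine ⟨1, fun e he hdv => ?_⟩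
        rw [mem_singleton.1 he, add_zero] at hdv
        have h1 : p ∣ 1 := by exact_mod_cast hdv
        exact hp.one_lt.ne' (Nat.dvd_one.1 h1)
  have hCuv : Cuv q q (r' : ℤ) := by
    intro p hp hpd
    refine ⟨hpd, fun hpa => ?_⟩
    have h1 : p ∣ r' := by exact_mod_cast hpa
    have h2 : p ∣ r := (Nat.dvd_mod_iff hpd).1 h1
    have h3 : p ∣ 1 := by
      rw [← hcop]
      exact Nat.dvd_gcd h2 hpd
    exact hp.one_lt.ne' (Nat.dvd_one.1 h3)
  have key := hX x hxX q q hq hq hqX hqX (r' : ℤ) hCuv E (hEk.trans (le_max_left _ _))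
    (fun e he => (hEx e he).trans (div_le_self hx0.le hqr)) hAd e₀ he₀ F' hfam L' ?_
    (x ^ (1 / (t : ℝ))) le_rfl le_rfl B H hXh (hHle.trans hxη) ?_
  · rw [VG_eq] at key
    have hV := VQ_nonneg ⌊x⌋₊ q E
    have hcard : (PtsE q q r' E e₀ R (x ^ (h / 6)) (x ^ (1 / (t : ℝ))) L' F' B H).card ≤
        (Prn q r E e₀ R (x ^ ((η - κ) / 7)) (x ^ (1 / (t : ℝ))) L F x (x ^ η)).card := by
      refine card_le_card_of_injOn (fun n => q * n + r') ?_ ?_
      · intro n hn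
        unfold PtsE at hn
        unfold Prn
        rw [mem_coe, mem_filter] at hn
        rw [mem_coe, mem_filter, mem_Icc]
        obtain ⟨hn0, hn3, hn4, hn5, hn6⟩ := hn
        obtain ⟨w1, w2⟩ := hwin n hn0
        have hgg : ∀ e : ℤ, gv q q r' e n = ((q * n + r' : ℕ) : ℤ) + q * e := by
          intro e
          unfold gv
          push_cast
          ring
        have hm1 : 1 ≤ q * n + r' := by
          have : (1 : ℝ) < ((q * n + r' : ℕ) : ℝ) := by linarith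
          have h2 : 1 < q * n + r' := by exact_mod_cast this
          omega
        rw [hgg] at hn3
        refine ⟨⟨hm1, w2⟩, w1, ?_, hn3, ?_, ?_, ?_⟩
        · unfold Nat.ModEq
          rw [hr', Nat.mul_add_mod, Nat.mod_mod]
        · intro p hp hpd
          rw [← hgg] at hpd
          refine le_trans ?_ (hn4 p hp hpd)
          apply Real.rpow_le_rpow_of_exponent_le hxone
          linarith
        · intro e he
          rw [← hgg]
          exact hn5 e he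
        · intro γ s hs hRo
          by_cases hAq : AdQ q (F γ)
          · have h1 := hn6 γ s
            rw [hL', hF'] at h1
            dsimp only at h1
            rw [if_pos hAq, if_pos hAq] at h1
            refine h1 hs fun f hf => ?_
            rw [hgg]
            exact hRo f hf
          · exfalso
            obtain ⟨p, hp, hpK, hd⟩ := not_adq hAq
            obtain ⟨f, hf, hdf⟩ := hd ((q * n + r' : ℕ) : ℤ) s
            have h1 := hRo f hf p hp hdf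
            have h2 : (p : ℝ) ≤ K := by exact_mod_cast hpK.trans (hFK γ)
            linarith
      · intro n _ n' _ hnn
        dsimp only at hnn
        exact Nat.eq_of_mul_eq_mul_left hq (Nat.add_right_cancel hnn)
    have h3 : ((PtsE q q r' E e₀ R (x ^ (h / 6)) (x ^ (1 / (t : ℝ))) L' F' B H).card : ℝ) ≤
        (Prn q r E e₀ R (x ^ ((η - κ) / 7)) (x ^ (1 / (t : ℝ))) L F x (x ^ η)).card := by
      exact_mod_cast hcard
    refine le_trans ?_ (key.trans h3)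
    calc c' / 2 * (x ^ η / q * VQ ⌊x⌋₊ q E) = c' * (x ^ η / (2 * q) * VQ ⌊x⌋₊ q E) := by
          field_simp
      _ ≤ c' * (H * VQ ⌊x⌋₊ q E) := by gcongr
  · intro γ
    rw [hL', hF']
    dsimp only
    by_cases hAq : AdQ q (F γ)
    · rw [if_pos hAq, if_pos hAq]
      exact ⟨hL0 γ, hLX γ, hLV γ⟩
    · rw [if_neg hAq, if_neg hAq]
      exact ⟨le_rfl, hx0.le, by rw [zero_mul]; exact hν'.le⟩
  · intro n hn
    obtain ⟨w1, w2⟩ := hwin n hn
    have hm : ((q * n + r' : ℕ) : ℝ) ≤ x + x ^ η := by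
      have h1 : ((q * n + r' : ℕ) : ℝ) ≤ (⌊x + x ^ η⌋₊ : ℕ) := by exact_mod_cast w2
      exact h1.trans (Nat.floor_le (by positivity))
    have hgg : gv q q r' e₀ n = ((q * n + r' : ℕ) : ℤ) + q * e₀ := by
      unfold gv
      push_cast
      ring
    have h1 : |((gv q q r' e₀ n : ℤ) : ℝ)| ≤ 3 * x := by
      rw [hgg]
      push_cast
      push_cast at hm
      have a1 : |(q : ℝ) * n + r'| ≤ x + x ^ η := by
        rw [abs_of_nonneg (by positivity)]
        exact hm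
      have a2 : |(q : ℝ) * e₀| ≤ x := by
        rw [abs_mul, abs_of_pos hq0]
        have := hEx e₀ he₀
        rwa [le_div_iff₀ hq0, mul_comm] at this
      calc _ ≤ |(q : ℝ) * n + r'| + |(q : ℝ) * e₀| := abs_add_le _ _
        _ ≤ 3 * x := by linarith
    refine h1.trans ?_
    rw [Real.rpow_add hx0, Real.rpow_one, mul_comm (3 : ℝ)]
    gcongr

end Pool.Agent.Q117.AP
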