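import Pool.Agent.Q117.AP.Covd
import Pool.Agent.Q117.SI.Rsi

/-!
# Prescribed surroundings at the scale of Rankin and Pomerance

Project AP (helper117), job RGG (helper14). Compare `Pool/Agent/Q117/SI/Rsi.lean`.
-/

set_option autoImplicit false
set_option maxHeartbeats 4000000

namespace Pool.Agent.Q117.AP

open Finset Filter Topology
open Pool.Agent.Q117.LF (Ro GN oF St_AVG AdmA Rk_large)
open Pool.Agent.Q117.GP (Rk)
open Pool.Agent.Q117.SI (St_WZ St_RKS WW_bound)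
open Pool.Agent.Q253.Thin (SysZ VZ_low)
open Pool.Agent.Y843.HS (VV Pr)
open Pool.Agent.H378R2 (WW PW yy)

namespace RGGa

/-- the condition on the number of prime factors -/
def Om (d : ℕ) (X : ℝ) : Prop :=
  (d.primeFactors.card : ℝ) ≤ Real.exp (2 * (Real.log (Real.log X) / Real.log (Real.log (Real.log X))))

/-- `COVDc` for all the sizes at most `k` -/
theorem cov_all (hC : COVDc) (k : ℕ) : ∃ c : ℝ, 0 < c ∧ ∃ X0 : ℝ, ∀ X : ℝ, X0 ≤ X → ∀ d : ℕ, 1 ≤ d → Om d X →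
    ∀ H : Finset ℕ, 1 ≤ H.card → H.card ≤ k → (∀ h ∈ H, (h : ℝ) ≤ c * ((Nat.totient d : ℝ) / d * Rk X)) → AdmA d H →
    ∃ a : ℕ, ∀ s : ℕ, (s : ℝ) ≤ c * ((Nat.totient d : ℝ) / d * Rk X) →
      ((∀ p : ℕ, p.Prime → ¬ p ∣ d → p ∣ WW X ∅ 1 → ¬ p ∣ a + s) ↔ s ∈ H) := by
  induction k with
  | zero =>
    refine ⟨1, one_pos, 0, ?_⟩
    intro X _ d _ _ H h1 h2
    omega
  | succ k ih =>
    obtain ⟨c, hc, X0, h0⟩ := ih
    obtain ⟨c', hc', X0', h0'⟩ := hC (k + 1) (by omega)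
    refine ⟨min c c', lt_min hc hc', max X0 X0', ?_⟩
    intro X hX d hd hO H h1 h2 hH hA
    have key : ∀ s : ℕ, (s : ℝ) ≤ min c c' * ((Nat.totient d : ℝ) / d * Rk X) →
        (s : ℝ) ≤ c * ((Nat.totient d : ℝ) / d * Rk X) ∧ (s : ℝ) ≤ c' * ((Nat.totient d : ℝ) / d * Rk X) := by
      intro s hs
      have hm : 0 < min c c' := lt_min hc hc'
      have hZ : 0 ≤ (Nat.totient d : ℝ) / d * Rk X := by
        by_contra hcon
        have h3 : min c c' * ((Nat.totient d : ℝ) / d * Rk X) < 0 := mul_neg_of_pos_of_neg hm (not_le.1 hcon)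
        have h4 : (0 : ℝ) ≤ s := Nat.cast_nonneg s
        linarith
      exact ⟨hs.trans (mul_le_mul_of_nonneg_right (min_le_left _ _) hZ),
        hs.trans (mul_le_mul_of_nonneg_right (min_le_right _ _) hZ)⟩
    rcases Nat.lt_or_ge k H.card with h3 | h3
    · obtain ⟨a, ha⟩ := h0' X ((le_max_right _ _).trans hX) d hd hO H (by omega) (fun h hh => (key h (hH h hh)).2) hA
      exact ⟨a, fun s hs => ha s (key s hs).2⟩
    · obtain ⟨a, ha⟩ := h0 X ((le_max_left _ _).trans hX) d hd hO H h1 h3 (fun h hh => (key h (hH h hh)).1) hA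
      exact ⟨a, fun s hs => ha s (key s hs).1⟩

/-- Rankin's function is large -/
theorem Rk_ge : ∃ X0 : ℝ, ∀ X : ℝ, X0 ≤ X → Real.log X ≤ Rk X := by
  obtain ⟨X0, hev⟩ := Pool.Agent.Q117.GP.ev_all 1 one_pos 1 le_rfl 1 0 le_rfl
  refine ⟨X0, ?_⟩
  intro X hX
  obtain ⟨T, hT⟩ : ∃ T, T = Real.log X := ⟨_, rfl⟩
  obtain ⟨A, hA⟩ : ∃ A, A = Real.log T := ⟨_, rfl⟩
  obtain ⟨B, hB⟩ : ∃ B, B = Real.log A := ⟨_, rfl⟩
  obtain ⟨D, hD⟩ : ∃ D, D = Real.log B := ⟨_, rfl⟩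
  obtain ⟨a1, a2, a3, a4, a5, a6, a7, a8, a9, a10, a11, a12, a13, a14⟩ := hev X hX T A B D hT hA hB hD
  have hR : Rk X = T * A * D / B ^ 2 := by
    unfold Rk
    rw [← hT, ← hA, ← hB, ← hD]
  rw [← hT, hR]
  have hB0 : 0 < B := by linarith
  have hT0 : 0 < T := by linarith
  have hA0 : 0 < A := by linarith
  rw [le_div_iff₀ (by positivity)]
  have h1 : T * B ^ 2 ≤ T * A := mul_le_mul_of_nonneg_left (by linarith) hT0.le
  have h2 : T * A ≤ T * A * D := le_mul_of_one_le_right (by positivity) a4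
  linarith

/-- the hypothesis on the number of prime factors at the scale `X ^ α` -/
theorem om_scale (α : ℝ) (hα : 0 < α) (hα1 : α ≤ 1) (δ : ℝ) (hδ : 0 < δ) : ∃ X0 : ℝ, ∀ X : ℝ, X0 ≤ X → ∀ d : ℕ,
    (d.primeFactors.card : ℝ) ≤ Real.exp (Real.log (Real.log X) / Real.log (Real.log (Real.log X))) →
    Om d (X ^ α) ∧ (d.primeFactors.card : ℝ) + 1 ≤ δ * Real.log (X ^ α) := by
  have hlog := Real.tendsto_log_atTop
  have hAt : Tendsto (fun X : ℝ => Real.log (Real.log X)) atTop atTop := hlog.comp hlog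
  have hBt : Tendsto (fun X : ℝ => Real.log (Real.log (Real.log X))) atTop atTop := hlog.comp hAt
  have hsq : ∀ᶠ T : ℝ in atTop, Real.sqrt T + 1 ≤ δ * α * T := by
    have h1 : ∀ᶠ T : ℝ in atTop, 2 / (δ * α) ≤ Real.sqrt T := Real.tendsto_sqrt_atTop.eventually_ge_atTop _
    filter_upwards [h1, eventually_ge_atTop 1] with T h1 h2
    have h3 : 1 ≤ Real.sqrt T := by
      rw [Real.one_le_sqrt]
      exact h2
    have h4 : Real.sqrt T * Real.sqrt T = T := Real.mul_self_sqrt (by linarith)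
    have h5 : 0 < δ * α := by positivity
    rw [div_le_iff₀ h5] at h1
    calc Real.sqrt T + 1 ≤ 2 * Real.sqrt T := by linarith
      _ ≤ Real.sqrt T * (δ * α) * Real.sqrt T := mul_le_mul_of_nonneg_right h1 (by linarith)
      _ = δ * α * (Real.sqrt T * Real.sqrt T) := by ring
      _ = _ := by rw [h4]
  have hev : ∀ᶠ X : ℝ in atTop, 1 < X ∧ 1 ≤ Real.log X ∧ 4 ≤ Real.log (Real.log X) ∧
      -2 * Real.log α ≤ Real.log (Real.log X) ∧ 2 ≤ Real.log (Real.log (Real.log X)) ∧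
      Real.sqrt (Real.log X) + 1 ≤ δ * α * Real.log X := by
    filter_upwards [eventually_gt_atTop 1, hlog.eventually_ge_atTop 1, hAt.eventually_ge_atTop 4,
      hAt.eventually_ge_atTop (-2 * Real.log α), hBt.eventually_ge_atTop 2, hlog.eventually hsq] with X h1 h2 h3 h4 h5 h6
    exact ⟨h1, h2, h3, h4, h5, h6⟩
  obtain ⟨X0, hX0⟩ := eventually_atTop.1 hev
  refine ⟨X0, ?_⟩
  intro X hX d hd
  obtain ⟨h1, h2, h3, h4, h5, h6⟩ := hX0 X hX
  have hXp : 0 < X := by linarith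
  have hlY : Real.log (X ^ α) = α * Real.log X := Real.log_rpow hXp α
  obtain ⟨T, hT⟩ : ∃ T, T = Real.log X := ⟨_, rfl⟩
  rw [← hT] at h2 h3 h4 h5 h6 hd hlY
  have hT0 : 0 < T := by linarith
  obtain ⟨A, hA⟩ : ∃ A, A = Real.log T := ⟨_, rfl⟩
  rw [← hA] at h3 h4 h5 hd
  obtain ⟨B, hB⟩ : ∃ B, B = Real.log A := ⟨_, rfl⟩
  rw [← hB] at h5 hd
  have hB0 : 0 < B := by linarith
  have hA0 : 0 < A := by linarith
  constructor
  · unfold Om
    refine hd.trans (Real.exp_le_exp.2 ?_)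
    rw [hlY, Real.log_mul hα.ne' hT0.ne', ← hA]
    have hla : Real.log α ≤ 0 := Real.log_nonpos hα.le hα1
    obtain ⟨A', hA'⟩ : ∃ A', A' = Real.log α + A := ⟨_, rfl⟩
    rw [← hA']
    have g1 : A / 2 ≤ A' := by linarith
    have g2 : A' ≤ A := by linarith
    have g3 : 0 < Real.log A' := Real.log_pos (by linarith)
    have g4 : Real.log A' ≤ B := by
      rw [hB]
      exact Real.log_le_log (by linarith) g2
    rw [mul_div_assoc', div_le_div_iff₀ hB0 g3]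
    have g5 : A * Real.log A' ≤ A * B := mul_le_mul_of_nonneg_left g4 hA0.le
    have g6 : A * B ≤ 2 * A' * B := mul_le_mul_of_nonneg_right (by linarith) hB0.le
    linarith
  · rw [hlY]
    have g1 : Real.exp (A / B) ≤ Real.sqrt T := by
      have g2 : A / B ≤ A / 2 := div_le_div_of_nonneg_left hA0.le (by norm_num) h5
      have g3 : Real.sqrt T = Real.exp (A / 2) := by
        rw [hA, Real.exp_half, Real.exp_log hT0]
      rw [g3]
      exact Real.exp_le_exp.2 g2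
    calc (d.primeFactors.card : ℝ) + 1 ≤ Real.exp (A / B) + 1 := by linarith
      _ ≤ Real.sqrt T + 1 := by linarith
      _ ≤ δ * α * T := h6
      _ = δ * (α * T) := by ring

/-- the number of excluded classes -/
theorem oG_le {k q : ℕ} (hk : 1 ≤ k) {E : Finset ℤ} (hE : E.card ≤ k) (p : ℕ) : oG q E p ≤ k := by
  classical
  unfold oG
  split
  · exact hk
  · unfold oF
    exact card_image_le.trans hE

theorem oG_lt {q : ℕ} {E : Finset ℤ} (hA : AdQ q E) (p : ℕ) (hp : p.Prime) : oG q E p < p := by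
  classical
  unfold oG
  split
  · exact hp.one_lt
  · rename_i hpq
    obtain ⟨r, hr⟩ := hA p hp hpq
    have hp0 : (0 : ℤ) < p := by exact_mod_cast hp.pos
    unfold oF
    have h1 : E.image (fun e : ℤ => e % (p : ℤ)) ⊆ (Finset.Ico (0 : ℤ) p).erase ((-r) % (p : ℤ)) := by
      intro x hx
      obtain ⟨e, he, rfl⟩ := mem_image.1 hx
      rw [mem_erase, mem_Ico]
      refine ⟨?_, Int.emod_nonneg _ hp0.ne', Int.emod_lt_of_pos _ hp0⟩
      intro hcon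
      apply hr e he
      have h2 : e ≡ -r [ZMOD p] := hcon
      have h3 := h2.symm.dvd
      rwa [sub_neg_eq_add, add_comm] at h3
    have h2 : (-r) % (p : ℤ) ∈ Finset.Ico (0 : ℤ) p := by
      rw [mem_Ico]
      exact ⟨Int.emod_nonneg _ hp0.ne', Int.emod_lt_of_pos _ hp0⟩
    have h3 := card_le_card h1
    rw [card_erase_of_mem h2, Int.card_Ico] at h3
    have h4 := hp.pos
    have h5 : ((p : ℤ) - 0).toNat = p := by simp
    rw [h5] at h3
    omega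

theorem VG_low {k : ℕ} (hk : 1 ≤ k) : ∃ cV : ℝ, 0 < cV ∧ ∀ X : ℝ, 3 ≤ X → ∀ (q W : ℕ) (E : Finset ℤ), E.card ≤ k →
    AdQ q E → cV / Real.log X ^ k ≤ VG ⌊X⌋₊ W q E := by
  classical
  obtain ⟨cV, hcV, hV⟩ := VZ_low k hk
  refine ⟨cV, hcV, ?_⟩
  intro X hX q W E hE hA
  have hX0 : 0 < X := by linarith
  obtain ⟨Z, hZ⟩ : ∃ Z : ℕ → Finset ℕ, Z = fun p => range (oG q E p) := ⟨_, rfl⟩
  have hZc : ∀ p, (Z p).card = oG q E p := fun p => by rw [hZ]; exact card_range _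
  have hs : SysZ k Z := by
    refine ⟨fun p _ => ?_, fun p hp => ?_, fun p hp c hc => ?_⟩
    · rw [hZc]
      exact oG_le hk hE p
    · rw [hZc]
      exact oG_lt hA p hp
    · rw [hZ] at hc
      exact (mem_range.1 hc).trans (oG_lt hA p hp)
  have hfl2 : 2 ≤ ⌊X⌋₊ := Nat.le_floor (by push_cast; linarith)
  have hVV := hV ⌊X⌋₊ hfl2 Z hs
  have hlogfl : 0 < Real.log (⌊X⌋₊ : ℝ) := Real.log_pos (by exact_mod_cast (by omega : 1 < ⌊X⌋₊))
  have hlogle : Real.log (⌊X⌋₊ : ℝ) ≤ Real.log X := by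
    apply Real.log_le_log
    · exact_mod_cast (by omega : 0 < ⌊X⌋₊)
    · exact Nat.floor_le hX0.le
  have h01 : ∀ p ∈ Pr 0 ⌊X⌋₊, 0 ≤ (1 - ((Z p).card : ℝ) / p) ∧ (1 - ((Z p).card : ℝ) / p) ≤ 1 := by
    intro p hp
    have hpp : p.Prime := by
      unfold Pool.Agent.Y843.HS.Pr at hp
      exact (Finset.mem_filter.1 hp).2
    have h1 : ((Z p).card : ℝ) < p := by exact_mod_cast hs.loc p hpp
    have h2 : (0 : ℝ) < p := by exact_mod_cast hpp.pos
    constructor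
    · rw [sub_nonneg, div_le_one h2]
      exact h1.le
    · have : (0 : ℝ) ≤ ((Z p).card : ℝ) / p := by positivity
      linarith
  obtain ⟨S, hS⟩ : ∃ S : Finset ℕ, S = (Icc 1 ⌊X⌋₊).filter (fun p : ℕ => p.Prime ∧ ¬ p ∣ W) := ⟨_, rfl⟩
  have hsub : S ⊆ Pr 0 ⌊X⌋₊ := by
    intro p hp
    rw [hS] at hp
    obtain ⟨h1, h2, -⟩ := Finset.mem_filter.1 hp
    unfold Pool.Agent.Y843.HS.Pr
    rw [Finset.mem_filter, Finset.mem_Ioc]
    exact ⟨⟨h2.pos, (Finset.mem_Icc.1 h1).2⟩, h2⟩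
  have hle : VV Z 0 ⌊X⌋₊ ≤ VG ⌊X⌋₊ W q E := by
    have h3 : VG ⌊X⌋₊ W q E = ∏ p ∈ S, (1 - ((Z p).card : ℝ) / p) := by
      unfold VG
      rw [hS]
      refine prod_congr rfl fun p _ => ?_
      rw [hZc]
    rw [h3]
    unfold Pool.Agent.Y843.HS.VV
    rw [← Finset.prod_sdiff hsub]
    have h1 : ∏ p ∈ Pr 0 ⌊X⌋₊ \ S, (1 - ((Z p).card : ℝ) / p) ≤ 1 := by
      apply Finset.prod_le_one
      · intro p hp
        exact (h01 p (Finset.mem_sdiff.1 hp).1).1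
      · intro p hp
        exact (h01 p (Finset.mem_sdiff.1 hp).1).2
    have h2 : 0 ≤ ∏ p ∈ S, (1 - ((Z p).card : ℝ) / p) :=
      Finset.prod_nonneg fun p hp => (h01 p (hsub hp)).1
    exact mul_le_of_le_one_left h2 h1
  refine le_trans ?_ (hVV.trans hle)
  apply div_le_div_of_nonneg_left hcV.le (by positivity)
  exact pow_le_pow_left₀ hlogfl.le hlogle k

/-- the modulus -/
theorem mod_ex (M q u : ℕ) (hM : 1 ≤ M) (hu : ∀ p : ℕ, p.Prime → p ∣ u → p ∣ q) :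
    ∃ W : ℕ, 1 ≤ W ∧ W ≤ M ∧ (∀ p : ℕ, p.Prime → (p ∣ W ↔ p ∣ M ∧ ¬ p ∣ q)) ∧ IsCoprime (u : ℤ) (W : ℤ) := by
  classical
  obtain ⟨S, hS⟩ : ∃ S : Finset ℕ, S = M.primeFactors.filter (fun p => ¬ p ∣ q) := ⟨_, rfl⟩
  have hSm : ∀ p, p ∈ S ↔ p.Prime ∧ p ∣ M ∧ ¬ p ∣ q := by
    intro p
    rw [hS, mem_filter, Nat.mem_primeFactors]
    constructor
    · rintro ⟨⟨h1, h2, _⟩, h3⟩
      exact ⟨h1, h2, h3⟩
    · rintro ⟨h1, h2, h3⟩
      exact ⟨⟨h1, h2, by omega⟩, h3⟩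
  have hdvd : ∀ p : ℕ, p.Prime → (p ∣ ∏ p ∈ S, p ↔ p ∣ M ∧ ¬ p ∣ q) := by
    intro p hp
    constructor
    · intro h
      obtain ⟨r, hr, hd⟩ := (Nat.Prime.prime hp).exists_mem_finset_dvd h
      obtain ⟨h1, h2, h3⟩ := (hSm r).1 hr
      have e : p = r := (Nat.prime_dvd_prime_iff_eq hp h1).1 hd
      subst e
      exact ⟨h2, h3⟩
    · rintro ⟨h2, h3⟩
      exact Finset.dvd_prod_of_mem (fun p => p) ((hSm p).2 ⟨hp, h2, h3⟩)
  refine ⟨∏ p ∈ S, p, ?_, ?_, hdvd, ?_⟩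
  · exact Nat.succ_le_of_lt (prod_pos fun p hp => ((hSm p).1 hp).1.pos)
  · apply Nat.le_of_dvd (by omega)
    exact Finset.prod_primes_dvd M (fun p hp => ((hSm p).1 hp).1.prime) (fun p hp => ((hSm p).1 hp).2.1)
  · rw [Nat.isCoprime_iff_coprime]
    apply Nat.Coprime.symm
    apply Nat.Coprime.symm
    rw [Nat.coprime_iff_gcd_eq_one] at *
    by_contra hcon
    obtain ⟨p, hp, hd⟩ := Nat.exists_prime_and_dvd hcon
    have h1 : p ∣ u := hd.trans (Nat.gcd_dvd_left _ _)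
    have h2 : p ∣ ∏ p ∈ S, p := hd.trans (Nat.gcd_dvd_right _ _)
    exact ((hdvd p hp).1 h2).2 (hu p hp h1)

/-- the class -/
theorem class_ex (u W : ℕ) (hW : 1 ≤ W) (hc : IsCoprime (u : ℤ) (W : ℤ)) (m : ℤ) : ∃ w : ℕ, (W : ℤ) ∣ (u : ℤ) * w - m := by
  obtain ⟨a, b, hab⟩ := hc
  have hW0 : (0 : ℤ) < W := by exact_mod_cast hW
  refine ⟨((a * m) % (W : ℤ)).toNat, ?_⟩
  rw [Int.toNat_of_nonneg (Int.emod_nonneg _ hW0.ne')]
  have h1 : (a * m) % (W : ℤ) = a * m - (W : ℤ) * (a * m / (W : ℤ)) := by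
    have := Int.emod_add_mul_ediv (a * m) (W : ℤ)
    linarith
  rw [h1]
  refine ⟨-(u * (a * m / (W : ℤ))) - b * m, ?_⟩
  have h2 : a * u * m = m - b * W * m := by
    have : a * u = 1 - b * W := by linarith
    rw [this]
    ring
  linear_combination h2

end RGGa

open RGGa

/-- **RGG.** -/
theorem rgg : St_RGG := by
  classical
  intro hL hC hK k R h hk hR hh h25
  obtain ⟨t, ht, θ, hθ, c₁, hc₁, X₁, hL⟩ := hL k R h hR hh h25
  refine ⟨t, ht, θ, hθ, ?_⟩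
  intro ε hε
  obtain ⟨α, hα⟩ : ∃ α : ℝ, α = min (min θ (ε / 2)) 1 := ⟨_, rfl⟩
  have hα0 : 0 < α := by rw [hα]; exact lt_min (lt_min hθ (half_pos hε)) one_pos
  have hα1 : α ≤ 1 := by rw [hα]; exact min_le_right _ _
  have hαθ : α ≤ θ := by rw [hα]; exact (min_le_left _ _).trans (min_le_left _ _)
  have hαε : α ≤ ε / 2 := by rw [hα]; exact (min_le_left _ _).trans (min_le_right _ _)
  obtain ⟨cc, hcc, X₂, hC⟩ := cov_all hC k
  obtain ⟨X₃, hK⟩ := hK α hα0 hα1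
  obtain ⟨cV, hcV, hV⟩ := VG_low hk
  obtain ⟨X₄, hRk⟩ := Rk_ge
  obtain ⟨X₅, hOm⟩ := om_scale α hα0 hα1 (cc / 4) (by positivity)
  obtain ⟨c, hcdef⟩ : ∃ c : ℝ, c = cc * α / 16 := ⟨_, rfl⟩
  have hc0 : 0 < c := by rw [hcdef]; positivity
  have ev1 : ∀ᶠ X : ℝ in atTop, (Real.log X) ^ k ≤ c₁ * cV * X ^ (ε / 2) := by
    have h1 : (fun X : ℝ => (Real.log X) ^ (k : ℝ)) =o[atTop] fun X : ℝ => X ^ (ε / 2) :=
      isLittleO_log_rpow_rpow_atTop (k : ℝ) (by positivity)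
    have h2 := h1.bound (show (0 : ℝ) < c₁ * cV by positivity)
    filter_upwards [h2, eventually_ge_atTop 1] with X hX hX1
    have h3 : 0 ≤ Real.log X := Real.log_nonneg hX1
    rw [Real.norm_of_nonneg (by positivity), Real.norm_of_nonneg (by positivity),
      Real.rpow_natCast] at hX
    exact hX
  have hpow := tendsto_rpow_atTop hα0
  have hall : ∀ᶠ X : ℝ in atTop, (Real.log X) ^ k ≤ c₁ * cV * X ^ (ε / 2) ∧ X₁ ≤ X ∧ X₃ ≤ X ∧ 3 ≤ X ∧ X₂ ≤ X ^ α ∧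
      X₄ ≤ X ^ α ∧ X₅ ≤ X := by
    filter_upwards [ev1, eventually_ge_atTop X₁, eventually_ge_atTop X₃, eventually_ge_atTop 3,
      hpow.eventually_ge_atTop X₂, hpow.eventually_ge_atTop X₄, eventually_ge_atTop X₅] with X e1 g1 g3 g0 g2 g4 g5
    exact ⟨e1, g1, g3, g0, g2, g4, g5⟩
  obtain ⟨X0, hX0⟩ := eventually_atTop.1 hall
  refine ⟨c, hc0, X0, ?_⟩
  intro X hXX u q hu hq huX v hCuv hω E hEk hEc hAdQ e₀ he₀ B H hXH hHX hsize
  obtain ⟨e1, g1, g3, g0, g2, g4, g5⟩ := hX0 X hXX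
  have hXp : 0 < X := by linarith
  have hX1 : 1 ≤ X := by linarith
  obtain ⟨hRk0, hRk2, hRkα⟩ := hK X g3
  have hRkX := hRk (X ^ α) g4
  obtain ⟨hOmY, hωY⟩ := hOm X g5 q hω
  obtain ⟨Y, hY⟩ : ∃ Y : ℝ, Y = X ^ α := ⟨_, rfl⟩
  rw [← hY] at hRkα hRkX g2 hOmY hωY
  have hY1 : 1 ≤ Y := by rw [hY]; exact Real.one_le_rpow hX1 hα0.le
  obtain ⟨φ, hφ⟩ : ∃ φ : ℝ, φ = (Nat.totient q : ℝ) / q := ⟨_, rfl⟩
  rw [← hφ] at hEc ⊢
  have hφl := COVDa.phi_low q hq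
  rw [← hφ] at hφl
  have hω1 : (0 : ℝ) < (q.primeFactors.card : ℝ) + 1 := by
    have : (0 : ℝ) ≤ (q.primeFactors.card : ℝ) := Nat.cast_nonneg _
    linarith
  have hφ0 : 0 < φ := lt_of_lt_of_le (by positivity) hφl
  have hφω : 1 ≤ φ * ((q.primeFactors.card : ℝ) + 1) := by
    rw [div_le_iff₀ hω1] at hφl
    exact hφl
  have hφY : 1 ≤ cc / 4 * (φ * Rk Y) := by
    calc (1 : ℝ) ≤ φ * ((q.primeFactors.card : ℝ) + 1) := hφω
      _ ≤ φ * (cc / 4 * Real.log Y) := mul_le_mul_of_nonneg_left hωY hφ0.le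
      _ ≤ φ * (cc / 4 * Rk Y) := mul_le_mul_of_nonneg_left (mul_le_mul_of_nonneg_left hRkX (by positivity)) hφ0.le
      _ = _ := by ring
  obtain ⟨D, hD⟩ : ∃ D : ℝ, D = c * (φ * Rk X) := ⟨_, rfl⟩
  rw [← hD] at hEc ⊢
  have hcR : 0 < D := by rw [hD]; positivity
  obtain ⟨O, hO⟩ : ∃ O : ℕ, O = ⌈D⌉₊ := ⟨_, rfl⟩
  have hO1 : D ≤ O := by rw [hO]; exact Nat.le_ceil _
  have hO2 : (O : ℝ) < D + 1 := by rw [hO]; exact Nat.ceil_lt_add_one hcR.le
  have hO3 : 2 * (O : ℝ) ≤ cc * (φ * Rk Y) := by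
    have h1 : D ≤ c * (φ * (4 / α * Rk Y)) := by
      rw [hD]
      exact mul_le_mul_of_nonneg_left (mul_le_mul_of_nonneg_left hRkα hφ0.le) hc0.le
    have h2 : c * (φ * (4 / α * Rk Y)) = cc / 4 * (φ * Rk Y) := by
      rw [hcdef]
      field_simp
      ring
    rw [h2] at h1
    linarith
  -- nonnegativity of the shifted elements
  have hpos : ∀ s : ℤ, |(s : ℝ)| ≤ D → 0 ≤ s + O ∧ s + O ≤ 2 * O := by
    intro s hs
    have h1 := abs_le.1 (hs.trans hO1)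
    constructor
    · have : -(O : ℤ) ≤ s := by exact_mod_cast h1.1
      linarith
    · have : s ≤ (O : ℤ) := by exact_mod_cast h1.2
      linarith
  obtain ⟨E', hE'⟩ : ∃ E' : Finset ℕ, E' = E.image (fun e : ℤ => (e + O).toNat) := ⟨_, rfl⟩
  have hinj : ∀ s s' : ℤ, |(s : ℝ)| ≤ D → |(s' : ℝ)| ≤ D → (s + O).toNat = (s' + O).toNat → s = s' := by
    intro s s' hs hs' hss
    have h1 := (hpos s hs).1
    have h2 := (hpos s' hs').1
    have h3 : ((s + O).toNat : ℤ) = ((s' + O).toNat : ℤ) := by rw [hss]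
    rw [Int.toNat_of_nonneg h1, Int.toNat_of_nonneg h2] at h3
    linarith
  have hcard : E'.card = E.card := by
    rw [hE', Finset.card_image_of_injOn]
    intro s hs s' hs' hss
    exact hinj s s' (hEc s hs) (hEc s' hs') hss
  have hE1 : 1 ≤ E.card := Nat.succ_le_of_lt (card_pos.2 ⟨e₀, he₀⟩)
  have hle : ∀ s : ℤ, |(s : ℝ)| ≤ D → (((s + O).toNat : ℕ) : ℝ) ≤ cc * (φ * Rk Y) := by
    intro s hs
    have h1 := hpos s hs
    have h2 : (((s + O).toNat : ℕ) : ℤ) ≤ 2 * O := by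
      rw [Int.toNat_of_nonneg h1.1]; exact h1.2
    have h3 : (((s + O).toNat : ℕ) : ℝ) ≤ 2 * (O : ℝ) := by exact_mod_cast h2
    linarith
  have hAdmA : AdmA q E' := by
    intro p hp hpq
    obtain ⟨r, hr⟩ := hAdQ p hp hpq
    have hp0 : (p : ℤ) ≠ 0 := by exact_mod_cast hp.ne_zero
    refine ⟨((r - O) % (p : ℤ)).toNat, fun s hs hd => ?_⟩
    rw [hE', Finset.mem_image] at hs
    obtain ⟨e, he, rfl⟩ := hs
    apply hr e he
    have h1 : ((((r - O) % (p : ℤ)).toNat + (e + O).toNat : ℕ) : ℤ) =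
        (r - O) % (p : ℤ) + (e + O) := by
      rw [Nat.cast_add, Int.toNat_of_nonneg (Int.emod_nonneg _ hp0),
        Int.toNat_of_nonneg (hpos e (hEc e he)).1]
    have h2 : (p : ℤ) ∣ (r - O) % (p : ℤ) + (e + O) := by
      rw [← h1]
      exact_mod_cast hd
    have h3 : r + e = ((r - O) % (p : ℤ) + (e + O)) + (p : ℤ) * ((r - O) / (p : ℤ)) := by
      have := Int.emod_add_mul_ediv (r - O) (p : ℤ)
      linarith
    rw [h3]
    exact dvd_add h2 (dvd_mul_right _ _)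
  obtain ⟨a₀, ha₀⟩ := hC Y g2 q hq hOmY E' (by rw [hcard]; exact hE1) (by rw [hcard]; exact hEk) (by
    intro s hs
    rw [hE', Finset.mem_image] at hs
    obtain ⟨e, he, rfl⟩ := hs
    rw [← hφ]
    exact hle e (hEc e he)) hAdmA
  rw [← hφ] at ha₀
  obtain ⟨hM1, hM2, hM3⟩ := WW_bound hY1
  obtain ⟨W, hW1, hWM, hWp, hcop⟩ := mod_ex (WW Y ∅ 1) q u hM1 (fun p hp hpu => (hCuv p hp hpu).1)
  have hW0 : (0 : ℝ) < W := by exact_mod_cast hW1
  have hWX : (W : ℝ) ≤ X ^ (α / 500) := by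
    have h1 : (W : ℝ) ≤ (WW Y ∅ 1 : ℝ) := by exact_mod_cast hWM
    refine h1.trans (hM2.trans (le_of_eq ?_))
    rw [hY, ← Real.rpow_mul hXp.le]
    congr 1
    ring
  have hWθ : (W : ℝ) ≤ X ^ θ :=
    hWX.trans (Real.rpow_le_rpow_of_exponent_le hX1 (by linarith))
  have hWε : (W : ℝ) ≤ X ^ (ε / 2) :=
    hWX.trans (Real.rpow_le_rpow_of_exponent_le hX1 (by linarith))
  have huW : (u : ℝ) * W ≤ X := by
    have h1 : (W : ℝ) ≤ X ^ ε := hWX.trans (Real.rpow_le_rpow_of_exponent_le hX1 (by linarith))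
    calc (u : ℝ) * W ≤ X ^ (1 - ε) * X ^ ε := mul_le_mul huX h1 hW0.le (by positivity)
      _ = X := by
          rw [← Real.rpow_add hXp]
          have : (1 - ε) + ε = 1 := by ring
          rw [this, Real.rpow_one]
  obtain ⟨w, hw⟩ := class_ex u W hW1 hcop ((q : ℤ) * (a₀ + O) - v)
  -- the values at `w`
  have hgv : ∀ (p : ℕ), p ∣ W → ∀ s : ℤ, (p : ℤ) ∣ gv u q v s w - q * (a₀ + (s + O)) := by
    intro p hpW s
    have h1 : (p : ℤ) ∣ (u : ℤ) * w - ((q : ℤ) * (a₀ + O) - v) := dvd_trans (by exact_mod_cast hpW) hw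
    have h2 : gv u q v s w - q * (a₀ + (s + O)) = (u : ℤ) * w - ((q : ℤ) * (a₀ + O) - v) := by
      unfold gv
      ring
    rw [h2]
    exact h1
  have hgv2 : ∀ (p : ℕ), p.Prime → p ∣ W → ∀ s : ℤ, |(s : ℝ)| ≤ D →
      ((p : ℤ) ∣ gv u q v s w ↔ p ∣ a₀ + (s + O).toNat) := by
    intro p hp hpW s hs
    have h1 := hgv p hpW s
    have hpq : ¬ p ∣ q := ((hWp p hp).1 hpW).2
    have hpp : Prime (p : ℤ) := Nat.prime_iff_prime_int.1 hp
    have h2 : ((a₀ + (s + O).toNat : ℕ) : ℤ) = a₀ + (s + O) := by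
      rw [Nat.cast_add, Int.toNat_of_nonneg (hpos s hs).1]
    have h3 : (p ∣ a₀ + (s + O).toNat) ↔ (p : ℤ) ∣ (a₀ : ℤ) + (s + O) := by
      rw [← h2]
      exact Int.natCast_dvd_natCast.symm
    rw [h3]
    constructor
    · intro h4
      have h5 : (p : ℤ) ∣ (q : ℤ) * (a₀ + (s + O)) := by
        have h6 := dvd_sub h4 h1
        rwa [sub_sub_cancel] at h6
      rcases hpp.dvd_or_dvd h5 with h6 | h6
      · exact absurd (by exact_mod_cast h6) hpq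
      · exact h6
    · intro h4
      have h5 := dvd_add h1 (h4.mul_left (q : ℤ))
      rwa [sub_add_cancel] at h5
  -- no element of the set is divisible
  have F1 : ∀ p : ℕ, p.Prime → p ∣ W → ∀ e ∈ E, ¬ (p : ℤ) ∣ gv u q v e w := by
    intro p hp hpW e he hd
    have h1 : (e + O).toNat ∈ E' := by
      rw [hE', Finset.mem_image]
      exact ⟨e, he, rfl⟩
    obtain ⟨h3, h4⟩ := (hWp p hp).1 hpW
    exact (ha₀ _ (hle e (hEc e he))).2 h1 p hp h4 h3 ((hgv2 p hp hpW e (hEc e he)).1 hd)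
  have F2 : ∀ s : ℤ, |(s : ℝ)| ≤ D → s ∉ E → ∃ p : ℕ, p.Prime ∧ p ∣ W ∧ (p : ℤ) ∣ gv u q v s w := by
    intro s hs hsE
    have h1 : (s + O).toNat ∉ E' := by
      intro hcon
      rw [hE', Finset.mem_image] at hcon
      obtain ⟨e, he, hev⟩ := hcon
      have := hinj e s (hEc e he) hs hev
      exact hsE (this ▸ he)
    have h2 : ¬ ∀ p : ℕ, p.Prime → ¬ p ∣ q → p ∣ WW Y ∅ 1 → ¬ p ∣ a₀ + (s + O).toNat :=
      fun hcon => h1 ((ha₀ _ (hle s hs)).1 hcon)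
    push Not at h2
    obtain ⟨p, hp, hpq, hpM, hd⟩ := h2
    have hpW : p ∣ W := (hWp p hp).2 ⟨hpM, hpq⟩
    exact ⟨p, hp, hpW, (hgv2 p hp hpW s hs).2 hd⟩
  have hlogY : Real.log Y ≤ Real.log X := by
    rw [hY, Real.log_rpow hXp]
    exact mul_le_of_le_one_left (Real.log_nonneg hX1) hα1
  have hbig := hL X g1 u q hu hq v hCuv E hEk hAdQ e₀ he₀ W w hW1 hWθ huW F1 B H hXH hHX hsize
  -- the points
  have hsub : PtsA u q v E e₀ R W w (X ^ (h / 6)) (X ^ (1 / (t : ℝ))) B H ⊆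
      PtsS u q v E e₀ R (X ^ (h / 6)) (X ^ (1 / (t : ℝ))) D (Real.log X) B H := by
    intro n hn
    unfold PtsA at hn
    obtain ⟨hn0, hn1, hn2, hn3, hn4⟩ := Finset.mem_filter.1 hn
    unfold PtsS
    rw [Finset.mem_filter]
    refine ⟨hn0, hn2, hn3, hn4, ?_⟩
    intro s hs hsE hRo
    obtain ⟨p, hp, hpW, hd⟩ := F2 s hs hsE
    have h1 : (p : ℤ) ∣ (n : ℤ) - w := by
      have h2 : (n : ℤ) ≡ w [ZMOD W] := by exact_mod_cast hn1
      have h3 : (W : ℤ) ∣ (w : ℤ) - n := h2.dvd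
      have h4 : (p : ℤ) ∣ (w : ℤ) - n := dvd_trans (by exact_mod_cast hpW) h3
      rw [← neg_sub]
      exact (dvd_neg).2 h4
    have h5 : (p : ℤ) ∣ gv u q v s n := by
      have e : gv u q v s n = (u : ℤ) * ((n : ℤ) - w) + gv u q v s w := by
        unfold gv
        ring
      rw [e]
      exact dvd_add (h1.mul_left _) hd
    have h6 := hRo p hp h5
    have h7 := hM3 p hp ((hWp p hp).1 hpW).1
    linarith
  have hcardle : ((PtsA u q v E e₀ R W w (X ^ (h / 6)) (X ^ (1 / (t : ℝ))) B H).card : ℝ) ≤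
      ((PtsS u q v E e₀ R (X ^ (h / 6)) (X ^ (1 / (t : ℝ))) D (Real.log X) B H).card : ℝ) := by
    exact_mod_cast Finset.card_le_card hsub
  refine le_trans ?_ (hbig.trans hcardle)
  -- the size
  have hP := hV X g0 q (u * W) E hEk hAdQ
  have hlogX : 0 < Real.log X := Real.log_pos (by linarith)
  have hfin : X ^ (-ε) ≤ c₁ * (1 / W * (cV / Real.log X ^ k)) := by
    have h1 : (W : ℝ) * Real.log X ^ k ≤ X ^ (ε / 2) * (c₁ * cV * X ^ (ε / 2)) :=
      mul_le_mul hWε e1 (by positivity) (by positivity)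
    have h2 : X ^ (ε / 2) * (c₁ * cV * X ^ (ε / 2)) = c₁ * cV * X ^ ε := by
      have : X ^ ε = X ^ (ε / 2) * X ^ (ε / 2) := by
        rw [← Real.rpow_add hXp]
        congr 1
        ring
      rw [this]; ring
    rw [h2] at h1
    have h3 : c₁ * (1 / W * (cV / Real.log X ^ k)) = c₁ * cV / (W * Real.log X ^ k) := by
      field_simp
    rw [h3, Real.rpow_neg hXp.le, le_div_iff₀ (by positivity), inv_mul_le_iff₀ (by positivity)]
    linarith
  calc (H : ℝ) * X ^ (-ε) ≤ H * (c₁ * (1 / W * (cV / Real.log X ^ k))) :=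
        mul_le_mul_of_nonneg_left hfin (Nat.cast_nonneg _)
    _ = c₁ * ((H : ℝ) / W * (cV / Real.log X ^ k)) := by ring
    _ ≤ _ := by
        apply mul_le_mul_of_nonneg_left _ hc₁.le
        exact mul_le_mul_of_nonneg_left hP (by positivity)

end Pool.Agent.Q117.AP
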