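import Pool.Agent.Q117.AP.Stm
import Pool.Agent.Q117.LF.Rsa

/-!
# Project AP (helper117), job RSD: Rankin's choice of residue classes without the primes of a set `D`
-/

set_option autoImplicit false
set_option maxHeartbeats 4000000

namespace Pool.Agent.Q117.AP

open Finset Pool.Agent.H318R2.Cr Pool.Agent.H398R2.RK

open scoped Classical

/-- enlarging a product of factors `≥ 1` -/
theorem RSDa.prod_mono (E D : Finset ℕ) (h : E ⊆ D) (hp : ∀ p ∈ D, p.Prime) :
    (∏ p ∈ E, (1 - 1 / (p : ℝ)))⁻¹ ≤ ∏ p ∈ D, (1 - 1 / (p : ℝ))⁻¹ := by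
  have h1 := prod_sdiff (f := fun p : ℕ => (1 - 1 / (p : ℝ))⁻¹) h
  have hinv : ∀ p : ℕ, p.Prime → 1 ≤ (1 - 1 / (p : ℝ))⁻¹ := by
    intro p hp
    have h1 : (2 : ℝ) ≤ p := by exact_mod_cast hp.two_le
    have h2 : 1 / (p : ℝ) ≤ 1 / 2 := one_div_le_one_div_of_le (by norm_num) h1
    have h3 : 0 ≤ 1 / (p : ℝ) := by positivity
    exact (one_le_inv₀ (by linarith)).2 (by linarith)
  have h2 : 1 ≤ ∏ p ∈ D \ E, (1 - 1 / (p : ℝ))⁻¹ :=
    Finset.one_le_prod fun p hq => hinv p (hp p (mem_sdiff.1 hq).1)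
  have h3 : 0 ≤ ∏ p ∈ E, (1 - 1 / (p : ℝ))⁻¹ :=
    Finset.prod_nonneg fun p hq => zero_le_one.trans (hinv p (hp p (h hq)))
  rw [← prod_inv_distrib, ← h1]
  exact le_mul_of_one_le_left h3 h2

/-- **Job RSD** -/
theorem rsd : St_RSD := by
  intro K
  have hinv1 : ∀ p : ℕ, p.Prime → 1 ≤ (1 - 1 / (p : ℝ))⁻¹ := by
    intro p hp
    have h1 : (2 : ℝ) ≤ p := by exact_mod_cast hp.two_le
    have h2 : 1 / (p : ℝ) ≤ 1 / 2 := one_div_le_one_div_of_le (by norm_num) h1
    have h3 : 0 ≤ 1 / (p : ℝ) := by positivity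
    exact (one_le_inv₀ (by linarith)).2 (by linarith)
  obtain ⟨c₁, c₂, hc₁, hc₁₂, hV⟩ := cz_bounds
  obtain ⟨y₁, hsm⟩ := smooth_count
  obtain ⟨t₀, hev⟩ := ev_rec K
  have hc₂ : 0 < c₂ := hc₁.trans_le hc₁₂
  refine ⟨14 * (3 * 3) * (c₂ / c₁ * 40), by positivity,
    ⌈max y₁ (Real.exp (Real.exp t₀))⌉₊,
    fun y hyN S D hS hSsum hD hDcard H hyH hHy t htj => ?_⟩
  have hy : max y₁ (Real.exp (Real.exp t₀)) ≤ (y : ℝ) :=
    (Nat.le_ceil _).trans (by exact_mod_cast hyN)
  have hyH' : (y : ℝ) ≤ H := by exact_mod_cast hyH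
  have hsm' := hsm y ((le_max_left _ _).trans hy) H hyH'
  have hy' := (le_max_right _ _).trans hy
  have hy0 : (0 : ℝ) < y := (Real.exp_pos _).trans_le hy'
  have hL1' : Real.exp t₀ ≤ Real.log y := by
    rw [← Real.log_exp (Real.exp t₀)]; exact Real.log_le_log (Real.exp_pos _) hy'
  have hly : 0 < Real.log y := (Real.exp_pos _).trans_le hL1'
  set τ := Real.log (Real.log y) with hτ
  have htt : t₀ ≤ τ := by
    rw [← Real.log_exp t₀]; exact Real.log_le_log (Real.exp_pos _) hL1'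
  obtain ⟨h1, h2, h3, h4, h5, h6, h7K⟩ := hev τ htt
  have hLe : Real.log y = Real.exp τ := by rw [hτ, Real.exp_log hly]
  have hye : (y : ℝ) = Real.exp (Real.exp τ) := by rw [← hLe, Real.exp_log hy0]
  set V0 := Real.log y * Real.log τ / (10 * τ) with hV0
  have ht0 : 0 < τ := by linarith
  have hlt0 : 0 < Real.log τ := by linarith
  have hV1 : 2 * τ ≤ V0 := by
    rw [hV0, le_div_iff₀ (by positivity), hLe]
    nlinarith [Real.exp_pos τ]
  have hV1le : V0 ≤ Real.log y := by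
    rw [hV0, div_le_iff₀ (by positivity), hLe]
    nlinarith [Real.exp_pos τ]
  set v₀ : ℝ := (Real.log y) ^ 2 with hv₀
  have hv₀e : v₀ = Real.exp (2 * τ) := by
    rw [hv₀, hLe, ← Real.exp_nat_mul]; push_cast; ring_nf
  have hv₀0 : 0 < v₀ := by positivity
  have hL100 : 100 ≤ Real.log y := by rw [hLe]; exact h4
  have hDV : (D.card : ℝ) ≤ Real.exp (V0 / 4) := by
    refine hDcard.trans (le_of_eq ?_)
    rw [hV0, div_div]
    congr 2
    ring
  have hv₀big : 10000 ≤ v₀ := by rw [hv₀]; nlinarith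
  have hv₀y : v₀ ≤ y := by
    rw [hv₀e, hye]; apply Real.exp_le_exp.2; linarith
  set u : ℕ := ⌊v₀⌋₊ with hu
  set v : ℕ := ⌊Real.exp V0⌋₊ with hv
  have huv : u ≤ v := by
    rw [hu, hv]; apply Nat.floor_le_floor; rw [hv₀e]; exact Real.exp_le_exp.2 hV1
  have hu2 : 2 ≤ u := by
    rw [hu, Nat.le_floor_iff hv₀0.le]; push_cast; linarith
  have hvle : (v : ℝ) ≤ Real.exp V0 := Nat.floor_le (Real.exp_pos _).le
  have hule : (u : ℝ) ≤ v₀ := Nat.floor_le hv₀0.le
  have hv0 : (0 : ℝ) < v := by exact_mod_cast (by omega : 0 < v)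
  have hu0 : (0 : ℝ) < u := by exact_mod_cast (by omega : 0 < u)
  have hlu : Real.log u ≤ 2 * τ := by
    rw [← Real.log_exp (2 * τ), ← hv₀e]; exact Real.log_le_log hu0 hule
  have hlu0 : 0 < Real.log u := Real.log_pos (by exact_mod_cast (by omega : 1 < u))
  have hlv0 : 0 < Real.log v := Real.log_pos (by exact_mod_cast (by omega : 1 < v))
  have hlv : V0 / 2 ≤ Real.log v := by
    have h7 : Real.exp V0 < v + 1 := Nat.lt_floor_add_one _
    have h8 : (2 : ℝ) ≤ v := by exact_mod_cast (by omega : 2 ≤ v)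
    have h9 : Real.exp V0 ≤ (v : ℝ) ^ 2 := by nlinarith
    have h10 := Real.log_le_log (Real.exp_pos _) h9
    rw [Real.log_exp, Real.log_pow] at h10
    push_cast at h10; linarith
  have hvy : (v : ℝ) ≤ y := hvle.trans (by
    rw [← Real.exp_log hy0]; exact Real.exp_le_exp.2 hV1le)
  have hy2 : 2 ≤ y := by
    have : (2 : ℝ) ≤ y := by linarith
    exact_mod_cast this
  have hH0 : (0 : ℝ) < H := by linarith
  -- the primes of the greedy step
  set P0 : Finset ℕ := (Icc 1 v).filter (fun p : ℕ => p.Prime ∧ v₀ < (p : ℝ)) with hP0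
  set E0 : Finset ℕ := P0.filter (fun p => p ∈ S ∨ p ∈ D) with hE0
  set P : Finset ℕ := P0 \ E0 with hPdef
  have hP0p : ∀ p ∈ P0, p.Prime ∧ 3 ≤ p := by
    intro p hp
    rw [hP0, mem_filter] at hp
    refine ⟨hp.2.1, ?_⟩
    have : (3 : ℝ) < p := by linarith [hp.2.2]
    have : 3 < p := by exact_mod_cast this
    omega
  have hP0v : ∀ p ∈ P0, v₀ < (p : ℝ) := fun p hp => (mem_filter.1 hp).2.2
  have hP0v' : ∀ p ∈ P0, p ≤ v := fun p hp => (mem_Icc.1 (mem_filter.1 hp).1).2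
  have hPP0 : P ⊆ P0 := sdiff_subset
  have hPmem : ∀ p : ℕ, p.Prime → (p ∈ P ↔ v₀ < (p : ℝ) ∧ Real.log p ≤ V0 ∧ p ∉ S ∧ p ∉ D) := by
    intro p hp
    have hp0 : (0 : ℝ) < p := by exact_mod_cast hp.pos
    have hm0 : p ∈ P0 ↔ (v₀ < (p : ℝ) ∧ Real.log p ≤ V0) := by
      rw [hP0, mem_filter, mem_Icc, Real.log_le_iff_le_exp hp0, hv,
        Nat.le_floor_iff (Real.exp_pos _).le]
      constructor
      · rintro ⟨⟨_, h⟩, _, h'⟩; exact ⟨h', h⟩
      · rintro ⟨h, h'⟩; exact ⟨⟨hp.pos, h'⟩, hp, h⟩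
    have hmE : p ∈ E0 ↔ (p ∈ P0 ∧ (p ∈ S ∨ p ∈ D)) := by rw [hE0, mem_filter]
    have hmP : p ∈ P ↔ (p ∈ P0 ∧ p ∉ E0) := by rw [hPdef, mem_sdiff]
    rw [hmP, hmE, hm0]
    by_cases c1 : v₀ < (p : ℝ) <;> by_cases c2 : Real.log p ≤ V0 <;> by_cases c3 : p ∈ S <;>
      by_cases c4 : p ∈ D <;> simp [c1, c2, c3, c4]
  -- allowed classes
  set A : ℕ → Finset ℕ := fun p => (range p) \ (univ.image (fun j : Fin K => t j % p)) with hA
  have hAne : ∀ p ∈ P, A p ⊆ range p ∧ (A p).Nonempty := by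
    intro p hp
    refine ⟨sdiff_subset, ?_⟩
    rw [← card_pos]
    have h7 : (univ.image (fun j : Fin K => t j % p)).card ≤ K :=
      card_image_le.trans (by simp)
    have h8 := le_card_sdiff (univ.image (fun j : Fin K => t j % p)) (range p)
    rw [card_range] at h8
    have h9 : K < p := by
      have h10 := hP0v p (hPP0 hp)
      have h11 : (K : ℝ) ≤ v₀ := by
        rw [hv₀]
        have : (K : ℝ) ≤ Real.log y := by rw [hLe]; linarith [(Nat.cast_nonneg K : (0 : ℝ) ≤ K)]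
        nlinarith
      have : (K : ℝ) < p := by linarith
      exact_mod_cast this
    show 0 < (A p).card
    rw [hA]
    simp only
    omega
  -- R
  set R := (range (H + 1)).filter (fun k => (∀ j, k ≠ t j) ∧ ∀ p : ℕ, p.Prime → p ≤ y → p ∉ S → p ∉ D →
    p ∉ P → ¬ p ∣ k) with hR
  obtain ⟨b, hb, hbc⟩ := greedy_gen P A hAne R
  refine ⟨fun p => if p ∈ P then b p else 0, ?_, ?_⟩
  · intro p hp hpy hpS hpD
    by_cases hpP : p ∈ P
    · simp only [hpP, if_true]
      have h7 := hb p hpP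
      rw [hA] at h7
      simp only [mem_sdiff, mem_range, mem_image, mem_univ, true_and, not_exists] at h7
      refine ⟨h7.1, fun j hj => h7.2 j ?_⟩
      have : t j % p = b p % p := hj
      rw [this, Nat.mod_eq_of_lt h7.1]
    · simp only [hpP, if_false]
      refine ⟨hp.pos, fun j hj => ?_⟩
      exact (htj j).1 p hp hpy hpS hpD ((Nat.modEq_zero_iff_dvd).1 hj)
  intro Uf hUf
  have hsub1 : Uf ⊆
      R.filter (fun k => ∀ p ∈ P, ¬ k ≡ b p [MOD p]) := by
    intro k hk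
    replace hk := hUf k hk
    rw [mem_filter, hR, mem_filter, mem_range]
    refine ⟨⟨by have := hk.1; omega, hk.2.1, fun p hp hpy hpS hpD hpP => ?_⟩, fun p hpP => ?_⟩
    · have := hk.2.2 p hp hpy hpS hpD
      simp only [if_neg hpP] at this
      intro hd
      exact this ((Nat.modEq_zero_iff_dvd).2 hd)
    · have hpp := (hP0p p (hPP0 hpP)).1
      have hpm := (hPmem p hpp).1 hpP
      have hpy : p ≤ y := by
        have h7 := hP0v' p (hPP0 hpP)
        have : (p : ℝ) ≤ y := le_trans (by exact_mod_cast h7) hvy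
        exact_mod_cast this
      have := hk.2.2 p hpp hpy hpm.2.2.1 hpm.2.2.2
      simp only [if_pos hpP] at this
      exact this
  refine (Nat.cast_le.2 (card_le_card hsub1)).trans (hbc.trans ?_)
  -- size of R
  set D1 : Finset ℕ := D.filter (fun p => (p : ℝ) ≤ v₀) with hD1
  set D2 : Finset ℕ := D.filter (fun p => ¬ (p : ℝ) ≤ v₀) with hD2
  set D3 : Finset ℕ := D.filter (fun p => V0 < Real.log p) with hD3
  set G1 : ℝ := ∏ p ∈ D1, (1 - 1 / (p : ℝ))⁻¹ with hG1
  set G2 : ℝ := ∏ p ∈ D2, (1 - 1 / (p : ℝ))⁻¹ with hG2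
  have hG12 : ∏ p ∈ D, (1 - 1 / (p : ℝ))⁻¹ = G1 * G2 := by
    rw [hG1, hG2, hD1, hD2]
    exact (prod_filter_mul_prod_filter_not D (fun p : ℕ => (p : ℝ) ≤ v₀) _).symm
  have hG1' : 1 ≤ G1 := by
    rw [hG1]
    exact Finset.one_le_prod fun p hp => hinv1 p (hD p (mem_filter.1 hp).1)
  have hG2' : 1 ≤ G2 := by
    rw [hG2]
    exact Finset.one_le_prod fun p hp => hinv1 p (hD p (mem_filter.1 hp).1)
  have hRsub : R ⊆ {0} ∪ (((Icc 1 H).filter (fun k => ∃ s ∈ S, s ∣ k)) ∪
      (((Icc 1 H).filter (fun k => ∃ q m : ℕ, q.Prime ∧ y < q ∧ k = q * m ∧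
        ∀ p : ℕ, p.Prime → p ∣ m → p ∈ D1)) ∪
      (((Icc 1 H).filter (fun k => ∃ s ∈ D3, s ∣ k)) ∪
      (Finset.Icc 1 H).filter (fun m => ∀ p : ℕ, p.Prime → p ∣ m → Real.log p ≤ V0)))) := by
    intro k hk
    rw [hR, mem_filter, mem_range] at hk
    obtain ⟨hkH, _, hk2⟩ := hk
    rw [mem_union]
    by_cases hk0 : k = 0
    · left
      rw [hk0]
      exact mem_singleton_self _
    right
    have hk1 : 1 ≤ k := by omega
    have hkI : k ∈ Icc 1 H := by rw [mem_Icc]; omega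
    simp only [mem_union, mem_filter]
    by_cases hA1 : ∃ s ∈ S, s ∣ k
    · exact Or.inl ⟨hkI, hA1⟩
    right
    push Not at hA1
    have hfac : ∀ q : ℕ, q.Prime → q ∣ k → (q ∈ D ∨ q ∈ P ∨ y < q) := by
      intro q hq hd
      by_contra hcon
      push Not at hcon
      have hqS : q ∉ S := fun h => hA1 q h hd
      exact hk2 q hq hcon.2.2 hqS hcon.1 hcon.2.1 hd
    by_cases hB1 : ∃ q : ℕ, q.Prime ∧ q ∣ k ∧ y < q
    · left
      refine ⟨hkI, ?_⟩
      obtain ⟨q, hq, ⟨m, rfl⟩, hyq⟩ := hB1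
      have hm0 : m ≠ 0 := by rintro rfl; simp at hk0
      have hmv : (m : ℝ) < v₀ := by
        have h7 : (q : ℝ) * m ≤ H := by exact_mod_cast (by omega : q * m ≤ H)
        have h8 : (0 : ℝ) < m := by exact_mod_cast Nat.pos_of_ne_zero hm0
        have h10 : (y : ℝ) < q := by exact_mod_cast hyq
        have h9 : (y : ℝ) * m < y * v₀ := by
          calc (y : ℝ) * m < q * m := by gcongr
            _ ≤ H := h7
            _ ≤ _ := hHy
        exact lt_of_mul_lt_mul_left h9 hy0.le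
      refine ⟨q, m, hq, hyq, rfl, fun r hr hrd => ?_⟩
      have hrm : (r : ℝ) ≤ m := by exact_mod_cast Nat.le_of_dvd (Nat.pos_of_ne_zero hm0) hrd
      rcases hfac r hr (hrd.mul_left q) with h | h | h
      · rw [hD1, mem_filter]
        exact ⟨h, by linarith⟩
      · have := hP0v r (hPP0 h); linarith
      · have : (y : ℝ) < r := by exact_mod_cast h
        linarith
    · right
      push Not at hB1
      have hfac' : ∀ q : ℕ, q.Prime → q ∣ k → (q ∈ D ∨ q ∈ P) := by
        intro q hq hd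
        rcases hfac q hq hd with h | h | h
        · exact Or.inl h
        · exact Or.inr h
        · have := hB1 q hq hd; omega
      by_cases hC : ∃ s ∈ D3, s ∣ k
      · left
        exact ⟨hkI, hC⟩
      · right
        push Not at hC
        refine ⟨hkI, fun q hq hd => ?_⟩
        rcases hfac' q hq hd with h | h
        · by_contra h9
          exact hC q (by rw [hD3, mem_filter]; exact ⟨h, not_le.1 h9⟩) hd
        · exact ((hPmem q hq).1 h).2.1
  have hRcard : (R.card : ℝ) ≤ 14 * G1 * H / Real.log y := by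
    have e1 := mult_count S (fun q hq => (hS q hq).1.pos) H
    have e2 := LF.RSAa.qm_count D1 (fun p hp => hD p (mem_filter.1 hp).1) y H hy2
    rw [← hG1] at e2
    have e3 := mult_count D3 (fun q hq => (hD q (mem_filter.1 hq).1).pos) H
    have e4 : ∑ q ∈ D3, (1 : ℝ) / q ≤ 1 / Real.log y := by
      have g1 : ∀ q ∈ D3, (1 : ℝ) / q ≤ Real.exp (-V0) := by
        intro q hq
        have g2 := (mem_filter.1 hq).2
        have g3 : (0 : ℝ) < q := by exact_mod_cast (hD q (mem_filter.1 hq).1).pos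
        have g4 : Real.exp V0 ≤ q := by
          rw [← Real.exp_log g3]
          exact Real.exp_le_exp.2 g2.le
        rw [Real.exp_neg, one_div]
        exact inv_anti₀ (Real.exp_pos _) g4
      have g5 : (D3.card : ℝ) ≤ D.card := by exact_mod_cast card_le_card (filter_subset _ _)
      calc ∑ q ∈ D3, (1 : ℝ) / q ≤ ∑ q ∈ D3, Real.exp (-V0) := sum_le_sum g1
        _ = D3.card * Real.exp (-V0) := by rw [sum_const, nsmul_eq_mul]
        _ ≤ Real.exp (V0 / 4) * Real.exp (-V0) := by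
            gcongr
            exact g5.trans hDV
        _ = Real.exp (-(3 / 4 * V0)) := by
            rw [← Real.exp_add]
            congr 1
            ring
        _ ≤ Real.exp (-τ) := Real.exp_le_exp.2 (by linarith)
        _ = 1 / Real.log y := by rw [Real.exp_neg, ← hLe, one_div]
    have h7 : R.card ≤ 1 + (((Icc 1 H).filter (fun k => ∃ s ∈ S, s ∣ k)).card +
      (((Icc 1 H).filter (fun k => ∃ q m : ℕ, q.Prime ∧ y < q ∧ k = q * m ∧
        ∀ p : ℕ, p.Prime → p ∣ m → p ∈ D1)).card +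
      (((Icc 1 H).filter (fun k => ∃ s ∈ D3, s ∣ k)).card +
      ((Finset.Icc 1 H).filter (fun m => ∀ p : ℕ, p.Prime → p ∣ m → Real.log p ≤ V0)).card))) := by
      refine (card_le_card hRsub).trans ((card_union_le _ _).trans ?_)
      rw [card_singleton]
      apply Nat.add_le_add_left
      refine (card_union_le _ _).trans ?_
      apply Nat.add_le_add_left
      refine (card_union_le _ _).trans ?_
      apply Nat.add_le_add_left
      exact card_union_le _ _
    have h8 : (R.card : ℝ) ≤ 1 + ((((Icc 1 H).filter (fun k => ∃ s ∈ S, s ∣ k)).card : ℝ) +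
      ((((Icc 1 H).filter (fun k => ∃ q m : ℕ, q.Prime ∧ y < q ∧ k = q * m ∧
        ∀ p : ℕ, p.Prime → p ∣ m → p ∈ D1)).card : ℝ) +
      ((((Icc 1 H).filter (fun k => ∃ s ∈ D3, s ∣ k)).card : ℝ) +
      (((Finset.Icc 1 H).filter (fun m => ∀ p : ℕ, p.Prime → p ∣ m → Real.log p ≤ V0)).card : ℝ)))) := by
      exact_mod_cast h7
    have h9 : (H : ℝ) * ∑ q ∈ S, (1 : ℝ) / q ≤ H / Real.log y := by
      calc (H : ℝ) * ∑ q ∈ S, (1 : ℝ) / q ≤ H * (12 / (Real.log y) ^ 2) := by gcongr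
        _ ≤ H / Real.log y := by
          rw [mul_div_assoc', div_le_div_iff₀ (by positivity) hly]
          nlinarith [mul_pos hH0 hly]
    have h10 : (H : ℝ) * ∑ q ∈ D3, (1 : ℝ) / q ≤ H / Real.log y := by
      calc (H : ℝ) * ∑ q ∈ D3, (1 : ℝ) / q ≤ H * (1 / Real.log y) := by gcongr
        _ = H / Real.log y := by ring
    have h11 : (H : ℝ) / (Real.log y) ^ 3 ≤ H / Real.log y := by
      apply div_le_div_of_nonneg_left hH0.le hly
      nlinarith [sq_nonneg (Real.log y)]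
    have h13 : 0 < (H : ℝ) / Real.log y := by positivity
    have h14 : 1 ≤ (H : ℝ) / Real.log y := by
      rw [one_le_div hly]
      have := Real.log_le_self hy0.le
      linarith
    have h15 : (H : ℝ) / Real.log y ≤ G1 * (H / Real.log y) := by nlinarith
    have h12 : 14 * G1 * (H : ℝ) / Real.log y = 10 * H / Real.log y * G1 +
      4 * (G1 * (H / Real.log y)) := by ring
    linarith
  -- the product over P0
  have hPv : V v = V u * ∏ p ∈ P0, (1 - 1 / (p : ℝ)) := by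
    have h7 : Pz v = Pz u ∪ P0 := by
      ext p
      rw [mem_union, mem_Pz, mem_Pz, hP0, mem_filter, mem_Icc, hu, Nat.le_floor_iff hv₀0.le]
      constructor
      · rintro ⟨hp, hpv⟩
        by_cases h : (p : ℝ) ≤ v₀
        · exact Or.inl ⟨hp, h⟩
        · exact Or.inr ⟨⟨hp.pos, hpv⟩, hp, not_le.1 h⟩
      · rintro (⟨hp, hpu⟩ | ⟨⟨_, hpv⟩, hp, _⟩)
        · refine ⟨hp, ?_⟩
          have : p ≤ u := by rw [hu, Nat.le_floor_iff hv₀0.le]; exact hpu
          omega
        · exact ⟨hp, hpv⟩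
    have h8 : Disjoint (Pz u) P0 := by
      rw [Finset.disjoint_left]
      intro p hp hpS
      have h9 := (mem_Pz.1 hp).2
      rw [hu, Nat.le_floor_iff hv₀0.le] at h9
      have := hP0v p hpS
      linarith
    unfold V
    rw [h7, prod_union h8]
  have hP0prod : ∏ p ∈ P0, (1 - 1 / (p : ℝ)) ≤ c₂ / c₁ * 40 * (τ ^ 2 / (Real.log y * Real.log τ)) := by
    have h7 := (hV v (by omega)).2
    have h8 := (hV u hu2).1
    rw [hPv] at h7
    have hVu := V_pos u
    have h9 : c₁ * (∏ p ∈ P0, (1 - 1 / (p : ℝ))) * (V0 / 2) ≤ c₂ * (2 * τ) := by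
      have hnn : 0 ≤ ∏ p ∈ P0, (1 - 1 / (p : ℝ)) :=
        Finset.prod_nonneg fun p hp => (one_sub_inv_pos (hP0p p hp).1).le
      calc c₁ * (∏ p ∈ P0, (1 - 1 / (p : ℝ))) * (V0 / 2)
          ≤ (V u * Real.log u) * (∏ p ∈ P0, (1 - 1 / (p : ℝ))) * Real.log v := by
            gcongr
        _ = (V u * (∏ p ∈ P0, (1 - 1 / (p : ℝ))) * Real.log v) * Real.log u := by ring
        _ ≤ c₂ * Real.log u := by gcongr
        _ ≤ _ := by gcongr
    have hV0pos : 0 < V0 := by linarith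
    have h10 : ∏ p ∈ P0, (1 - 1 / (p : ℝ)) ≤ c₂ * (2 * τ) / (c₁ * (V0 / 2)) := by
      rw [le_div_iff₀ (by positivity)]
      linarith
    refine h10.trans (le_of_eq ?_)
    rw [hV0]
    field_simp
    ring
  set E1 : Finset ℕ := P0.filter (fun p => p ∈ S) with hE1
  have hE1sum : ∑ p ∈ E1, 1 / (p : ℝ) ≤ 1 / 2 := by
    have h7 : E1 ⊆ S := fun p hp => (mem_filter.1 hp).2
    calc ∑ p ∈ E1, 1 / (p : ℝ) ≤ ∑ p ∈ S, 1 / (p : ℝ) :=
          sum_le_sum_of_subset_of_nonneg h7 (fun _ _ _ => by positivity)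
      _ ≤ 1 / 2 := by
          refine hSsum.trans ?_
          rw [div_le_div_iff₀ (by positivity) (by norm_num)]
          have : v₀ = (Real.log y) ^ 2 := hv₀
          linarith
  have hP1prod : ∏ p ∈ P0 \ E1, (1 - 1 / (p : ℝ)) ≤ (∏ p ∈ P0, (1 - 1 / (p : ℝ))) * 3 := by
    have h7 := prod_drop' P0 E1 hP0p (filter_subset _ _) (1 / 2) hE1sum
    refine h7.trans ?_
    have hnn : 0 ≤ ∏ p ∈ P0, (1 - 1 / (p : ℝ)) :=
      Finset.prod_nonneg fun p hp => (one_sub_inv_pos (hP0p p hp).1).le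
    have h8 : Real.exp (2 * (1 / 2)) ≤ 3 := by
      rw [show (2 : ℝ) * (1 / 2) = 1 by norm_num]
      have := Real.exp_one_lt_d9
      linarith
    gcongr
  have hPprod : ∏ p ∈ P, (1 - 1 / (p : ℝ)) ≤ (∏ p ∈ P0, (1 - 1 / (p : ℝ))) * 3 * G2 := by
    have h7 : P = (P0 \ E1).filter (fun p => p ∉ D) := by
      ext p
      have m1 : p ∈ P ↔ (p ∈ P0 ∧ p ∉ E0) := by rw [hPdef, mem_sdiff]
      have m2 : p ∈ E0 ↔ (p ∈ P0 ∧ (p ∈ S ∨ p ∈ D)) := by rw [hE0, mem_filter]
      have m3 : p ∈ (P0 \ E1).filter (fun p => p ∉ D) ↔ ((p ∈ P0 ∧ p ∉ E1) ∧ p ∉ D) := by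
        rw [mem_filter, mem_sdiff]
      have m4 : p ∈ E1 ↔ (p ∈ P0 ∧ p ∈ S) := by rw [hE1, mem_filter]
      rw [m1, m2, m3, m4]
      by_cases c1 : p ∈ P0 <;> by_cases c2 : p ∈ S <;> by_cases c3 : p ∈ D <;> simp [c1, c2, c3]
    have h8 := prod_filter_mul_prod_filter_not (P0 \ E1) (fun p => p ∉ D) (fun p : ℕ => 1 - 1 / (p : ℝ))
    rw [← h7] at h8
    set E2 : Finset ℕ := (P0 \ E1).filter (fun p => ¬ p ∉ D) with hE2
    have h9 : E2 ⊆ D2 := by
      intro p hp
      have m1 : p ∈ E2 ↔ ((p ∈ P0 ∧ p ∉ E1) ∧ ¬ p ∉ D) := by rw [hE2, mem_filter, mem_sdiff]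
      have m2 : p ∈ D2 ↔ (p ∈ D ∧ ¬ (p : ℝ) ≤ v₀) := by rw [hD2, mem_filter]
      have hp' := m1.1 hp
      exact m2.2 ⟨not_not.1 hp'.2, not_le.2 (hP0v p hp'.1.1)⟩
    have h10 : (∏ p ∈ E2, (1 - 1 / (p : ℝ)))⁻¹ ≤ G2 :=
      RSDa.prod_mono E2 D2 h9 fun p hp => hD p (mem_filter.1 hp).1
    have h11 : 0 < ∏ p ∈ E2, (1 - 1 / (p : ℝ)) :=
      Finset.prod_pos fun p hp => one_sub_inv_pos (hD p (mem_filter.1 (h9 hp)).1)
    have h12 : ∏ p ∈ P, (1 - 1 / (p : ℝ)) = (∏ p ∈ P0 \ E1, (1 - 1 / (p : ℝ))) *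
        (∏ p ∈ E2, (1 - 1 / (p : ℝ)))⁻¹ := by
      rw [← h8, mul_assoc, mul_inv_cancel₀ h11.ne', mul_one]
    rw [h12]
    exact mul_le_mul hP1prod h10 (inv_nonneg.2 h11.le) (mul_nonneg
      (Finset.prod_nonneg fun p hp => (one_sub_inv_pos (hP0p p hp).1).le) (by norm_num))
  have hPnn : 0 ≤ ∏ p ∈ P, (1 - 1 / (p : ℝ)) :=
    Finset.prod_nonneg fun p hp => (one_sub_inv_pos (hP0p p (hPP0 hp)).1).le
  -- log H
  have hlogH : Real.log H ≤ 3 * Real.log y := by
    have h9 : Real.log H ≤ Real.log (y * (Real.log y) ^ 2) := Real.log_le_log hH0 hHy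
    rw [Real.log_mul hy0.ne' (by positivity), Real.log_pow, ← hτ] at h9
    have h10 : τ ≤ Real.log y := by rw [hLe]; linarith
    push_cast at h9
    linarith
  -- each k
  have hfib : ∀ k ∈ R, ∏ p ∈ P.filter (fun p => k % p ∈ A p), (1 - 1 / ((A p).card : ℝ)) ≤
      (∏ p ∈ P, (1 - 1 / (p : ℝ))) * 3 := by
    intro k hk
    rw [hR, mem_filter, mem_range] at hk
    obtain ⟨hkH, hkt, _⟩ := hk
    set E : Finset ℕ := P.filter (fun p => ¬ k % p ∈ A p) with hE
    have hEcard : (E.card : ℝ) ≤ K * (6 * Real.log y) := by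
      have h7 : E ⊆ univ.biUnion (fun j : Fin K => (if k < t j then t j - k else k - t j).primeFactors) := by
        intro p hp
        rw [hE, mem_filter] at hp
        obtain ⟨hpP, hpA⟩ := hp
        have hpp := (hP0p p (hPP0 hpP)).1
        rw [hA] at hpA
        simp only [mem_sdiff, mem_range, mem_image, mem_univ, true_and, not_and, not_not,
          Nat.mod_lt k hpp.pos, forall_true_left] at hpA
        obtain ⟨j, hj⟩ := hpA
        rw [mem_biUnion]
        refine ⟨j, mem_univ _, ?_⟩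
        have hmod : t j ≡ k [MOD p] := hj
        split_ifs with hlt
        · rw [Nat.mem_primeFactors]
          exact ⟨hpp, (Nat.modEq_iff_dvd' hlt.le).1 hmod.symm, by omega⟩
        · rw [Nat.mem_primeFactors]
          have := hkt j
          exact ⟨hpp, (Nat.modEq_iff_dvd' (by omega)).1 hmod, by omega⟩
      have h8 : ∀ j : Fin K, (((if k < t j then t j - k else k - t j).primeFactors.card : ℕ) : ℝ) ≤ 6 * Real.log y := by
        intro j
        have hd1 : 1 ≤ (if k < t j then t j - k else k - t j) := by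
          have := hkt j
          split_ifs <;> omega
        have hd2 : (if k < t j then t j - k else k - t j) ≤ H := by
          have := (htj j).2
          split_ifs <;> omega
        have h9 := card_primeFactors_le _ hd1
        have h10 : Real.log ((if k < t j then t j - k else k - t j : ℕ) : ℝ) ≤ Real.log H :=
          Real.log_le_log (by exact_mod_cast hd1) (by exact_mod_cast hd2)
        linarith
      calc (E.card : ℝ) ≤ ((univ.biUnion (fun j : Fin K => (if k < t j then t j - k else k - t j).primeFactors)).card : ℝ) := by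
            exact_mod_cast card_le_card h7
        _ ≤ ∑ j : Fin K, (((if k < t j then t j - k else k - t j).primeFactors.card : ℕ) : ℝ) := by
            exact_mod_cast card_biUnion_le
        _ ≤ ∑ j : Fin K, 6 * Real.log y := sum_le_sum fun j _ => h8 j
        _ = _ := by simp
    have h7 : P.filter (fun p => k % p ∈ A p) = P \ E := by
      ext p
      have hmE : p ∈ E ↔ (p ∈ P ∧ ¬ k % p ∈ A p) := by rw [hE, mem_filter]
      have hmPE : p ∈ P \ E ↔ (p ∈ P ∧ p ∉ E) := Finset.mem_sdiff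
      rw [mem_filter, hmPE, hmE]
      by_cases c1 : p ∈ P <;> by_cases c2 : k % p ∈ A p <;> simp only [c1, c2, true_and, false_and,
        and_true, not_true, not_false_iff, and_self, and_false]
    have h8 : ∏ p ∈ P.filter (fun p => k % p ∈ A p), (1 - 1 / ((A p).card : ℝ)) ≤
        ∏ p ∈ P.filter (fun p => k % p ∈ A p), (1 - 1 / (p : ℝ)) := by
      apply Finset.prod_le_prod
      · intro p hp
        have h9 : 1 ≤ (A p).card := card_pos.2 (hAne p (mem_filter.1 hp).1).2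
        have h10 : (1 : ℝ) ≤ (A p).card := by exact_mod_cast h9
        have : 1 / ((A p).card : ℝ) ≤ 1 := by rw [div_le_one (by linarith)]; exact h10
        linarith
      · intro p hp
        have h9 : 1 ≤ (A p).card := card_pos.2 (hAne p (mem_filter.1 hp).1).2
        have h10 : (1 : ℝ) ≤ (A p).card := by exact_mod_cast h9
        have h11 : (A p).card ≤ p := by
          have := card_le_card (hAne p (mem_filter.1 hp).1).1
          rwa [card_range] at this
        have h12 : ((A p).card : ℝ) ≤ p := by exact_mod_cast h11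
        have : 1 / (p : ℝ) ≤ 1 / ((A p).card : ℝ) := one_div_le_one_div_of_le (by linarith) h12
        linarith
    refine h8.trans ?_
    rw [h7]
    have h9 := prod_drop P E (fun p hp => hP0p p (hPP0 hp)) (filter_subset _ _) v₀ (K * (6 * Real.log y)) hv₀0
      (fun p hp => hP0v p (hPP0 (mem_filter.1 hp).1)) hEcard
    refine h9.trans ?_
    have h10 : 2 * ((K : ℝ) * (6 * Real.log y)) / v₀ ≤ 1 := by
      rw [div_le_one hv₀0, hv₀]
      have h11 : 12 * ((K : ℝ) + 1) ≤ Real.log y := by rw [hLe]; exact h7K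
      nlinarith
    have h11 : Real.exp (2 * ((K : ℝ) * (6 * Real.log y)) / v₀) ≤ 3 := by
      calc _ ≤ Real.exp 1 := Real.exp_le_exp.2 h10
        _ ≤ 3 := by have := Real.exp_one_lt_d9; linarith
    gcongr
  calc ∑ k ∈ R, ∏ p ∈ P.filter (fun p => k % p ∈ A p), (1 - 1 / ((A p).card : ℝ))
      ≤ ∑ k ∈ R, (∏ p ∈ P, (1 - 1 / (p : ℝ))) * 3 := sum_le_sum hfib
    _ = R.card * ((∏ p ∈ P, (1 - 1 / (p : ℝ))) * 3) := by rw [sum_const, nsmul_eq_mul]
    _ ≤ (14 * G1 * H / Real.log y) * (((c₂ / c₁ * 40 * (τ ^ 2 / (Real.log y * Real.log τ))) * 3 * G2) * 3) := by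
        have h7 : ∏ p ∈ P, (1 - 1 / (p : ℝ)) ≤ (c₂ / c₁ * 40 * (τ ^ 2 / (Real.log y * Real.log τ))) * 3 * G2 :=
          hPprod.trans (by gcongr)
        gcongr
    _ = _ := by
        rw [hG12]
        field_simp
        ring

end Pool.Agent.Q117.AP
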