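import Pool.Agent.Q117.AP.Lge
import Pool.Agent.Q117.AP.Nge
import Pool.Agent.Q117.AP.Uge
import Pool.Agent.Q117.AP.Lgc
import Pool.Agent.Q117.AP.Rsd
import Pool.Agent.Q117.AP.Covd
import Pool.Agent.Q117.AP.Rgg
import Pool.Agent.Q117.AP.Cls
import Pool.Agent.Q117.AP.Pat
import Pool.Agent.Q117.AP.Prf
import Pool.Agent.Q117.AP.Prg
import Pool.Agent.Q117.AP.Prna
import Pool.Agent.Q117.SI.Wz
import Pool.Agent.Q117.SI.Rks
import Pool.Agent.Q117.LF.Main5

/-!
Project AP (helper117): the assembled theorems.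
-/

set_option autoImplicit false

namespace Pool.Agent.Q117.AP

theorem lgeC : LGEc := lge Pool.Agent.Q117.SI.wz

theorem ngeC : NGEc := nge lgeC uge lgc Pool.Agent.Q184.LF.avg

theorem rggC : RGGc := rgg lgeC (covd rsd) Pool.Agent.Q117.SI.rks

theorem clsC : CLSc := cls rggC Pool.Agent.Q117.SI.rks

theorem patC : PATc := pat ngeC

theorem prfC : PRFc := prf ngeC uge

theorem prgC : PRGc := prg rggC Pool.Agent.Q117.SI.rks

theorem prnC : PRNc := prn ngeC

end Pool.Agent.Q117.AP
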