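import Pool.Agent.Q117.AP.Stm

/-!
Project AP (helper117), job LGE (helper14): the lower bound with a growing modulus.
-/

set_option autoImplicit false

namespace Pool.Agent.Q117.AP.LGEa

open Finset Filter
open Pool.Agent.Q117.LF (Ro oF)
open Pool.Agent.Q253.Thin (SysZ)
open Pool.Agent.Y843.HS (Pr VV Pr_mem Pr_prime)

theorem gv_mod (u q : ℕ) (v e : ℤ) {p n n' : ℕ} (h : n ≡ n' [MOD p]) :
    (p : ℤ) ∣ gv u q v e n ↔ (p : ℤ) ∣ gv u q v e n' := by
  have h1 : (p : ℤ) ∣ (n' : ℤ) - n := (Nat.modEq_iff_dvd.1 h)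
  have h2 : gv u q v e n' = gv u q v e n + u * ((n' : ℤ) - n) := by
    unfold gv
    ring
  rw [h2]
  exact (dvd_add_left (Dvd.dvd.mul_left h1 _)).symm

open Classical in
/-- the classes of the `m` for which some value has the factor `p` at `W m + w` -/
noncomputable def Zs (u q : ℕ) (v : ℤ) (E : Finset ℤ) (W w p : ℕ) : Finset ℕ :=
  (range p).filter (fun m : ℕ => ∃ e ∈ E, (p : ℤ) ∣ gv u q v e (W * m + w))

theorem mem_Zs {u q : ℕ} {v : ℤ} {E : Finset ℤ} {W w p m : ℕ} :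
    m ∈ Zs u q v E W w p ↔ m < p ∧ ∃ e ∈ E, (p : ℤ) ∣ gv u q v e (W * m + w) := by
  unfold Zs
  rw [mem_filter, mem_range]

theorem oF_le_self (E : Finset ℤ) {p : ℕ} (hp : 0 < p) : oF E p ≤ p := by
  classical
  unfold oF
  have h1 : E.image (fun e : ℤ => e % (p : ℤ)) ⊆ Finset.Ico (0 : ℤ) p := by
    intro x hx
    obtain ⟨e, -, rfl⟩ := mem_image.1 hx
    have hp' : (0 : ℤ) < p := by exact_mod_cast hp
    rw [Finset.mem_Ico]
    exact ⟨Int.emod_nonneg _ hp'.ne', Int.emod_lt_of_pos _ hp'⟩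
  refine (card_le_card h1).trans ?_
  rw [Int.card_Ico, sub_zero, Int.toNat_natCast]

theorem oF_lt (E : Finset ℤ) {p : ℕ} (hp : 0 < p) {r : ℤ} (hr : ∀ e ∈ E, ¬ (p : ℤ) ∣ r + e) :
    oF E p < p := by
  classical
  unfold oF
  have hp' : (0 : ℤ) < p := by exact_mod_cast hp
  have h1 : E.image (fun e : ℤ => e % (p : ℤ)) ⊂ Finset.Ico (0 : ℤ) p := by
    rw [Finset.ssubset_iff_of_subset]
    · refine ⟨(-r) % (p : ℤ), ?_, ?_⟩
      · rw [Finset.mem_Ico]
        exact ⟨Int.emod_nonneg _ hp'.ne', Int.emod_lt_of_pos _ hp'⟩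
      · intro hx
        obtain ⟨e, he, h2⟩ := mem_image.1 hx
        apply hr e he
        have h3 : (p : ℤ) ∣ (-r) - e := Int.ModEq.dvd h2
        have h4 : r + e = -((-r) - e) := by ring
        rw [h4]
        exact (dvd_neg).2 h3
    · intro x hx
      obtain ⟨e, -, rfl⟩ := mem_image.1 hx
      rw [Finset.mem_Ico]
      exact ⟨Int.emod_nonneg _ hp'.ne', Int.emod_lt_of_pos _ hp'⟩
  refine lt_of_lt_of_le (card_lt_card h1) ?_
  rw [Int.card_Ico, sub_zero, Int.toNat_natCast]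

theorem oG_le_self (q : ℕ) (E : Finset ℤ) {p : ℕ} (hp : p.Prime) : oG q E p ≤ p := by
  unfold oG
  split_ifs
  · exact hp.one_le
  · exact oF_le_self E hp.pos

theorem oG_lt {q : ℕ} {E : Finset ℤ} (hE : AdQ q E) {p : ℕ} (hp : p.Prime) : oG q E p < p := by
  unfold oG
  split_ifs with h
  · exact hp.one_lt
  · obtain ⟨r, hr⟩ := hE p hp h
    exact oF_lt E hp.pos hr

theorem oG_le_k {k q : ℕ} {E : Finset ℤ} (hE : E.card ≤ k) (p : ℕ) : oG q E p ≤ k + 1 := by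
  unfold oG
  split_ifs
  · omega
  · have : oF E p ≤ E.card := card_image_le
    omega

theorem zero_lt_oG {q : ℕ} {E : Finset ℤ} (hE : E.Nonempty) (p : ℕ) : 1 ≤ oG q E p := by
  classical
  unfold oG
  split_ifs
  · exact le_refl _
  · unfold oF
    rw [Nat.one_le_iff_ne_zero, Ne, card_eq_zero, image_eq_empty]
    exact hE.ne_empty

/-- the classes for `p ∤ u W` -/
theorem Zs_card_le {u q : ℕ} {v : ℤ} {E : Finset ℤ} (hE : E.Nonempty) {W w p : ℕ} (hp : p.Prime)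
    (hu : ¬ p ∣ u) (hW : ¬ p ∣ W) : (Zs u q v E W w p).card ≤ oG q E p := by
  classical
  have hpi : Prime (p : ℤ) := Nat.prime_iff_prime_int.1 hp
  have huW : ¬ (p : ℤ) ∣ (u : ℤ) * W := by
    intro h
    rcases hpi.dvd_or_dvd h with h1 | h1
    · exact hu (by exact_mod_cast h1)
    · exact hW (by exact_mod_cast h1)
  have key : ∀ m m' : ℕ, m < p → m' < p → (p : ℤ) ∣ (u : ℤ) * W * ((m : ℤ) - m') → m = m' := by
    intro m m' h1 h2 h3
    have h4 := (hpi.dvd_or_dvd h3).resolve_left huW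
    have h5 : m' ≡ m [MOD p] := Nat.modEq_iff_dvd.2 h4
    have h6 : m' % p = m % p := h5
    rw [Nat.mod_eq_of_lt h1, Nat.mod_eq_of_lt h2] at h6
    exact h6.symm
  have gdiff : ∀ (e e' : ℤ) (m m' : ℕ), gv u q v e (W * m + w) - gv u q v e' (W * m' + w) =
      (u : ℤ) * W * ((m : ℤ) - m') + q * (e - e') := by
    intro e e' m m'
    unfold gv
    push_cast
    ring
  unfold oG
  split_ifs with hq
  · rw [card_le_one]
    intro m hm m' hm'
    obtain ⟨h1, e, -, h2⟩ := mem_Zs.1 hm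
    obtain ⟨h1', e', -, h2'⟩ := mem_Zs.1 hm'
    apply key m m' h1 h1'
    have h3 := h2.sub h2'
    rw [gdiff] at h3
    have h4 : (p : ℤ) ∣ (q : ℤ) * (e - e') := Dvd.dvd.mul_right (by exact_mod_cast hq) _
    exact (dvd_add_left h4).1 h3
  · have hqi : ¬ (p : ℤ) ∣ (q : ℤ) := fun h => hq (by exact_mod_cast h)
    have hch : ∀ m : ℕ, ∃ e : ℤ, m ∈ Zs u q v E W w p →
        e ∈ E ∧ (p : ℤ) ∣ gv u q v e (W * m + w) := by
      intro m
      by_cases hm : m ∈ Zs u q v E W w p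
      · obtain ⟨-, e, he, h2⟩ := mem_Zs.1 hm
        exact ⟨e, fun _ => ⟨he, h2⟩⟩
      · exact ⟨0, fun h => absurd h hm⟩
    choose f hf using hch
    unfold oF
    apply card_le_card_of_injOn (fun m => f m % (p : ℤ))
    · intro m hm
      rw [coe_image]
      exact ⟨f m, (hf m hm).1, rfl⟩
    · intro m hm m' hm' he
      have he' : f m % (p : ℤ) = f m' % (p : ℤ) := he
      have h1 := (hf m hm).2
      have h1' := (hf m' hm').2
      apply key m m' (mem_Zs.1 hm).1 (mem_Zs.1 hm').1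
      have h3 := h1.sub h1'
      rw [gdiff] at h3
      have h4 : (p : ℤ) ∣ f m - f m' := Int.ModEq.dvd (show f m' ≡ f m [ZMOD p] from he'.symm)
      exact (dvd_add_left (Dvd.dvd.mul_left h4 _)).1 h3

/-- no class for `p ∣ W` -/
theorem Zs_emptyW {u q : ℕ} {v : ℤ} {E : Finset ℤ} {W w p : ℕ}
    (h : ∀ e ∈ E, ¬ (p : ℤ) ∣ gv u q v e w) (hW : p ∣ W) : Zs u q v E W (w % W) p = ∅ := by
  rw [eq_empty_iff_forall_notMem]
  intro m hm
  obtain ⟨-, e, he, h2⟩ := mem_Zs.1 hm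
  apply h e he
  refine (gv_mod u q v e ?_).1 h2
  have h1 : w % W ≡ w [MOD p] := (Nat.mod_modEq w W).of_dvd hW
  have h3 : W * m ≡ 0 [MOD p] := Nat.modEq_zero_iff_dvd.2 (hW.mul_right m)
  simpa using h3.add h1

/-- no class for `p ∣ u` -/
theorem Zs_emptyu {u q : ℕ} {v : ℤ} (hc : Cuv u q v) (E : Finset ℤ) (W w : ℕ) {p : ℕ} (hp : p.Prime)
    (hu : p ∣ u) : Zs u q v E W w p = ∅ := by
  rw [eq_empty_iff_forall_notMem]
  intro m hm
  obtain ⟨-, e, -, h⟩ := mem_Zs.1 hm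
  obtain ⟨h1, h2⟩ := hc p hp hu
  refine h2 ?_
  unfold gv at h
  have h3 : (p : ℤ) ∣ (u : ℤ) * ((W * m + w : ℕ) : ℤ) := Dvd.dvd.mul_right (by exact_mod_cast hu) _
  have h4 : (p : ℤ) ∣ (q : ℤ) * e := Dvd.dvd.mul_right (by exact_mod_cast h1) _
  have h5 : v = (u : ℤ) * ((W * m + w : ℕ) : ℤ) + v + q * e - (u : ℤ) * ((W * m + w : ℕ) : ℤ) -
      q * e := by ring
  rw [h5]
  exact (h.sub h3).sub h4

open Classical in
/-- the classes -/
noncomputable def Zc (u q : ℕ) (v : ℤ) (E : Finset ℤ) (e₀ : ℤ) (W w : ℕ) (y : ℝ) (p : ℕ) :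
    Finset ℕ :=
  if (p : ℝ) < y then Zs u q v E W w p
  else (range p).filter (fun m : ℕ => (p : ℤ) ∣ gv u q v e₀ (W * m + w))

theorem Zc_sub (u q : ℕ) (v : ℤ) (E : Finset ℤ) {e₀ : ℤ} (he₀ : e₀ ∈ E) (W w : ℕ) (y : ℝ) (p : ℕ) :
    Zc u q v E e₀ W w y p ⊆ Zs u q v E W w p := by
  classical
  unfold Zc
  split_ifs
  · exact Subset.refl _
  · intro m hm
    rw [mem_filter, mem_range] at hm
    exact mem_Zs.2 ⟨hm.1, e₀, he₀, hm.2⟩

theorem Zc_card {u q : ℕ} {v : ℤ} (hc : Cuv u q v) {E : Finset ℤ} {e₀ : ℤ} (he₀ : e₀ ∈ E) {W w : ℕ}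
    (y : ℝ) {p : ℕ} (hp : p.Prime) (h : p ∣ W → ∀ e ∈ E, ¬ (p : ℤ) ∣ gv u q v e w) :
    (Zc u q v E e₀ W (w % W) y p).card ≤ oG q E p ∧
      (p ∣ u * W → (Zc u q v E e₀ W (w % W) y p).card = 0) := by
  have h1 := card_le_card (Zc_sub u q v E he₀ W (w % W) y p)
  have h2 : p ∣ u * W → (Zc u q v E e₀ W (w % W) y p).card = 0 := by
    intro hd
    rcases hp.dvd_mul.1 hd with h3 | h3
    · rw [Zs_emptyu hc E W _ hp h3, card_empty] at h1
      omega
    · rw [Zs_emptyW (h h3) h3, card_empty] at h1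
      omega
  refine ⟨?_, h2⟩
  by_cases hd : p ∣ u * W
  · rw [h2 hd]
    exact Nat.zero_le _
  · refine h1.trans (Zs_card_le ⟨e₀, he₀⟩ hp ?_ ?_)
    · exact fun h3 => hd (h3.mul_right _)
    · exact fun h3 => hd (h3.mul_left _)

theorem mod_aff (q v m p : ℕ) : q * (m % p) + v ≡ q * m + v [MOD p] :=
  ((Nat.mod_modEq m p).mul_left q).add_right v

theorem Zc_sys {k u q : ℕ} {v : ℤ} (hc : Cuv u q v) {E : Finset ℤ} (hk : E.card ≤ k)
    (hE : AdQ q E) {e₀ : ℤ} (he₀ : e₀ ∈ E) {W w : ℕ} (y : ℝ)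
    (h : ∀ p : ℕ, p.Prime → p ∣ W → ∀ e ∈ E, ¬ (p : ℤ) ∣ gv u q v e w) :
    SysZ (k + 1) (Zc u q v E e₀ W (w % W) y) where
  card p hp := ((Zc_card hc he₀ y hp (h p hp)).1).trans (oG_le_k hk p)
  loc p hp := lt_of_le_of_lt (Zc_card hc he₀ y hp (h p hp)).1 (oG_lt hE hp)
  lt p hp c hcc := (mem_Zs.1 (Zc_sub u q v E he₀ W (w % W) y p hcc)).1

theorem VG_fac {q : ℕ} (E : Finset ℤ) {p : ℕ} (hp : p.Prime) :
    0 ≤ 1 - (oG q E p : ℝ) / p ∧ 1 - (oG q E p : ℝ) / p ≤ 1 := by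
  have hp0 : (0 : ℝ) < p := by exact_mod_cast hp.pos
  constructor
  · rw [sub_nonneg, div_le_one hp0]
    exact_mod_cast oG_le_self q E hp
  · have : (0 : ℝ) ≤ (oG q E p : ℝ) / p := by positivity
    linarith

theorem VG_nonneg (y u q : ℕ) (E : Finset ℤ) : 0 ≤ VG y u q E := by
  unfold VG
  exact prod_nonneg fun p hp => (VG_fac E (mem_filter.1 hp).2.1).1

theorem VV_ge {u q : ℕ} {v : ℤ} (hc : Cuv u q v) {E : Finset ℤ} {e₀ : ℤ} (he₀ : e₀ ∈ E) {W w : ℕ}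
    (y : ℝ) (h : ∀ p : ℕ, p.Prime → p ∣ W → ∀ e ∈ E, ¬ (p : ℤ) ∣ gv u q v e w) {H' Y : ℕ}
    (hHY : H' ≤ Y) : VG Y (u * W) q E ≤ VV (Zc u q v E e₀ W (w % W) y) 0 H' := by
  classical
  have hsub : (Pr 0 H').filter (fun p => ¬ p ∣ u * W) ⊆
      (Icc 1 Y).filter (fun p : ℕ => p.Prime ∧ ¬ p ∣ u * W) := by
    intro p hp
    rw [mem_filter, Pr_mem] at hp
    rw [mem_filter, mem_Icc]
    exact ⟨⟨hp.1.1.1, hp.1.1.2.trans hHY⟩, hp.1.2, hp.2⟩
  have h1 : VG Y (u * W) q E ≤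
      ∏ p ∈ (Pr 0 H').filter (fun p => ¬ p ∣ u * W), (1 - (oG q E p : ℝ) / p) := by
    unfold VG
    rw [← prod_sdiff hsub]
    apply mul_le_of_le_one_left
    · exact prod_nonneg fun p hp => (VG_fac E (Pr_prime (mem_filter.1 hp).1)).1
    · apply prod_le_one
      · intro p hp
        exact (VG_fac E (mem_filter.1 (Finset.mem_sdiff.1 hp).1).2.1).1
      · intro p hp
        exact (VG_fac E (mem_filter.1 (Finset.mem_sdiff.1 hp).1).2.1).2
  refine h1.trans ?_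
  have h2 : VV (Zc u q v E e₀ W (w % W) y) 0 H' =
      ∏ p ∈ (Pr 0 H').filter (fun p => ¬ p ∣ u * W),
        (1 - ((Zc u q v E e₀ W (w % W) y p).card : ℝ) / p) := by
    unfold VV
    rw [← prod_filter_mul_prod_filter_not (Pr 0 H') (fun p => ¬ p ∣ u * W)]
    have h3 : ∏ p ∈ (Pr 0 H').filter (fun p => ¬ ¬ p ∣ u * W),
        (1 - ((Zc u q v E e₀ W (w % W) y p).card : ℝ) / p) = 1 := by
      apply prod_eq_one
      intro p hp
      rw [mem_filter, not_not] at hp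
      have hpp := Pr_prime hp.1
      rw [(Zc_card hc he₀ y hpp (h p hpp)).2 hp.2]
      simp
    rw [h3, mul_one]
  rw [h2]
  apply Finset.prod_le_prod
  · intro p hp
    exact (VG_fac E (Pr_prime (mem_filter.1 hp).1)).1
  · intro p hp
    have hpp := Pr_prime (mem_filter.1 hp).1
    have h3 := (Zc_card hc he₀ y hpp (h p hpp)).1
    have hp0 : (0 : ℝ) < p := by exact_mod_cast hpp.pos
    have h4 : ((Zc u q v E e₀ W (w % W) y p).card : ℝ) / p ≤ (oG q E p : ℝ) / p :=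
      div_le_div_of_nonneg_right (by exact_mod_cast h3) hp0.le
    linarith

end Pool.Agent.Q117.AP.LGEa

namespace Pool.Agent.Q117.AP

open Finset Filter
open Pool.Agent.Q117.LF (Ro oF)
open Pool.Agent.Q117.SI (St_WZ PtsZ)
open Pool.Agent.Q253.Thin (SysZ)
open Pool.Agent.Y843.HS (Pr VV Pr_mem Pr_prime)
open LGEa

/-- **LGE** -/
theorem lge : St_LGE := by
  classical
  intro hWZ k R h hR hh1 hr
  have hr1 : (1 : ℝ) ≤ R := by exact_mod_cast hR
  have h8 : (0 : ℝ) < 3 * (8 * R - 1) := by linarith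
  have hh0 : 0 < h := by
    by_contra hcon
    push Not at hcon
    nlinarith
  obtain ⟨h₀, hh₀⟩ : ∃ h₀ : ℝ, h₀ = 25 / (3 * (8 * R - 1)) := ⟨_, rfl⟩
  have hlt : h₀ < h := by
    rw [hh₀, div_lt_iff₀ h8]
    linarith
  obtain ⟨h', hh'⟩ : ∃ h' : ℝ, h' = max ((h + h₀) / 2) (9 / 10 * h) := ⟨_, rfl⟩
  have h1' : (h + h₀) / 2 ≤ h' := by rw [hh']; exact le_max_left _ _
  have h2' : 9 / 10 * h ≤ h' := by rw [hh']; exact le_max_right _ _
  have h3' : h' < h := by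
    rw [hh']
    apply max_lt <;> linarith
  have h4' : 25 < 3 * (8 * R - 1) * h' := by
    have : h₀ < h' := by linarith
    rw [hh₀, div_lt_iff₀ h8] at this
    linarith
  have h'0 : 0 < h' := by linarith
  obtain ⟨δ, hδ, ε, hε, S, hS, X0', HW⟩ := hWZ (k + 1) R h' (by omega) hR (by linarith) h4'
  obtain ⟨t0, ht0⟩ := exists_nat_one_div_lt hε
  have hθ : 0 < min ((h - h') / 4) (min (1 / 4) (S - 1)) :=
    lt_min (by linarith) (lt_min (by norm_num) (by linarith))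
  -- eventual inequalities
  have ev1 : ∀ᶠ X : ℝ in atTop, (4 : ℝ) * 2 ≤ X ^ (3 / 4 * (h - h')) :=
    (tendsto_rpow_atTop (by linarith)).eventually_ge_atTop _
  have ev2 : ∀ᶠ X : ℝ in atTop, (8 : ℝ) ≤ X ^ (3 / 4 * h) :=
    (tendsto_rpow_atTop (by linarith)).eventually_ge_atTop _
  obtain ⟨X1, e1⟩ := eventually_atTop.1 (ev1.and ev2)
  refine ⟨t0 + 1, by omega, min ((h - h') / 4) (min (1 / 4) (S - 1)), hθ, δ / 2, by positivity,
    max (max X0' X1) 2, ?_⟩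
  intro X hX u q hu hq v hcuv E hEk hAd e₀ he₀ W w hW hWX huWX hWw B H hH hHX hsz
  have x0 : (X0' : ℝ) ≤ X := ((le_max_left _ _).trans (le_max_left _ _)).trans hX
  have x1 : X1 ≤ X := ((le_max_right _ _).trans (le_max_left _ _)).trans hX
  have x2 : (2 : ℝ) ≤ X := (le_max_right _ _).trans hX
  obtain ⟨e2, e3⟩ := e1 X x1
  have hX1 : (1 : ℝ) ≤ X := by linarith
  have hX0 : (0 : ℝ) < X := by linarith
  have hqX1 : (W : ℝ) ≤ X ^ ((h - h') / 4) :=
    hWX.trans (Real.rpow_le_rpow_of_exponent_le hX1 (min_le_left _ _))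
  have hθS : 1 + min ((h - h') / 4) (min (1 / 4) (S - 1)) ≤ S := by
    have : min ((h - h') / 4) (min (1 / 4) (S - 1)) ≤ S - 1 :=
      (min_le_right _ _).trans (min_le_right _ _)
    linarith
  have hq0 : (0 : ℝ) < W := by exact_mod_cast hW
  have hq1 : (1 : ℝ) ≤ W := by exact_mod_cast hW
  -- the scale
  obtain ⟨Y, hY⟩ : ∃ Y : ℕ, Y = ⌈X⌉₊ := ⟨_, rfl⟩
  have hYX : X ≤ Y := by rw [hY]; exact Nat.le_ceil X
  have hYX2 : (Y : ℝ) ≤ 2 * X := by
    have := Nat.ceil_lt_add_one hX0.le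
    rw [← hY] at this
    linarith
  have hYX0 : X0' ≤ Y := by
    have : (X0' : ℝ) ≤ Y := x0.trans hYX
    exact_mod_cast this
  obtain ⟨w', hv⟩ : ∃ w' : ℕ, w' = w % W := ⟨_, rfl⟩
  have hvq : w' < W := by rw [hv]; exact Nat.mod_lt _ hW
  obtain ⟨H', hH'⟩ : ∃ H' : ℕ, H' = H / W - 3 := ⟨_, rfl⟩
  obtain ⟨B', hB'⟩ : ∃ B' : ℕ, B' = B / W + 1 := ⟨_, rfl⟩
  -- the length of the window
  have hHq8 : 8 ≤ (H : ℝ) / W := by
    rw [le_div_iff₀ hq0]
    refine le_trans ?_ hH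
    calc 8 * (W : ℝ) ≤ X ^ (3 / 4 * h) * X ^ ((h - h') / 4) :=
          mul_le_mul e3 hqX1 hq0.le (by positivity)
      _ = X ^ (3 / 4 * h + (h - h') / 4) := by rw [← Real.rpow_add hX0]
      _ ≤ X ^ h := Real.rpow_le_rpow_of_exponent_le hX1 (by linarith)
  have hdiv : (H : ℝ) / W - 1 ≤ ((H / W : ℕ) : ℝ) := by
    have h1 := Nat.div_add_mod H W
    have h2 := Nat.mod_lt H (show 0 < W by omega)
    have h3 : (H : ℝ) ≤ W * ((H / W : ℕ) : ℝ) + W := by
      have : H ≤ W * (H / W) + W := by omega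
      exact_mod_cast this
    have h4 : (H : ℝ) / W ≤ ((H / W : ℕ) : ℝ) + 1 := by
      rw [div_le_iff₀ hq0]
      linarith
    linarith
  have hHn : 3 ≤ H / W := by
    have : (3 : ℝ) ≤ ((H / W : ℕ) : ℝ) := by linarith
    exact_mod_cast this
  have hH'r : (H' : ℝ) = ((H / W : ℕ) : ℝ) - 3 := by
    rw [hH', Nat.cast_sub hHn]
    push_cast
    rfl
  have hHhalf : (H : ℝ) / W / 2 ≤ H' := by
    rw [hH'r]
    linarith
  have hHY' : (Y : ℝ) ^ h' ≤ H' := by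
    refine le_trans ?_ hHhalf
    rw [div_div, le_div_iff₀ (by positivity)]
    refine le_trans ?_ hH
    have h5 : (Y : ℝ) ^ h' ≤ 2 * X ^ h' := by
      calc (Y : ℝ) ^ h' ≤ (2 * X) ^ h' := Real.rpow_le_rpow (by positivity) hYX2 h'0.le
        _ = 2 ^ h' * X ^ h' := Real.mul_rpow (by norm_num) hX0.le
        _ ≤ 2 * X ^ h' := by
            apply mul_le_mul_of_nonneg_right _ (by positivity)
            calc (2 : ℝ) ^ h' ≤ 2 ^ (1 : ℝ) := Real.rpow_le_rpow_of_exponent_le (by norm_num) (by linarith)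
              _ = 2 := Real.rpow_one _
    calc (Y : ℝ) ^ h' * (W * 2) ≤ (2 * X ^ h') * (X ^ ((h - h') / 4) * 2) := by
          apply mul_le_mul h5 _ (by positivity) (by positivity)
          linarith
      _ = 4 * (X ^ h' * X ^ ((h - h') / 4)) := by ring
      _ ≤ X ^ (3 / 4 * (h - h')) * (X ^ h' * X ^ ((h - h') / 4)) :=
          mul_le_mul_of_nonneg_right (by linarith) (by positivity)
      _ = X ^ h := by
          rw [← Real.rpow_add hX0, ← Real.rpow_add hX0]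
          congr 1
          ring
  have hHfl : H ≤ ⌊X⌋₊ := Nat.le_floor hHX
  have hH'H : H' ≤ H := by
    rw [hH']
    exact (Nat.sub_le _ _).trans (Nat.div_le_self _ _)
  have hHY : H' ≤ Y := by
    have h6 : (H' : ℝ) ≤ Y := by
      have : (H' : ℝ) ≤ H := by exact_mod_cast hH'H
      linarith
    exact_mod_cast h6
  -- the window
  have hwin : ∀ m ∈ Ioc B' (B' + H'), W * m + w' ∈ Ioc B (B + H) := by
    intro m hm
    rw [mem_Ioc] at hm ⊢
    have h1 := Nat.div_add_mod B W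
    have h2 := Nat.mod_lt B (show 0 < W by omega)
    have h3 := Nat.div_add_mod H W
    constructor
    · have h5 : W * (B / W + 2) ≤ W * m := Nat.mul_le_mul_left W (by omega)
      have h6 : W * (B / W + 2) = W * (B / W) + 2 * W := by ring
      omega
    · have h5 : m + 2 ≤ B / W + H / W := by omega
      have h6 : W * (m + 2) ≤ W * (B / W + H / W) := Nat.mul_le_mul_left W h5
      have h7 : W * (m + 2) = W * m + 2 * W := by ring
      have h8 : W * (B / W + H / W) = W * (B / W) + W * (H / W) := by ring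
      omega
  -- the main form
  obtain ⟨a, ha⟩ : ∃ a : ℤ, a = (u : ℤ) * W := ⟨_, rfl⟩
  obtain ⟨b, hb⟩ : ∃ b : ℤ, b = (u : ℤ) * w' + v + q * e₀ := ⟨_, rfl⟩
  have hfm : ∀ m : ℕ, a * m + b = gv u q v e₀ (W * m + w') := by
    intro m
    unfold gv
    rw [ha, hb]
    push_cast
    ring
  have ha_ne : a ≠ 0 := by
    rw [ha]
    have h1 : (u : ℤ) ≠ 0 := by exact_mod_cast (by omega : u ≠ 0)
    have h2 : (W : ℤ) ≠ 0 := by exact_mod_cast (by omega : W ≠ 0)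
    exact mul_ne_zero h1 h2
  have haY : |a| ≤ (Y : ℤ) := by
    have h1 : (u : ℝ) * W ≤ Y := huWX.trans hYX
    have h2 : u * W ≤ Y := by exact_mod_cast h1
    rw [ha, abs_of_nonneg (by positivity)]
    exact_mod_cast h2
  have hcop : IsCoprime a b := by
    rw [Int.isCoprime_iff_gcd_eq_one]
    by_contra hg
    obtain ⟨p, hp, hpg⟩ := Nat.exists_prime_and_dvd hg
    have h1 : (p : ℤ) ∣ a := (Int.natCast_dvd_natCast.2 hpg).trans (Int.gcd_dvd_left ..)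
    have h2 : (p : ℤ) ∣ b := (Int.natCast_dvd_natCast.2 hpg).trans (Int.gcd_dvd_right ..)
    have hpi : Prime (p : ℤ) := Nat.prime_iff_prime_int.1 hp
    rw [ha] at h1
    rcases hpi.dvd_or_dvd h1 with h3 | h3
    · have h4 : p ∣ u := by exact_mod_cast h3
      obtain ⟨h5, h6⟩ := hcuv p hp h4
      apply h6
      have h7 : (p : ℤ) ∣ (u : ℤ) * w' := h3.mul_right _
      have h8 : (p : ℤ) ∣ (q : ℤ) * e₀ := Dvd.dvd.mul_right (by exact_mod_cast h5) _
      have h9 : v = b - (u : ℤ) * w' - q * e₀ := by rw [hb]; ring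
      rw [h9]
      exact (h2.sub h7).sub h8
    · have h4 : p ∣ W := by exact_mod_cast h3
      apply hWw p hp h4 e₀ he₀
      have h5 : (p : ℤ) ∣ gv u q v e₀ w' := by
        unfold gv
        rw [← hb]
        exact h2
      refine (gv_mod u q v e₀ ?_).1 h5
      rw [hv]
      exact (Nat.mod_modEq w W).of_dvd h4
  have hsize : ∀ m ∈ Ioc B' (B' + H'), ((|a * m + b| : ℤ) : ℝ) ≤ (Y : ℝ) ^ S := by
    intro m hm
    rw [hfm, Int.cast_abs]
    refine (hsz _ (hwin m hm)).trans ?_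
    calc X ^ (1 + min ((h - h') / 4) (min (1 / 4) (S - 1))) ≤ X ^ S :=
          Real.rpow_le_rpow_of_exponent_le hX1 hθS
      _ ≤ (Y : ℝ) ^ S := Real.rpow_le_rpow hX0.le hYX (by linarith)
  -- the classes
  obtain ⟨Z, hZ⟩ : ∃ Z : ℕ → Finset ℕ, Z = Zc u q v E e₀ W w' ((Y : ℝ) ^ ε) := ⟨_, rfl⟩
  have hZs : SysZ (k + 1) Z := by
    rw [hZ, hv]
    exact Zc_sys hcuv hEk hAd he₀ _ hWw
  have hZmem1 : ∀ p : ℕ, p.Prime → (p : ℝ) < (Y : ℝ) ^ ε → ∀ m : ℕ,
      (m % p ∈ Z p ↔ ∃ e ∈ E, (p : ℤ) ∣ gv u q v e (W * m + w')) := by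
    intro p hp hpY m
    rw [hZ]
    unfold Zc
    rw [if_pos hpY, mem_Zs]
    constructor
    · rintro ⟨_, e, he, hl⟩
      exact ⟨e, he, (gv_mod u q v e (mod_aff W w' m p)).1 hl⟩
    · rintro ⟨e, he, hl⟩
      exact ⟨Nat.mod_lt _ hp.pos, e, he, (gv_mod u q v e (mod_aff W w' m p)).2 hl⟩
  have hZmem2 : ∀ p : ℕ, p.Prime → (Y : ℝ) ^ ε ≤ p → ∀ m : ℕ,
      (m % p ∈ Z p ↔ (p : ℤ) ∣ a * m + b) := by
    intro p hp hpY m
    rw [hZ]
    unfold Zc
    rw [if_neg (not_lt.2 hpY), hfm, mem_filter, mem_range, gv_mod u q v e₀ (mod_aff W w' m p)]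
    constructor
    · rintro ⟨_, h1⟩
      exact h1
    · intro h1
      exact ⟨Nat.mod_lt _ hp.pos, h1⟩
  have key := HW Y hYX0 a b ha_ne haY hcop Z hZs
    (fun p hp hpY m hd => (hZmem1 p hp hpY m).2 ⟨e₀, he₀, by rw [← hfm]; exact hd⟩) hZmem2
    B' H' hHY' hHY hsize
  -- the comparison of the sets
  have hcard : (PtsZ a b Z R ((Y : ℝ) ^ (h' / 5)) ((Y : ℝ) ^ ε) B' H').card ≤
      (PtsA u q v E e₀ R W w (X ^ (h / 6)) (X ^ (1 / ((t0 + 1 : ℕ) : ℝ))) B H).card := by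
    apply card_le_card_of_injOn (fun m => W * m + w')
    · intro m hm
      unfold PtsZ at hm
      unfold PtsA
      rw [coe_filter, Set.mem_ofPred_eq] at hm ⊢
      obtain ⟨m1, m2, m3, m4, m5⟩ := hm
      refine ⟨hwin m m1, ?_, ?_, ?_, ?_⟩
      · rw [hv]
        have h1 : W * m ≡ 0 [MOD W] := Nat.modEq_zero_iff_dvd.2 (dvd_mul_right W m)
        simpa using h1.add (Nat.mod_modEq w W)
      · rw [← hfm]
        exact m3
      · intro p hp hpd
        rw [← hfm] at hpd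
        refine le_trans ?_ (m4 p hp hpd)
        calc X ^ (h / 6) ≤ X ^ (h' / 5) := Real.rpow_le_rpow_of_exponent_le hX1 (by linarith)
          _ ≤ (Y : ℝ) ^ (h' / 5) := Real.rpow_le_rpow hX0.le hYX (by positivity)
      · intro e he p hp hpd
        by_contra hcon
        push Not at hcon
        have h1 : (p : ℝ) < (Y : ℝ) ^ ε := by
          calc (p : ℝ) ≤ X ^ (1 / ((t0 + 1 : ℕ) : ℝ)) := hcon
            _ < X ^ ε := by
                apply Real.rpow_lt_rpow_of_exponent_lt (by linarith)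
                push_cast
                exact ht0
            _ ≤ (Y : ℝ) ^ ε := Real.rpow_le_rpow hX0.le hYX hε.le
        exact m5 p hp h1 ((hZmem1 p hp h1 m).2 ⟨e, he, hpd⟩)
    · intro m _ m' _ he
      have h1 : W * m + w' = W * m' + w' := he
      have h2 : W * m = W * m' := by omega
      exact Nat.eq_of_mul_eq_mul_left (by omega) h2
  have hVV := VV_ge hcuv he₀ (W := W) (w := w) ((Y : ℝ) ^ ε) hWw (H' := H') (Y := ⌊X⌋₊)
    (hH'H.trans hHfl)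
  rw [← hv, ← hZ] at hVV
  have hP0 : 0 ≤ VG ⌊X⌋₊ (u * W) q E := VG_nonneg _ _ _ _
  have hcard' : ((PtsZ a b Z R ((Y : ℝ) ^ (h' / 5)) ((Y : ℝ) ^ ε) B' H').card : ℝ) ≤
      ((PtsA u q v E e₀ R W w (X ^ (h / 6)) (X ^ (1 / ((t0 + 1 : ℕ) : ℝ))) B H).card : ℝ) := by
    exact_mod_cast hcard
  refine le_trans ?_ (key.trans hcard')
  have h1 : (H : ℝ) / W / 2 * VG ⌊X⌋₊ (u * W) q E ≤ H' * VV Z 0 H' :=
    mul_le_mul hHhalf hVV hP0 (Nat.cast_nonneg _)
  calc δ / 2 * ((H : ℝ) / W * VG ⌊X⌋₊ (u * W) q E) =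
        δ * ((H : ℝ) / W / 2 * VG ⌊X⌋₊ (u * W) q E) := by ring
    _ ≤ δ * (H' * VV Z 0 H') := mul_le_mul_of_nonneg_left h1 hδ.le

end Pool.Agent.Q117.AP
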