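import Pool.Agent.Q117.SI.Stm

/-!
Project AP (helper117): almost primes in arithmetic progressions with a growing modulus, in prescribed surroundings, at the natural scale and at the
scale of Rankin and Pomerance, for every modulus and every class.

Every `St_X` below is the statement of one job; the doc comment is its complete proof. The file of a job is `Pool/Agent/Q117/AP/<Name>.lean`, the theorem
has the name given in the comment (namespace `Pool.Agent.Q117.AP`). The hypotheses of a statement are the conclusions of other jobs (they are assembled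
later), so all jobs are independent.
-/

set_option autoImplicit false

namespace Pool.Agent.Q117.AP

open Finset Filter
open Pool.Agent.Q117.LF (Ro GN oF St_AVG AdmA)
open Pool.Agent.Q117.GP (Rk)
open Pool.Agent.Q117.SI (St_WZ St_RKS)
open Pool.Agent.H378R2 (WW)

/-- the value `u n + v + q e` -/
def gv (u q : ℕ) (v e : ℤ) (n : ℕ) : ℤ := (u : ℤ) * n + v + q * e

/-- the primes of `u` divide `q` and do not divide `v` -/
def Cuv (u q : ℕ) (v : ℤ) : Prop := ∀ p : ℕ, p.Prime → p ∣ u → p ∣ q ∧ ¬ (p : ℤ) ∣ v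

/-- no fixed prime divisor, for the primes that do not divide `q` -/
def AdQ (q : ℕ) (E : Finset ℤ) : Prop := ∀ p : ℕ, p.Prime → ¬ p ∣ q → ∃ r : ℤ, ∀ e ∈ E, ¬ (p : ℤ) ∣ r + e

/-- the number of the excluded classes of `n` modulo `p` (for `p ∤ u`) -/
noncomputable def oG (q : ℕ) (E : Finset ℤ) (p : ℕ) : ℕ := if p ∣ q then 1 else oF E p

/-- the product of `1 - oG p / p` over the primes `p ≤ y` that do not divide `u` -/
noncomputable def VG (y u q : ℕ) (E : Finset ℤ) : ℝ := ∏ p ∈ (Icc 1 y).filter (fun p : ℕ => p.Prime ∧ ¬ p ∣ u), (1 - (oG q E p : ℝ) / p)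

/-- the product of `1 - oF p / p` over the primes `p ≤ y` that do not divide `q` -/
noncomputable def VQ (y q : ℕ) (F : Finset ℤ) : ℝ := ∏ p ∈ (Icc 1 y).filter (fun p : ℕ => p.Prime ∧ ¬ p ∣ q), (1 - (oF F p : ℝ) / p)

open Classical in
/-- the `n ≡ w (mod W)` of the window with `u n + v + q e₀` a product of at most `R` primes, all `≥ x`, and all the `u n + v + q e`, `e ∈ E`, rough -/
noncomputable def PtsA (u q : ℕ) (v : ℤ) (E : Finset ℤ) (e₀ : ℤ) (R W w : ℕ) (x z : ℝ) (B H : ℕ) : Finset ℕ :=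
  (Ioc B (B + H)).filter (fun n : ℕ => n ≡ w [MOD W] ∧ (gv u q v e₀ n).natAbs.primeFactorsList.length ≤ R ∧
    (∀ p : ℕ, p.Prime → (p : ℤ) ∣ gv u q v e₀ n → x ≤ p) ∧ ∀ e ∈ E, Ro z (gv u q v e n))

/-- conclusion of LGE -/
def LGEc : Prop := ∀ (k R : ℕ) (h : ℝ), 1 ≤ R → h ≤ 1 → 25 < 3 * (8 * R - 1) * h →
  ∃ t : ℕ, 1 ≤ t ∧ ∃ θ : ℝ, 0 < θ ∧ ∃ c : ℝ, 0 < c ∧ ∃ X0 : ℝ, ∀ X : ℝ, X0 ≤ X → ∀ u q : ℕ, 1 ≤ u → 1 ≤ q → ∀ v : ℤ, Cuv u q v →
    ∀ E : Finset ℤ, E.card ≤ k → AdQ q E → ∀ e₀ ∈ E, ∀ W w : ℕ, 1 ≤ W → (W : ℝ) ≤ X ^ θ → (u : ℝ) * W ≤ X →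
    (∀ p : ℕ, p.Prime → p ∣ W → ∀ e ∈ E, ¬ (p : ℤ) ∣ gv u q v e w) →
    ∀ B H : ℕ, X ^ h ≤ H → (H : ℝ) ≤ X → (∀ n ∈ Ioc B (B + H), |((gv u q v e₀ n : ℤ) : ℝ)| ≤ X ^ (1 + θ)) →
      c * ((H : ℝ) / W * VG ⌊X⌋₊ (u * W) q E) ≤ ((PtsA u q v E e₀ R W w (X ^ (h / 6)) (X ^ (1 / (t : ℝ))) B H).card : ℝ)

/-- **LGE** (theorem `lge : St_LGE`): the lower bound, uniform in `u`, `q`, `v`, with a growing modulus.

Proof. As `lbi` (`Pool/Agent/Q117/SI/Lbi.lean`). Choose `h' < h` with `25 < 3 (8 R - 1) h'` and `9 / 10 h ≤ h'` (so `h' / 5 > h / 6`; note `h > 0`). `WZ` (the hypothesis `St_WZ`) with `K' = k + 1`, `R`, `h'`: `δ`, `ε`, `S`, `X0'`; `X' = ⌈X⌉₊` is the scale there. `θ = min ((h - h') / 4) (min (1 / 4) (S - 1))`. Let `w' = w % W`, `n = W m + w'`; the window of the `m`: `B' = B / W + 1`, `H' = H / W - 3` (natural numbers, `H' ≥ H / (2 W)` and `H' ≥ X' ^ h'` for `X` large; for `m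 ∈ (B', B' + H']` we have `B < W m + w' ≤ B + H`).
Main form: `a m + b`, `a = u W`, `b = u w' + v + q e₀` (`= gv u q v e₀ (W m + w')`); `|a| ≤ X ≤ X'`, `a ≠ 0`. COPRIME: let a prime `p` divide `a` and `b`. If `p ∣ W`: `gv u q v e₀ w ≡ b (mod p)` is divisible by `p`, excluded. If `p ∣ u`: `p ∣ q` and `p ∤ v` (`Cuv`), but `b ≡ v (mod p)`: contradiction. SIZES: `|a m + b| ≤ X ^ (1 + θ) ≤ X' ^ S`.
CLASSES: for a prime `p < X' ^ ε`: `Z p` = the `m < p` with `p ∣ gv u q v e (W m + w')` for some `e ∈ E`; for a prime `p ≥ X' ^ ε`: the `m < p` with `p ∣ a m + b` (`∅` for nonprimes). If `p ∣ W` or `p ∣ u`: `Z p = ∅` (the value is `≡ gv u q v e w`, resp. `≡ v` modulo `p`; also for `p ≥ X' ^ ε` by the coprimality). If `p ∤ u W` and `p ∣ q`: the values are `≡ u (W m + w') + v` for all `e`, so exactly one class: `|Z p| = 1 = oG q E p < p`. If `p ∤ u W q`: `p ∣ gv u q v e (W m + w')` iff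 `W m + w' ≡ - (v + q e) / u`; the classes of `m` correspond bijectively to the classes of `e` modulo `p` (`W`, `u`, `q` are invertible): for `p < X' ^ ε` `|Z p| = oF E p = oG q E p`, which is `≤ k` and `< p` by `AdQ`; for `p ≥ X' ^ ε` `|Z p| = 1 ≤ oF E p` (`E` is not empty). So `SysZ K' Z` and `|Z p| ≤ oG q E p` for `p ∤ u W`.
`VV Z 0 H' ≥ VG ⌊X⌋₊ (u W) q E` (all the factors are in `[0, 1]`, those of the primes `p ∣ u W` are `1` on the left and missing on the right, `H' ≤ X`). CONCLUSION: `m ↦ W m + w'` maps `PtsZ` injectively into `PtsA`: the prime factors of the value for `e₀` are `≥ X' ^ (h' / 5) ≥ X ^ (h / 6)`; `t` is so large that `1 / t < ε`: a prime `p ≤ X ^ (1 / t)` is `< X' ^ ε`, `m % p ∉ Z p`, so `p` divides no value (`Ro z` asks `z < p`; `gv u q v e (W m + w')` modulo `p` depends on `m % p` only). -/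
def St_LGE : Prop := St_WZ → LGEc

open Classical in
/-- conclusion of UGE -/
def UGEc : Prop := ∀ (k T : ℕ) (h : ℝ), 1 ≤ T → 0 < h → h ≤ 1 → ∃ C : ℝ, 0 < C ∧ ∃ X0 : ℝ, ∀ X : ℝ, X0 ≤ X → ∀ u q : ℕ, 1 ≤ u → 1 ≤ q → ∀ v : ℤ, Cuv u q v →
  ∀ E : Finset ℤ, E.card ≤ k → E.Nonempty → ∀ B H : ℕ, X ^ h ≤ H → (H : ℝ) ≤ X →
    (((Ioc B (B + H)).filter (fun n : ℕ => ∀ e ∈ E, Ro (X ^ (1 / (T : ℝ))) (gv u q v e n))).card : ℝ) ≤ C * (H * VG ⌊X⌋₊ u q E)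

/-- **UGE** (theorem `uge : UGEc`): the upper bound.

Proof. As `ubi` (`Pool/Agent/Q117/SI/Ubi.lean`): `int_upper` (`Q253/Thin/Int.lean`) with `r = k + 1`, `t = T`, the scale `H` (`H ≥ X ^ h` is large), `θ = 1`, `(A, B] = (B, B + H]`. `Z p` = the `n < p` with `p ∣ gv u q v e n` for some `e ∈ E`. If `p ∣ u`: `Z p = ∅` (`gv ≡ v`, `Cuv`). If `p ∤ u`, `p ∣ q`: one class (`E` is not empty), `|Z p| = 1 = oG q E p < p`. If `p ∤ q` (then `p ∤ u` by `Cuv`): `|Z p| = oF E p = oG q E p ≤ k` (the classes `- (v + q e) / u`).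
If `oF E p = p` for some prime `p ∤ q` then `p ≤ k ≤ X ^ (1 / T)` and the set on the left hand side is empty, while `VG ≥ 0` (`oG ≤ p` always). Otherwise `SysZ (k + 1) Z`. `Ro (X ^ (1/T))` of all the values implies `n % p ∉ Z p` for the primes `p ≤ H ^ (1/T)`. `VV Z 0 H ≤ C' VG ⌊X⌋₊ u q E`: the quotient is the product of `(1 - oG q E p / p)⁻¹` over the primes `H < p ≤ X`, `p ∤ u`, at most `∏ (1 - (k + 1) / p)⁻¹ ≤ C'` by Mertens (`log X ≤ (1 / h) log H`), exactly as in `Ubi.lean`. -/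
def St_UGE : Prop := UGEc

/-- **LGC** (theorem `lgc : St_LGC`): the sieve product of a union of two sets of shifts.

Proof. Prime by prime; let `p ≤ y` be a prime, `N = 2 k ^ 2 + k`, `D = E ∪ {s + f}`. If `p ∣ u` there is no factor on the left, none in `VG y u q E` and none in `VQ y q F` (`p ∣ q`). If `p ∤ u`, `p ∣ q`: the factors are `1 - 1 / p` on both sides (`oG = 1`), none in `VQ`. Let `p ∤ q` (so `p ∤ u`), `a = oF E p`, `b = oF F p` (`b ≤ p - 1` by `AdQ q F`: some class `- r` contains no element of `F`; `b ≤ k`).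
If `p` divides none of the `s + f - e`: the classes of the `s + f` and those of the `e` are different, `oF D p = a + b`, and `1 - (a + b) / p ≤ (1 - a / p) (1 - b / p)`. If `p` divides one of the numbers `s + f - e` (all nonzero): the right hand side contains the factor `(1 + 2 / p) ^ N` at least (all `GN` factors are `≥ 1`), `1 - oF D p / p ≤ 1 - a / p`, and `(1 - b / p) (1 + 2 / p) ^ N ≥ 1`: for `p ≥ 2 k`: `(1 - k / p) (1 + 2 k / p) = 1 + k / p - 2 k ^ 2 / p ^ 2 ≥ 1` and `(1 + 2 / p) ^ N ≥ 1 + 2 k / p` (Bernoulli, `N ≥ k`);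
for `p < 2 k`: `1 - b / p ≥ 1 / p` and `(1 + 2 / p) ^ N ≥ 1 + 2 N / p ≥ p` since `2 N = 4 k ^ 2 + 2 k ≥ p ^ 2`. All factors are nonnegative (`oG ≤ p`: `oF ≤ p` because it is a number of residues modulo `p`). Multiply over the primes (`GN 2 y m` is the product of `1 + 2 / p` over the primes `p ≤ y` dividing `m`; write both sides as products over all primes `p ≤ y` of the local factors). -/
def St_LGC : Prop := ∀ (k y u q : ℕ), (∀ p : ℕ, p.Prime → p ∣ u → p ∣ q) → ∀ E F : Finset ℤ, E.card ≤ k → F.card ≤ k → AdQ q F →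
  ∀ s : ℤ, (∀ f ∈ F, ∀ e ∈ E, s + f ≠ e) →
    VG y u q (E ∪ F.image (fun f => s + f)) ≤ VG y u q E * VQ y q F * (∏ f ∈ F, ∏ e ∈ E, GN 2 y (s + f - e)) ^ (2 * k ^ 2 + k)

open Classical in
/-- the good `n` of the window: `u n + v + q e₀` has at most `R` prime factors, all `≥ x`, all the `u n + v + q e`, `e ∈ E`, are rough, and for all the sets `F γ` and all shifts `|s| ≤ L γ`: if all the `u n + v + q (s + f)`, `f ∈ F γ`, are rough then `s + F γ ⊆ E` -/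
noncomputable def PtsE (u q : ℕ) (v : ℤ) (E : Finset ℤ) (e₀ : ℤ) (R : ℕ) (x z : ℝ) {g : ℕ} (L : Fin g → ℝ) (F : Fin g → Finset ℤ) (B H : ℕ) : Finset ℕ :=
  (Ioc B (B + H)).filter (fun n : ℕ => (gv u q v e₀ n).natAbs.primeFactorsList.length ≤ R ∧ (∀ p : ℕ, p.Prime → (p : ℤ) ∣ gv u q v e₀ n → x ≤ p) ∧
    (∀ e ∈ E, Ro z (gv u q v e n)) ∧ ∀ γ, ∀ s : ℤ, |(s : ℝ)| ≤ L γ → (∀ f ∈ F γ, Ro z (gv u q v (s + f) n)) → ∀ f ∈ F γ, s + f ∈ E)

/-- conclusion of NGE -/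
def NGEc : Prop := ∀ (k g R : ℕ) (h : ℝ), 1 ≤ R → h ≤ 1 → 25 < 3 * (8 * R - 1) * h → ∃ t : ℕ, 1 ≤ t ∧ ∃ θ : ℝ, 0 < θ ∧ ∀ T : ℕ, t ≤ T → ∃ c : ℝ, 0 < c ∧ ∃ ν : ℝ, 0 < ν ∧
  ∃ X0 : ℝ, ∀ X : ℝ, X0 ≤ X → ∀ u q : ℕ, 1 ≤ u → 1 ≤ q → (u : ℝ) ≤ X → (q : ℝ) ≤ X → ∀ v : ℤ, Cuv u q v →
  ∀ E : Finset ℤ, E.card ≤ k → (∀ e ∈ E, |(e : ℝ)| ≤ X) → AdQ q E → ∀ e₀ ∈ E,
  ∀ F : Fin g → Finset ℤ, (∀ γ, (F γ).Nonempty ∧ (F γ).card ≤ k ∧ (∀ f ∈ F γ, |(f : ℝ)| ≤ X) ∧ AdQ q (F γ)) →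
  ∀ L : Fin g → ℝ, (∀ γ, 0 ≤ L γ ∧ L γ ≤ X ∧ L γ * VQ ⌊X⌋₊ q (F γ) ≤ ν) → ∀ z : ℝ, X ^ (1 / (T : ℝ)) ≤ z → z ≤ X ^ (1 / (t : ℝ)) →
  ∀ B H : ℕ, X ^ h ≤ H → (H : ℝ) ≤ X → (∀ n ∈ Ioc B (B + H), |((gv u q v e₀ n : ℤ) : ℝ)| ≤ X ^ (1 + θ)) →
    c * (H * VG ⌊X⌋₊ u q E) ≤ ((PtsE u q v E e₀ R (X ^ (h / 6)) z L F B H).card : ℝ)

/-- **NGE** (theorem `nge : St_NGE`): the theorem at the natural scale.

Proof. `t`, `θ`, `c₀` from `LGEc k R h`; rough means `Ro z`. LOWER BOUND: `LGEc` with `W = 1`, `w = 0` (`u * 1 ≤ X`, `n ≡ 0 [MOD 1]`, no prime divides `1`): at least `c₀ H V` numbers, `V = VG ⌊X⌋₊ u q E`, with all the `gv u q v e n` in `Ro (X ^ (1/t))`, so in `Ro z`. UPPER BOUND: `UGEc` with `2 k + 1` in place of `k`, `T` and `h` (`Ro z` implies `Ro (X ^ (1/T))`).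
MERTENS: (M) for a nonempty set `F` and `q ≤ X`: `VQ ⌊X⌋₊ q F ≤ C (loglog X) / log X`: `oF F p ≥ 1`, so `VQ ≤ ∏_{p ≤ X, p ∤ q} (1 - 1 / p) ≤ (C / log X) ∏_{p ∣ q} (1 - 1 / p)⁻¹`, and the last product is at most `∏_{p ≤ log X} (1 - 1 / p)⁻¹ (1 - 1 / log X) ^ (- #{p ∣ q : p > log X}) ≤ C loglog X * e ^ 2` (`#{..} ≤ log X` since their product is `≤ q ≤ X`; `V1_bounds` in `Y843/HG`).
EXCEPTIONS for a member `F = F γ` and `|s| ≤ L γ` such that not `s + F ⊆ E`, but all the `gv u q v (s + f) n` are rough. (b) some `s + f ∈ E` (at most `k ^ 2` values of `s`): let `s + f₀ ∉ E`. The number of the `n` is at most `C H VG ⌊X⌋₊ u q (E ∪ {s + f₀}) ≤ C H V VQ ⌊X⌋₊ q {f₀} (∏_e GN 2 ⌊X⌋₊ (s + f₀ - e)) ^ N` (`LGC` with `{f₀}`, `k + 1`; `AdQ q {f₀}` is clear), and the last product is `≤ C (log X) ^ (1/2)` by `AVG` with `L = 0` (the forms repeated `N` times, `α = 1`, `β = s + f₀ - e ≠ 0`, `|β|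 ≤ 3 X ≤ X ^ 2`; the term `d = 0`): in total `≤ C H V (loglog X) (log X) ^ (- 1/2)` by (M).
(c) `s + f ∉ E` for all `f ∈ F`: the number of the `n` is at most `C H VG ⌊X⌋₊ u q (E ∪ (s + F)) ≤ C H V VQ ⌊X⌋₊ q F (∏_{f, e} GN 2 ⌊X⌋₊ (s + f - e)) ^ N` (`LGC`). `AVG` (the forms `s + (f - e)`, each repeated `N` times; their number is at most `k ^ 2 N`: take the maximum of the constants; `L' = ⌊L γ⌋₊`): the sum over the `s` of case (c) is `≤ C H V VQ ⌊X⌋₊ q F (L γ + (log X) ^ (1/2)) ≤ C H V (ν + (loglog X) (log X) ^ (- 1/2))` by the hypothesis on `L γ` and (M).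
SUM over the `g` members: `≤ C'' H V (ν + (loglog X) (log X) ^ (- 1/2))`, `C''` does not depend on `ν`: `ν = c₀ / (4 C'')`, `X` large; `c = c₀ / 2`. (`V ≥ 0`. Compare `Nsi.lean` and `Nsc.lean`: here everything is simpler because all the forms have the same slope.) -/
def St_NGE : Prop := LGEc → UGEc → St_LGC → St_AVG → NGEc

/-- **RSD** (theorem `rsd : St_RSD`): Rankin's choice of residue classes without the primes of a set `D`.

Proof. Copy `rsa` (`Pool/Agent/Q117/LF/Rsa.lean`) with `ps = 1` and the set `D` in place of the primes dividing `A0`. Symbols as there: `τ = loglog y`, `v₀ = (log y) ^ 2`, `V0 = log y log τ / (10 τ)`, `v = ⌊exp V0⌋`, `P` = the primes of `(v₀, v]` which are not in `S ∪ D`, `b p = 0` outside of `P`, the greedy lemma `greedy_gen` for `P`, `R` as there. Let `G = ∏_{p ∈ D} (1 - 1 / p)⁻¹ = G₁ G₂`, `G₁` over the `p ∈ D`, `p ≤ v₀`, `G₂` over the others.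 SIZE OF `R`: an element `k ≥ 1` of `R` which is not divisible by an element of `S`:
(1) `k` has a prime factor `q > y`: `k = q m`, `m ≤ H / y ≤ v₀`, so all prime factors of `m` are `≤ v₀`; they are not in `P`, so they are in `D` (and `≤ v₀`): `qm_count` with `s = {p ∈ D : p ≤ v₀}`: at most `10 H / log y * G₁`. (2) otherwise `k` has only prime factors in `P ∪ D` and `≤ y`. If one of them is in `D` and `> v`: at most `∑_{p ∈ D, p > v} H / p ≤ H |D| / exp V0 * 2 ≤ 2 H exp (- (3/4) V0) ≤ H / log y` (the hypothesis says `|D| ≤ exp (V0 / 4)`; `exp V0 ≤ v + 1 ≤ 2 v`). (3) otherwise all prime factors are `≤ v`: `smooth_count` as there.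
So `|R| ≤ C G₁ H / log y` (`G₁ ≥ 1`). GREEDY: as there, the product of `1 - 1 / p` over `P` is at most the one over all primes of `(v₀, v]` (`≤ C log v₀ / log v`, `cz_bounds`) times `∏_{p ∈ S} (1 - 1 / p)⁻¹ ≤ C` times `G₂`. So the number of the survivors is `≤ C G₁ G₂ (H / log y) (log v₀ / log v) ≤ C G H τ ^ 2 / ((log y) ^ 2 log τ)`. (The treatment of the points `t j` does not change.) -/
def St_RSD : Prop := ∀ K : ℕ, ∃ C : ℝ, 0 < C ∧ ∃ y₀ : ℕ, ∀ y : ℕ, y₀ ≤ y → ∀ S D : Finset ℕ,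
    (∀ q ∈ S, q.Prime ∧ 2 < q) → ∑ q ∈ S, (1 : ℝ) / q ≤ 12 / (Real.log y) ^ 2 → (∀ q ∈ D, q.Prime) →
    (D.card : ℝ) ≤ Real.exp (Real.log y * Real.log (Real.log (Real.log y)) / (40 * Real.log (Real.log y))) →
    ∀ H : ℕ, y ≤ H → (H : ℝ) ≤ y * (Real.log y) ^ 2 →
    ∀ t : Fin K → ℕ, (∀ j, (∀ p : ℕ, p.Prime → p ≤ y → p ∉ S → p ∉ D → ¬ p ∣ t j) ∧ t j ≤ H) →
    ∃ b : ℕ → ℕ, (∀ p : ℕ, p.Prime → p ≤ y → p ∉ S → p ∉ D → b p < p ∧ ∀ j, ¬ t j ≡ b p [MOD p]) ∧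
      ∀ U : Finset ℕ, (∀ k ∈ U, k ≤ H ∧ (∀ j, k ≠ t j) ∧ ∀ p : ℕ, p.Prime → p ≤ y → p ∉ S → p ∉ D →
        ¬ k ≡ b p [MOD p]) → (U.card : ℝ) ≤
      C * (∏ p ∈ D, (1 - 1 / (p : ℝ))⁻¹) * H * (Real.log (Real.log y)) ^ 2 /
        ((Real.log y) ^ 2 * Real.log (Real.log (Real.log y)))

/-- conclusion of COVD -/
def COVDc : Prop := ∀ k : ℕ, 1 ≤ k → ∃ c : ℝ, 0 < c ∧ ∃ X0 : ℝ, ∀ X : ℝ, X0 ≤ X → ∀ d : ℕ, 1 ≤ d →
    (d.primeFactors.card : ℝ) ≤ Real.exp (2 * (Real.log (Real.log X) / Real.log (Real.log (Real.log X)))) →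
    ∀ H : Finset ℕ, H.card = k → (∀ h ∈ H, (h : ℝ) ≤ c * ((Nat.totient d : ℝ) / d * Rk X)) → AdmA d H →
    ∃ a : ℕ, ∀ s : ℕ, (s : ℝ) ≤ c * ((Nat.totient d : ℝ) / d * Rk X) →
      ((∀ p : ℕ, p.Prime → ¬ p ∣ d → p ∣ WW X ∅ 1 → ¬ p ∣ a + s) ↔ s ∈ H)

/-- **COVD** (theorem `covd : St_COVD`): covering `[0, c (φ(d) / d) R(X)]` except for a prescribed set, without the primes that divide `d`, where `d` may grow.

Proof. Copy `cova` (`Pool/Agent/Q117/LF/Cova.lean`) with `A0 = d`, `ps = 1`, `S = ∅`. `shift_exA`: its proof shows that `t` and `L₀` do not depend on `A0` (`int_lower`, `VZ_low` are uniform in the classes); restate it with `∀ A0` after `L₀`. Let `T = log X`, `A = log T`, `B = log A`, `D = log B` (large), `φ = φ(d) / d = ∏_{p ∣ d} (1 - 1 / p)` (`Nat.totient_eq_mul_prod_factors`), `ω = |d.primeFactors| ≤ exp (2 A / B) ≤ T ^ (1/8)` (`2 / B ≤ 1 / 8`).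
`φ ≥ 1 / (ω + 1)` (the `i`-th prime factor is `≥ i + 1`; induction over the set: `∏_{p ∈ s} (1 - 1 / p) ≥ 1 / (|s| + 1)` for sets of integers `≥ 2`, remove the largest element, which is `≥ |s| + 1`). So `φ ≥ T ^ (- 1/4)`, `L = ⌊c φ Rk X⌋₊ ≥ T ^ (1/2)` (`Rk X ≥ T`). NEW CHOICE: `y = yy X` as there and `y' = min (y / 8) (2 L)` (natural numbers). Then `T ^ (1/2) ≤ y'`, `A / 2 ≤ log y' ≤ A`, `B / 2 ≤ loglog y' ≤ B`, `D / 2 ≤ logloglog y'`; `y' ≤ 2 L`; `2 L ≤ y' (log y') ^ 2`: trivial if `y' = 2 L`, as there if `y' = y / 8` (`φ ≤ 1`); `2 L < y' ^ 2` in the same way; `k ≤ y'`.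
`St_RSD` at `y'`, with `S'` (the primes `∤ d` dividing some `t₀ + h`; all are `> L ^ (1/t) ≥ T ^ (1 / (2 t))`, at most `2 t k` of them: use `ev_all` with `2 t` in place of `t` to get `K A ^ 2 ≤ T ^ (1 / (2 t))`) in the place of `S` and `D := d.primeFactors`: its condition `ω ≤ exp (2 A / B) ≤ exp (log y' logloglog y' / (40 loglog y'))` holds because the last exponent is `≥ (A / 2) (D / 2) / (40 B) = A D / (160 B)` and `D ≥ 320`. The number of the survivors is `≤ C φ⁻¹ (2 L) B ^ 2 / ((A / 2) ^ 2 (D / 2)) ≤ 16 C c T / A ≤ T / (80000 A)` (the factor `φ⁻¹` cancels against `L ≤ c φ Rk X`).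
AVAILABLE PRIMES: the lemma `classes` (`GP/Classes.lean`) with `d.primeFactors` as the set `S` and `S'`; the primes of `(y', y]` which are not in `d.primeFactors`, not in `S'`, `≠ 1`: at least the number of the primes of `(y / 8, y]` (`y' ≤ y / 8`), `≥ T / (8000 A)`, minus `ω ≤ T ^ (1/8)`, minus `2 t k`, minus `1`: more than `T / (80000 A) + k`. (There the primes of `A0` were `≤ y'`; here some of them may be in `(y', y]`, they are subtracted.) The rest does not change. -/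
def St_COVD : Prop := St_RSD → COVDc

open Classical in
/-- the `n` of the window with `u n + v + q e₀` a product of at most `R` primes, all `≥ x`, all the `u n + v + q e`, `e ∈ E`, rough, and all the other `u n + v + q s`, `|s| ≤ D`, with a prime factor `≤ y` -/
noncomputable def PtsS (u q : ℕ) (v : ℤ) (E : Finset ℤ) (e₀ : ℤ) (R : ℕ) (x z D y : ℝ) (B H : ℕ) : Finset ℕ :=
  (Ioc B (B + H)).filter (fun n : ℕ => (gv u q v e₀ n).natAbs.primeFactorsList.length ≤ R ∧ (∀ p : ℕ, p.Prime → (p : ℤ) ∣ gv u q v e₀ n → x ≤ p) ∧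
    (∀ e ∈ E, Ro z (gv u q v e n)) ∧ ∀ s : ℤ, |(s : ℝ)| ≤ D → s ∉ E → ¬ Ro y (gv u q v s n))

/-- conclusion of RGG -/
def RGGc : Prop := ∀ (k R : ℕ) (h : ℝ), 1 ≤ k → 1 ≤ R → h ≤ 1 → 25 < 3 * (8 * R - 1) * h → ∃ t : ℕ, 1 ≤ t ∧ ∃ θ : ℝ, 0 < θ ∧ ∀ ε : ℝ, 0 < ε → ∃ c : ℝ, 0 < c ∧
  ∃ X0 : ℝ, ∀ X : ℝ, X0 ≤ X → ∀ u q : ℕ, 1 ≤ u → 1 ≤ q → (u : ℝ) ≤ X ^ (1 - ε) → ∀ v : ℤ, Cuv u q v →
  (q.primeFactors.card : ℝ) ≤ Real.exp (Real.log (Real.log X) / Real.log (Real.log (Real.log X))) →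
  ∀ E : Finset ℤ, E.card ≤ k → (∀ e ∈ E, |(e : ℝ)| ≤ c * ((Nat.totient q : ℝ) / q * Rk X)) → AdQ q E → ∀ e₀ ∈ E,
  ∀ B H : ℕ, X ^ h ≤ H → (H : ℝ) ≤ X → (∀ n ∈ Ioc B (B + H), |((gv u q v e₀ n : ℤ) : ℝ)| ≤ X ^ (1 + θ)) →
    (H : ℝ) * X ^ (-ε) ≤ ((PtsS u q v E e₀ R (X ^ (h / 6)) (X ^ (1 / (t : ℝ))) (c * ((Nat.totient q : ℝ) / q * Rk X)) (Real.log X) B H).card : ℝ)

/-- **RGG** (theorem `rgg : St_RGG`): prescribed surroundings at the scale of Rankin and Pomerance.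

Proof. Compare `rsi` (`Pool/Agent/Q117/SI/Rsi.lean`). `t`, `θ`, `c₁` from `LGEc k R h`. Given `ε` let `α = min (min θ (ε / 2)) 1`, `X' = X ^ α`. `COVDc` for all `1 ≤ k' ≤ k`: `c_cov` (the minimum of the constants). Let `φ = φ(q) / q`. Hypothesis of `COVDc` at `X'`: with `A = loglog X`: `loglog X' = A + log α ≥ A / 2`, so `2 loglog X' / logloglog X' ≥ A / log A` for `X` large (`0 < log (A + log α) ≤ log A`).
Let `c` be so small that `O = ⌈c φ Rk X⌉₊` satisfies `2 O ≤ c_cov φ Rk X'` for `X` large (`St_RKS`: `Rk X ≤ (4 / α) Rk X'`; and `φ Rk X' → ∞`, uniformly: `φ ≥ 1 / (ω(q) + 1) ≥ (log X) ^ (- 1/4)` as in COVD, `Rk X' ≥ (log X) ^ (1/2)`). `H' = {e + O : e ∈ E} ⊂ ℕ`, `|H'| = |E| = k' ≥ 1`, `AdmA q H'` from `AdQ q E`. COVD gives `a₀`. Let `W` = the product of the primes dividing `WW X' ∅ 1` and not dividing `q`; `W ≤ WW X' ∅ 1 ≤ X' ^ (1/500)`-type bound (as in `Rsi.lean`),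 `≤ X ^ θ`, `≤ X ^ (ε / 2)`; `u W ≤ X ^ (1 - ε / 2) ≤ X`.
`W` is prime to `q`, so to `u` (`Cuv`); let `w` be a natural number with `u w + v ≡ q (a₀ + O) (mod W)`. For a prime `p ∣ W` and an integer `s ≥ - O`: `gv u q v s w ≡ q (a₀ + (O + s)) (mod p)`, so `p` divides it iff `p ∣ a₀ + (O + s)`. So no prime `p ∣ W` divides `gv u q v e w`, `e ∈ E`; apply `LGEc` (`W`, `w`): at least `c₁ (H / W) VG ⌊X⌋₊ (u W) q E ≥ H X ^ (-ε)` numbers `n ≡ w (mod W)` for `X` large: `VG ≥ c₂ (log X) ^ (- k')` for some `k'` by `VZ_low` (`Q253/Thin/Int.lean`) for the classes `Z p = range (oG q E p)` (`SysZ (k + 1)`, `oG < p` by `AdQ` and `2 ≤ p`), the missing factors are `≤ 1`.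
For these `n` and `|s| ≤ c φ Rk X ≤ O`, `s ∉ E`: `O + s ∉ H'`, so some prime `p ∤ q`, `p ∣ WW X' ∅ 1` divides `a₀ + (O + s)`; `p ∣ W`, `p ∣ gv u q v s n` (`n ≡ w (mod p)`), `p ≤ log X' / 1000 ≤ log X`: `¬ Ro (log X) (gv u q v s n)`. -/
def St_RGG : Prop := LGEc → COVDc → St_RKS → RGGc

end Pool.Agent.Q117.AP
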