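import Pool.Agent.Q117.AP.Stm

/-!
Project AP (helper117), part 2: the theorems for the rows.

Every `St_X` below is the statement of one job; the doc comment is its complete proof. The file of a job is `Pool/Agent/Q117/AP/<Name>.lean`, the theorem
has the name given in the comment (namespace `Pool.Agent.Q117.AP`). The hypotheses of a statement are the conclusions of other jobs.
-/

set_option autoImplicit false

namespace Pool.Agent.Q117.AP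

open Finset Filter
open Pool.Agent.Q117.LF (Ro oF)
open Pool.Agent.Q117.GP (Rk)

open Classical in
/-- the `1 ≤ b ≤ d` prime to `d` with `b + d e₀` a product of at most two primes, all `≥ x`, all the `b + d e`, `e ∈ E`, without prime factors `≤ z`, and all the other `b + d s`, `|s| ≤ D`, with a prime factor `≤ y` -/
noncomputable def Cls (d : ℕ) (E : Finset ℤ) (e₀ : ℤ) (x z D y : ℝ) : Finset ℕ :=
  (Icc 1 d).filter (fun b : ℕ => b.Coprime d ∧ ((b : ℤ) + d * e₀).natAbs.primeFactorsList.length ≤ 2 ∧ (∀ p : ℕ, p.Prime → (p : ℤ) ∣ (b : ℤ) + d * e₀ → x ≤ p) ∧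
    (∀ e ∈ E, Ro z ((b : ℤ) + d * e)) ∧ ∀ s : ℤ, |(s : ℝ)| ≤ D → s ∉ E → ¬ Ro y ((b : ℤ) + d * s))

/-- conclusion of CLS -/
def CLSc : Prop := ∀ k : ℕ, 1 ≤ k → ∃ t : ℕ, 1 ≤ t ∧ ∀ ε : ℝ, 0 < ε → ∃ c : ℝ, 0 < c ∧ ∃ d0 : ℕ, ∀ d : ℕ, d0 ≤ d →
  (d.primeFactors.card : ℝ) ≤ Real.exp (Real.log (Real.log d) / Real.log (Real.log (Real.log d))) →
  ∀ E : Finset ℤ, E.card ≤ k → (∀ e ∈ E, |(e : ℝ)| ≤ c * ((Nat.totient d : ℝ) / d * Rk d)) → AdQ d E → ∀ e₀ ∈ E,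
    (d : ℝ) ^ (1 - ε) ≤ ((Cls d E e₀ ((d : ℝ) ^ (1 / 6 : ℝ)) ((d : ℝ) ^ (1 / (t : ℝ))) (c * ((Nat.totient d : ℝ) / d * Rk d)) (Real.log d)).card : ℝ)

/-- **CLS** (theorem `cls : St_CLS`): the classes modulo `d`.

Proof. `RGGc k 2 1` (`25 < 45`): `t`, `θ`; given `ε` apply it with `ε' = min (ε / 2) (min (1 / (2 t)) (1 / 2))` at `X = d`, `u = 1`, `q = d`, `v = 0` (`Cuv` is clear; `1 ≤ X ^ (1 - ε')`), `B = 0`, `H = d` (`Ioc 0 d = Icc 1 d`); `gv 1 d 0 e b = b + d e`; sizes: `|b + d e₀| ≤ d + d c Rk d ≤ d ^ (1 + θ)` for `d` large (`φ(d) / d ≤ 1`, `Rk d ≤ (log d) ^ 2`, `St_RKS` gives this). It gives at least `d ^ (1 - ε')` numbers `b` in `PtsS`. Those which are not prime to `d`: a prime `p` divides `b` and `d`, so `b + d e₀`, so `p > d ^ (1/t)` (`Ro`). The number of the `b ≤ d` divisible by a prime `p ∣ d`, `p > d ^ (1/t)`, is at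 most `t d ^ (1 - 1/t)` (there are at most `t` such primes because their product is `≤ d`).
`d ^ (1 - ε') - t d ^ (1 - 1/t) ≥ d ^ (1 - ε)` for `d` large (`ε' ≤ 1 / (2 t)`, `ε' ≤ ε / 2`; one may assume `ε ≤ 1`). -/
def St_CLS : Prop := RGGc → Pool.Agent.Q117.SI.St_RKS → CLSc

open Classical in
/-- the `1 ≤ n ≤ N` with `a + d (n + e₀)` a product of at most `R` primes, all `≥ x`, all the `a + d (n + e)`, `e ∈ E`, without prime factors `≤ z`, and such that for the integers `s ∉ E` at distance `≤ L` from an element of `E` the number `a + d (n + s)` has a prime factor `≤ z` -/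
noncomputable def Trm (d a : ℕ) (E : Finset ℤ) (e₀ : ℤ) (R : ℕ) (x z L : ℝ) (N : ℕ) : Finset ℕ :=
  (Icc 1 N).filter (fun n : ℕ => ((a : ℤ) + d * (n + e₀)).natAbs.primeFactorsList.length ≤ R ∧ (∀ p : ℕ, p.Prime → (p : ℤ) ∣ (a : ℤ) + d * (n + e₀) → x ≤ p) ∧
    (∀ e ∈ E, Ro z ((a : ℤ) + d * (n + e))) ∧ ∀ e ∈ E, ∀ s : ℤ, |((s - e : ℤ) : ℝ)| ≤ L → s ∉ E → ¬ Ro z ((a : ℤ) + d * (n + s)))

/-- conclusion of PAT -/
def PATc : Prop := ∀ (k R : ℕ) (β : ℝ), 1 ≤ R → 0 < β → 25 * (1 + β) < 3 * (8 * R - 1) * β → ∃ t : ℕ, 1 ≤ t ∧ ∃ c : ℝ, 0 < c ∧ ∃ ν : ℝ, 0 < ν ∧ ∃ d0 : ℕ, ∀ d : ℕ, d0 ≤ d →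
  ∀ a : ℕ, 1 ≤ a → a ≤ d → a.Coprime d → ∀ E : Finset ℤ, E.card ≤ k → (∀ e ∈ E, |(e : ℝ)| ≤ (d : ℝ) ^ β) → AdQ d E → ∀ e₀ ∈ E,
    c * ((d : ℝ) ^ β * VQ ⌊(d : ℝ) ^ (1 + β)⌋₊ d E) ≤
      ((Trm d a E e₀ R ((d : ℝ) ^ (β / 7)) ((d : ℝ) ^ (1 / (t : ℝ))) (ν * ((Nat.totient d : ℝ) / d * Real.log d)) ⌊(d : ℝ) ^ β⌋₊).card : ℝ)

/-- **PAT** (theorem `pat : St_PAT`): every modulus, every class, every pattern.

Proof. Choose `h < β / (1 + β)` with `25 < 3 (8 R - 1) h` and `h ≥ (6 / 7) β / (1 + β)`. `NGEc k k R h`: `t`, `θ`; `T = ⌈1 + β⌉₊ * t`; `c'`, `ν'`. Apply it at `X = d ^ (1 + β)`, `u = q = d ≤ X`, `v = a` (`Cuv d d a` because `a` is prime to `d`), `z = d ^ (1 / t)` (`X ^ (1 / T) ≤ z ≤ X ^ (1 / t)`), `B = 0`, `H = ⌊d ^ β⌋₊` (`X ^ h ≤ H` for `d` large since `(1 + β) h < β`; `H ≤ X`). `gv d d a e n = d n + a + d e = a + d (n + e)`. Sizes: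 `|d n + a + d e₀| ≤ 3 X ≤ X ^ (1 + θ)`.
FAMILY: `E` is not empty; let `F γ = {e γ}`, `e : Fin k → ℤ` with image `E` (`|E| ≤ k`; `AdQ d {e γ}`: `r = 1 - e γ`), `L γ = ν (φ(d) / d) log d`: `VQ ⌊X⌋₊ d {e γ} = ∏_{p ≤ X, p ∤ d} (1 - 1 / p) = (d / φ(d)) ∏_{p ≤ X} (1 - 1 / p) ≤ (d / φ(d)) C / log X` (all the primes dividing `d` are `≤ X`; Mertens, `V1_bounds` in `Y843/HG`; `Nat.totient_eq_mul_prod_factors`; `oF {e} p = 1`), so with `ν ≤ ν' / C` the hypothesis `L γ * VQ ≤ ν'` holds; `L γ ≤ X`.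
`VG ⌊X⌋₊ d d E = VQ ⌊X⌋₊ d E` (`oG d E p = oF E p` for `p ∤ d`), `H ≥ d ^ β / 2`. `PtsE ⊆ Trm`: `X ^ (h / 6) ≥ d ^ (β / 7)`; for `e = e γ ∈ E` and `s` with `|s - e| ≤ L`: if `Ro z (a + d (n + s))` then the shift `s - e` of `F γ` gives `s ∈ E`. -/
def St_PAT : Prop := NGEc → PATc

open Classical in
/-- the `1 ≤ b ≤ a` prime to `a` for which among the `b + a s`, `|s| ≤ D`, exactly those with `s ∈ E` have no prime factor `≤ z`, and `b + a e₀` is a product of at most two primes, all `≥ x` -/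
noncomputable def Prf (a : ℕ) (E : Finset ℤ) (e₀ : ℤ) (x z D : ℝ) : Finset ℕ :=
  (Icc 1 a).filter (fun b : ℕ => b.Coprime a ∧ ((b : ℤ) + a * e₀).natAbs.primeFactorsList.length ≤ 2 ∧ (∀ p : ℕ, p.Prime → (p : ℤ) ∣ (b : ℤ) + a * e₀ → x ≤ p) ∧
    ∀ s : ℤ, |(s : ℝ)| ≤ D → (Ro z ((b : ℤ) + a * s) ↔ s ∈ E))

/-- conclusion of PRF -/
def PRFc : Prop := ∀ k : ℕ, ∃ t : ℕ, 1 ≤ t ∧ ∃ c : ℝ, 0 < c ∧ ∃ C : ℝ, 0 < C ∧ ∃ ν : ℝ, 0 < ν ∧ ∃ a0 : ℕ, ∀ a : ℕ, a0 ≤ a →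
  ∀ E : Finset ℤ, E.card ≤ k → (∀ e ∈ E, |(e : ℝ)| ≤ ν * ((Nat.totient a : ℝ) / a * Real.log a)) → AdQ a E → ∀ e₀ ∈ E,
    c * (Nat.totient a * VQ a a E) ≤ ((Prf a E e₀ ((a : ℝ) ^ (1 / 6 : ℝ)) ((a : ℝ) ^ (1 / (t : ℝ))) (ν * ((Nat.totient a : ℝ) / a * Real.log a))).card : ℝ) ∧
    (({b : ℕ | 1 ≤ b ∧ b ≤ a ∧ ∀ e ∈ E, Ro ((a : ℝ) ^ (1 / (t : ℝ))) ((b : ℤ) + a * e)}.ncard : ℕ) : ℝ) ≤ C * (Nat.totient a * VQ a a E)

/-- **PRF** (theorem `prf : St_PRF`): the number of the classes with a given profile.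

Proof. `NGEc k 1 2 1` (`25 < 45`): `t`, `θ`; `T = t`; `c'`, `ν'`. Apply it at `X = a`, `u = 1`, `q = a`, `v = 0`, `z = a ^ (1 / t)`, `B = 0`, `H = a`, with the family of the one set `F 0 = {0}`, `L 0 = D = ν (φ(a) / a) log a` (`VQ ⌊a⌋₊ a {0} = (a / φ(a)) ∏_{p ≤ a} (1 - 1 / p) ≤ (a / φ(a)) C / log a` as in PAT; `ν ≤ ν' / C`, `ν ≤ 1`). `gv 1 a 0 e b = b + a e`, sizes `|b + a e₀| ≤ a + a log a ≤ a ^ (1 + θ)`. `VG ⌊a⌋₊ 1 a E = ∏_{p ∣ a} (1 - 1 / p) * VQ a a E = (φ(a) / a) VQ a a E` (all prime factors of `a` are `≤ a`), so `H * VG = φ(a) VQ a a E`. For the `b` of `PtsE` and `|s| ≤ D`: `Ro z (b + a s)` implies `s ∈ E` (shift `s` of `{0}`), the converse is in `PtsE`.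
COPRIMALITY: the `b` of `PtsE` which are not prime to `a` are divisible by a prime `p ∣ a`, and `p ∣ b + a e₀`, so `p > a ^ (1 / t)`: at most `t a ^ (1 - 1/t)` of these (as in CLS). `φ(a) VQ a a E = a VG ≥ c₂ a (log a) ^ (- k')` by `VZ_low` (`Q253/Thin/Int.lean`) for the classes `Z p = range (oG a E p)` (`SysZ (k + 1)`: `oG < p` by `AdQ` and `2 ≤ p`), so this is at most half of the main term for `a` large. Hence `c = c' / 2`.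
UPPER BOUND: `UGEc k t 1` at `X = a`, `B = 0`, `H = a`, `E` nonempty (`e₀ ∈ E`), and `H * VG = φ(a) VQ a a E`. -/
def St_PRF : Prop := NGEc → UGEc → PRFc

open Classical in
/-- the `m ≡ r (mod q)` of `(x, x + y]` with `m + q e₀` a product of at most `R` primes, all `≥ w`, all the `m + q e`, `e ∈ E`, without prime factors `≤ z`, and all the other `m + q s`, `|s| ≤ D`, with a prime factor `≤ v` -/
noncomputable def Prg (q r : ℕ) (E : Finset ℤ) (e₀ : ℤ) (R : ℕ) (w z D v x y : ℝ) : Finset ℕ :=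
  (Icc 1 ⌊x + y⌋₊).filter (fun m : ℕ => x < m ∧ m ≡ r [MOD q] ∧ ((m : ℤ) + q * e₀).natAbs.primeFactorsList.length ≤ R ∧ (∀ p : ℕ, p.Prime → (p : ℤ) ∣ (m : ℤ) + q * e₀ → w ≤ p) ∧
    (∀ e ∈ E, Ro z ((m : ℤ) + q * e)) ∧ ∀ s : ℤ, |(s : ℝ)| ≤ D → s ∉ E → ¬ Ro v ((m : ℤ) + q * s))

/-- conclusion of PRG -/
def PRGc : Prop := ∀ (k R : ℕ) (η κ : ℝ), 1 ≤ k → 1 ≤ R → 0 ≤ κ → η ≤ 1 → 25 < 3 * (8 * R - 1) * (η - κ) → ∃ t : ℕ, 1 ≤ t ∧ ∀ ε : ℝ, 0 < ε → ∃ c : ℝ, 0 < c ∧ ∃ x0 : ℝ, ∀ x : ℝ, x0 ≤ x →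
  ∀ q : ℕ, 1 ≤ q → (q : ℝ) ≤ x ^ κ → (q.primeFactors.card : ℝ) ≤ Real.exp (Real.log (Real.log x) / Real.log (Real.log (Real.log x))) → ∀ r : ℕ, r.Coprime q →
  ∀ E : Finset ℤ, E.card ≤ k → (∀ e ∈ E, |(e : ℝ)| ≤ c * ((Nat.totient q : ℝ) / q * Rk x)) → AdQ q E → ∀ e₀ ∈ E,
    x ^ (η - ε) / q ≤ ((Prg q r E e₀ R (x ^ ((η - κ) / 7)) (x ^ (1 / (t : ℝ))) (c * ((Nat.totient q : ℝ) / q * Rk x)) (Real.log x) x (x ^ η)).card : ℝ)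

/-- **PRG** (theorem `prg : St_PRG`): every class in every short interval, at the scale of Rankin and Pomerance.

Proof. `η - κ > 0`. Choose `h < η - κ` with `25 < 3 (8 R - 1) h`, `h ≥ (6 / 7) (η - κ)`. `RGGc k R h`: `t`, `θ`; for `ε` apply it with `ε' = min (ε / 2) (min (1 - κ) 1)` (`κ < η ≤ 1`) at `X = x`, `u = q ≤ x ^ κ ≤ X ^ (1 - ε')`, `v = r' = r % q` (for `q = 1` this is `0`; `Cuv q q r'` because `r` is prime to `q`). Let `m = q n + r'`, `B = ⌊x⌋₊ / q + 1`, `H = ⌊x ^ η⌋₊ / q - 3` (natural numbers): for `n ∈ (B, B + H]` we have `x < q n + r' ≤ x + x ^ η`; `H ≥ x ^ η / (2 q) ≥ x ^ h` for `x` large, `H ≤ x`. `gv q q r' e n = m + q e`; sizes `|m + q e₀| ≤ 2 x + q c Rk x ≤ x ^ (1 + θ)` (`q ≤ x`, `Rk x ≤ (log x) ^ 2` by `St_RKS`).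
`m ↦ n` injective; `X ^ (h / 6) ≥ x ^ ((η - κ) / 7)`; `m ≡ r (mod q)`. The number is `≥ H x ^ (-ε') ≥ x ^ (η - ε) / q` for `x` large. -/
def St_PRG : Prop := RGGc → Pool.Agent.Q117.SI.St_RKS → PRGc

open Classical in
/-- the `m ≡ r (mod q)` of `(x, x + y]` with `m + q e₀` a product of at most `R` primes, all `≥ w`, all the `m + q e`, `e ∈ E`, without prime factors `≤ z`, and such that for the sets `F γ` and all shifts `|s| ≤ L γ`: if all the `m + q (s + f)`, `f ∈ F γ`, have no prime factor `≤ z`, then `s + F γ ⊆ E` -/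
noncomputable def Prn (q r : ℕ) (E : Finset ℤ) (e₀ : ℤ) (R : ℕ) (w z : ℝ) {g : ℕ} (L : Fin g → ℝ) (F : Fin g → Finset ℤ) (x y : ℝ) : Finset ℕ :=
  (Icc 1 ⌊x + y⌋₊).filter (fun m : ℕ => x < m ∧ m ≡ r [MOD q] ∧ ((m : ℤ) + q * e₀).natAbs.primeFactorsList.length ≤ R ∧ (∀ p : ℕ, p.Prime → (p : ℤ) ∣ (m : ℤ) + q * e₀ → w ≤ p) ∧
    (∀ e ∈ E, Ro z ((m : ℤ) + q * e)) ∧ ∀ γ, ∀ s : ℤ, |(s : ℝ)| ≤ L γ → (∀ f ∈ F γ, Ro z ((m : ℤ) + q * (s + f))) → ∀ f ∈ F γ, s + f ∈ E)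

/-- conclusion of PRN -/
def PRNc : Prop := ∀ (k R g : ℕ) (F : Fin g → Finset ℤ) (η κ : ℝ), (∀ γ, (F γ).Nonempty) → 1 ≤ R → 0 ≤ κ → η ≤ 1 → 25 < 3 * (8 * R - 1) * (η - κ) →
  ∃ t : ℕ, 1 ≤ t ∧ ∃ c : ℝ, 0 < c ∧ ∃ ν : ℝ, 0 < ν ∧ ∃ x0 : ℝ, ∀ x : ℝ, x0 ≤ x → ∀ q : ℕ, 1 ≤ q → (q : ℝ) ≤ x ^ κ → ∀ r : ℕ, r.Coprime q →
  ∀ E : Finset ℤ, E.card ≤ k → (∀ e ∈ E, |(e : ℝ)| ≤ x / q) → AdQ q E → ∀ e₀ ∈ E,
    c * (x ^ η / q * VQ ⌊x⌋₊ q E) ≤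
      ((Prn q r E e₀ R (x ^ ((η - κ) / 7)) (x ^ (1 / (t : ℝ))) (fun γ => ν * ((Nat.totient q : ℝ) / q * Real.log x) ^ (F γ).card) F x (x ^ η)).card : ℝ)

/-- **PRN** (theorem `prn : St_PRN`): every class in every short interval, natural scale, a family of patterns.

Proof. `k' = max k (max |F γ|)`. Choose `h` as in PRG. `NGEc k' g R h`: `t`, `θ`; `T = t`; `c'`, `ν'`. Apply it at `X = x`, `u = q`, `v = r' = r % q`, `m = q n + r'`, `B`, `H` as in PRG, `z = x ^ (1 / t)`. Sizes: `|m + q e₀| ≤ 3 x ≤ x ^ (1 + θ)`. `|e| ≤ x / q ≤ X`. FAMILY: for the `γ` with `AdQ q (F γ)` the set `F γ` with `L γ = ν ((φ(q) / q) log x) ^ |F γ|`; for the other `γ` replace `F γ` by `{0}` and `L γ` by `0`: for these the condition in `Prn` is empty: there is a prime `p ∤ q` such that the classes of the elements of `F γ` cover all classes, so `p ≤ |F γ|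 ≤ z` and `p` divides one of the `m + q (s + f)`.
`L γ * VQ ⌊x⌋₊ q (F γ) ≤ ν'`: let `P` be larger than all `|f - f'|` and `2 |F γ|`: for `p > P` the elements of `F γ` are different modulo `p`, `1 - |F γ| / p ≤ (1 - 1 / p) ^ |F γ|`; so `VQ ≤ (∏_{P < p ≤ x, p ∤ q} (1 - 1 / p)) ^ |F γ| ≤ (C_P (q / φ(q)) / log x) ^ |F γ|` (Mertens; `q ≤ x`). Choose `ν` small. For `γ` with `L γ = 0` the product is `0`. `L γ ≤ X` for `x` large (`φ(q) / q ≤ 1`). `|f| ≤ X`. `VG ⌊x⌋₊ q q E = VQ ⌊x⌋₊ q E` and `H ≥ x ^ η / (2 q)`. -/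
def St_PRN : Prop := NGEc → PRNc

end Pool.Agent.Q117.AP
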